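import Pool.Agent.S91X.Schur
import Pool.Agent.S50X.Block

open MeasureTheory Metric Set Filter Topology Module
open scoped Matrix ENNReal

namespace Pool.Agent.S91X

open Pool.Agent.S50X

section Direct

variable {E F : ℕ → Type*} [∀ i, NormedAddCommGroup (E i)] [∀ i, InnerProductSpace ℂ (E i)]
  [∀ i, NormedAddCommGroup (F i)] [∀ i, InnerProductSpace ℂ (F i)]

theorem memℓp_dsumD (A : ∀ i, (E i →L[ℂ] F i)) (M : ℝ) (hA : ∀ i, ‖A i‖ ≤ M) (f : lp E 2) :
    Memℓp (fun i => A i (f i)) 2 := by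
  have hM : 0 ≤ M := (norm_nonneg _).trans (hA 0)
  refine memℓp_gen ?_
  have h1 : Summable fun i => ‖f i‖ ^ ((2 : ℝ≥0∞)).toReal :=
    (lp.memℓp f).summable two_toReal_pos
  refine Summable.of_nonneg_of_le (fun i => by positivity) (fun i => ?_)
    (h1.mul_left (M ^ ((2 : ℝ≥0∞)).toReal))
  rw [← Real.mul_rpow hM (norm_nonneg _)]
  refine Real.rpow_le_rpow (norm_nonneg _) ?_ two_toReal_pos.le
  exact ((A i).le_opNorm _).trans (mul_le_mul_of_nonneg_right (hA i) (norm_nonneg _))

/-- The direct sum of a bounded family of operators. -/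
noncomputable def dsumD (A : ∀ i, (E i →L[ℂ] F i)) (M : ℝ) (hA : ∀ i, ‖A i‖ ≤ M) :
    lp E 2 →L[ℂ] lp F 2 :=
  LinearMap.mkContinuous
    { toFun := fun f => (⟨fun i => A i (f i), memℓp_dsumD A M hA f⟩ : lp F 2)
      map_add' := fun f g => by
        ext i
        exact map_add (A i) (f i) (g i)
      map_smul' := fun c f => by
        ext i
        exact map_smul (A i) c (f i) } M (fun f => by
      have hM : 0 ≤ M := (norm_nonneg _).trans (hA 0)
      refine lp.norm_le_of_forall_sum_le two_toReal_pos (by positivity) fun s => ?_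
      rw [Real.mul_rpow hM (norm_nonneg _)]
      calc ∑ i ∈ s, ‖A i (f i)‖ ^ ((2 : ℝ≥0∞)).toReal
          ≤ ∑ i ∈ s, M ^ ((2 : ℝ≥0∞)).toReal * ‖f i‖ ^ ((2 : ℝ≥0∞)).toReal := by
            refine Finset.sum_le_sum fun i _ => ?_
            rw [← Real.mul_rpow hM (norm_nonneg _)]
            refine Real.rpow_le_rpow (norm_nonneg _) ?_ two_toReal_pos.le
            exact ((A i).le_opNorm _).trans
              (mul_le_mul_of_nonneg_right (hA i) (norm_nonneg _))
        _ = M ^ ((2 : ℝ≥0∞)).toReal * ∑ i ∈ s, ‖f i‖ ^ ((2 : ℝ≥0∞)).toReal := by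
            rw [Finset.mul_sum]
        _ ≤ M ^ ((2 : ℝ≥0∞)).toReal * ‖f‖ ^ ((2 : ℝ≥0∞)).toReal := by
            have := lp.sum_rpow_le_norm_rpow two_toReal_pos f s
            gcongr)

theorem dsumD_apply (A : ∀ i, (E i →L[ℂ] F i)) (M : ℝ) (hA : ∀ i, ‖A i‖ ≤ M) (f : lp E 2)
    (i : ℕ) : (dsumD A M hA f : ∀ i, F i) i = A i (f i) := rfl

theorem dsumD_single (A : ∀ i, (E i →L[ℂ] F i)) (M : ℝ) (hA : ∀ i, ‖A i‖ ≤ M) (i : ℕ)
    (a : E i) : dsumD A M hA (lp.single 2 i a) = lp.single 2 i (A i a) := by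
  ext j
  rw [dsumD_apply]
  by_cases h : j = i
  · subst h
    simp
  · simp [lp.single_apply, h]

theorem inner_single_singleD (i : ℕ) (a : E i) (f : lp E 2) :
    inner ℂ (lp.single 2 i a : lp E 2) f = inner ℂ a (f i) := by
  rw [lp.inner_single_left]

theorem orthonormal_blockD {κ : ℕ → Type*} [∀ i, Fintype (κ i)]
    (v : ∀ i, OrthonormalBasis (κ i) ℂ (E i)) :
    Orthonormal ℂ (fun q : Σ i, κ i => (lp.single 2 q.1 (v q.1 q.2) : lp E 2)) := by
  classical
  rw [orthonormal_iff_ite]
  rintro ⟨i, k⟩ ⟨j, l⟩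
  rw [inner_single_singleD]
  by_cases h1 : i = j
  · subst h1
    simp only [lp.single_apply_self]
    rw [orthonormal_iff_ite.1 (v i).orthonormal]
    by_cases h2 : k = l
    · subst h2
      simp
    · rw [if_neg h2, if_neg]
      intro h
      exact h2 (by simpa using h)
  · rw [if_neg (fun h => h1 (congrArg Sigma.fst h))]
    simp [lp.single_apply, h1]

theorem span_blockD {κ : ℕ → Type*} [∀ i, Fintype (κ i)]
    (v : ∀ i, OrthonormalBasis (κ i) ℂ (E i)) :
    (⊤ : Submodule ℂ (lp E 2)) ≤ (Submodule.span ℂ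
      (range fun q : Σ i, κ i => (lp.single 2 q.1 (v q.1 q.2) : lp E 2))).topologicalClosure := by
  intro f _
  refine mem_closure_of_tendsto (lp.hasSum_single (by norm_num) f) ?_
  refine Eventually.of_forall fun s => Submodule.sum_mem _ fun i _ => ?_
  have h1 : f i = ∑ k, (inner ℂ (v i k) (f i) : ℂ) • v i k := by
    have := (v i).sum_repr (f i)
    simp only [(v i).repr_apply_apply] at this
    exact this.symm
  rw [h1]
  have h2 : (lp.single 2 i (∑ k, (inner ℂ (v i k) (f i) : ℂ) • v i k) : lp E 2) =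
      ∑ k, (inner ℂ (v i k) (f i) : ℂ) • (lp.single 2 i (v i k) : lp E 2) := by
    have := map_sum (lp.singleContinuousLinearMap ℂ E 2 i)
      (fun k => (inner ℂ (v i k) (f i) : ℂ) • v i k) Finset.univ
    simp only [lp.singleContinuousLinearMap_apply] at this
    rw [this]
    exact Finset.sum_congr rfl fun k _ => lp.single_smul _ _ _ _
  rw [h2]
  exact Submodule.sum_mem _ fun k _ => Submodule.smul_mem _ _
    (Submodule.subset_span ⟨⟨i, k⟩, rfl⟩)

/-- The Hilbert basis of the Hilbert sum given by orthonormal bases of the summands. -/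
noncomputable def blockBasisD [∀ i, CompleteSpace (E i)] {κ : ℕ → Type*} [∀ i, Fintype (κ i)]
    (v : ∀ i, OrthonormalBasis (κ i) ℂ (E i)) : HilbertBasis (Σ i, κ i) ℂ (lp E 2) :=
  HilbertBasis.mk (orthonormal_blockD v) (span_blockD v)

theorem blockBasisD_apply [∀ i, CompleteSpace (E i)] {κ : ℕ → Type*} [∀ i, Fintype (κ i)]
    (v : ∀ i, OrthonormalBasis (κ i) ℂ (E i)) (q : Σ i, κ i) :
    blockBasisD v q = (lp.single 2 q.1 (v q.1 q.2) : lp E 2) := by
  unfold blockBasisD
  rw [HilbertBasis.coe_mk]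

/-- An isometric embedding of the Hilbert sum of finite-dimensional spaces. -/
theorem exists_isometryD (H : Type*) [NormedAddCommGroup H] [InnerProductSpace ℂ H]
    [CompleteSpace H] (hH : ¬ FiniteDimensional ℂ H) {κ : ℕ → Type} [∀ i, Fintype (κ i)]
    [∀ i, CompleteSpace (E i)] (v : ∀ i, OrthonormalBasis (κ i) ℂ (E i)) :
    Nonempty (lp E 2 →ₗᵢ[ℂ] H) := by
  obtain ⟨w, hw⟩ := exists_orthonormal_family H hH (Σ i, κ i)
  exact ⟨(hw.orthogonalFamily.linearIsometry).comp (blockBasisD v).repr.toLinearIsometry⟩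

end Direct

theorem exists_embedding {ι : Type} [Fintype ι] {p : ℝ} (hp : 0 < p) {F : EC ι → ℝ}
    (hF : Rep p F) (H : Type*) [NormedAddCommGroup H] [InnerProductSpace ℂ H] [CompleteSpace H]
    (hH : ¬ FiniteDimensional ℂ H) :
    ∃ T : EC ι →ₗ[ℂ] (H →L[ℂ] H), ∀ x, HasSum (fun k : ℕ => approxNum (T x) k ^ p) (F x) := by
  classical
  obtain ⟨f, hf, hsum⟩ := hF
  choose κ μ iκ iμ A hA using hf
  choose v hv hval using fun i x => hA i x
  have hf0 : ∀ i x, 0 ≤ f i x := fun i x => by
    rw [hval i x]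
    exact Finset.sum_nonneg fun k _ => by positivity
  have hF0 : ∀ x, 0 ≤ F x := fun x => (hsum x).nonneg fun i => hf0 i x
  have hM0 : ∀ x, 0 ≤ F x ^ (1 / p) := fun x => Real.rpow_nonneg (hF0 x) _
  have hterm : ∀ x i k, ‖A i x (v i x k)‖ ≤ F x ^ (1 / p) := by
    intro x i k
    have h1 : ‖A i x (v i x k)‖ ^ p ≤ F x := by
      refine le_trans ?_ (le_hasSum (hsum x) i fun j _ => hf0 j x)
      rw [hval i x]
      exact Finset.single_le_sum (f := fun k => ‖A i x (v i x k)‖ ^ p)
        (fun j _ => by positivity) (Finset.mem_univ k)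
    have h2 : ‖A i x (v i x k)‖ = (‖A i x (v i x k)‖ ^ p) ^ (1 / p) := by
      rw [← Real.rpow_mul (norm_nonneg _), mul_one_div_cancel hp.ne', Real.rpow_one]
    rw [h2]
    exact Real.rpow_le_rpow (by positivity) h1 (by positivity)
  have hM : ∀ x i, ‖A i x‖ ≤ F x ^ (1 / p) := by
    intro x i
    refine opNorm_le_of_orth (A i x) (v i x) (v i x).orthonormal ?_ (hv i x) (hM0 x)
      (hterm x i)
    intro e
    have h1 := hasSum_fintype (fun k => (inner ℂ (v i x k) e : ℂ) • A i x (v i x k))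
    have h2 : ∑ k, (inner ℂ (v i x k) e : ℂ) • A i x (v i x k) = A i x e := by
      conv_rhs => rw [← (v i x).sum_repr e]
      rw [map_sum]
      exact Finset.sum_congr rfl fun k _ => by rw [map_smul, (v i x).repr_apply_apply]
    rwa [h2] at h1
  obtain ⟨U⟩ := exists_isometryD H hH (fun i => EuclideanSpace.basisFun (κ i) ℂ)
  obtain ⟨V⟩ := exists_isometryD H hH (fun i => EuclideanSpace.basisFun (μ i) ℂ)
  set U' : lp (fun i => EC (κ i)) 2 →L[ℂ] H := U.toContinuousLinearMap with hU'
  set V' : lp (fun i => EC (μ i)) 2 →L[ℂ] H := V.toContinuousLinearMap with hV'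
  let D : EC ι → (lp (fun i => EC (κ i)) 2 →L[ℂ] lp (fun i => EC (μ i)) 2) := fun x =>
    dsumD (fun i => A i x) (F x ^ (1 / p)) (hM x)
  have hD : ∀ x g i, (D x g : ∀ i, EC (μ i)) i = A i x (g i) := fun x g i => rfl
  let T : EC ι →ₗ[ℂ] (H →L[ℂ] H) :=
    { toFun := fun x => V' ∘L (D x) ∘L (ContinuousLinearMap.adjoint U')
      map_add' := fun x y => by
        ext g
        simp only [ContinuousLinearMap.comp_apply, add_apply]
        rw [← map_add]
        congr 1
        ext i : 2
        rw [hD, map_add]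
        rfl
      map_smul' := fun r x => by
        ext g
        simp only [ContinuousLinearMap.comp_apply, smul_apply, RingHom.id_apply]
        rw [← map_smul]
        congr 1
        ext i : 2
        rw [hD, map_smul]
        rfl }
  have hTapp : ∀ x g, T x g = V (D x (ContinuousLinearMap.adjoint U' g)) := fun x g => rfl
  have hUU : ∀ z, ContinuousLinearMap.adjoint U' (U z) = z := by
    intro z
    refine ext_inner_left ℂ fun w => ?_
    rw [ContinuousLinearMap.adjoint_inner_right]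
    exact U.inner_map_map w z
  refine ⟨T, fun x => ?_⟩
  set bb := blockBasisD (fun i => v i x) with hbb
  have hTU : ∀ q, T x (U (bb q)) = V (lp.single 2 q.1 (A q.1 x (v q.1 x q.2))) := by
    intro q
    rw [hTapp, hUU, hbb, blockBasisD_apply]
    congr 1
    exact dsumD_single _ _ _ _ _
  have hnorm : ∀ q, ‖T x (U (bb q))‖ = ‖A q.1 x (v q.1 x q.2)‖ := by
    intro q
    rw [hTU, V.norm_map, lp.norm_single (by norm_num)]
  refine hasSum_approxNum' hp (T x) (fun q => U (bb q)) (bb.orthonormal.comp_linearIsometry U)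
    ?_ ?_ ?_
  · intro g
    have h1 := (bb.hasSum_repr (ContinuousLinearMap.adjoint U' g)).mapL (V' ∘L (D x))
    have h2 : (V' ∘L (D x)) (ContinuousLinearMap.adjoint U' g) = T x g := rfl
    rw [h2] at h1
    have h3 : (fun q => (inner ℂ (U (bb q)) g : ℂ) • T x (U (bb q))) =
        fun q => (V' ∘L (D x)) (bb.repr (ContinuousLinearMap.adjoint U' g) q • bb q) := by
      funext q
      rw [map_smul, HilbertBasis.repr_apply_apply, ContinuousLinearMap.adjoint_inner_right,
        hTapp, hUU]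
      rfl
    rw [h3]
    exact h1
  · intro q q' hqq
    rw [hTU, hTU, V.inner_map_map, inner_single_singleD]
    obtain ⟨i, k⟩ := q
    obtain ⟨i', k'⟩ := q'
    by_cases h1 : i = i'
    · subst h1
      have h2 : k ≠ k' := fun hk => hqq (by rw [hk])
      simp only [lp.single_apply_self]
      exact hv i x h2
    · simp [lp.single_apply, h1]
  · simp only [hnorm]
    have h1 : ∀ i, HasSum (fun k => ‖A i x (v i x k)‖ ^ p) (f i x) := by
      intro i
      rw [hval i x]
      exact hasSum_fintype _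
    refine HasSum.sigma_of_hasSum (hsum x) h1 ?_
    rw [summable_sigma_of_nonneg (fun q => by positivity)]
    refine ⟨fun i => (h1 i).summable, ?_⟩
    refine (hsum x).summable.congr fun i => ?_
    exact (h1 i).tsum_eq.symm

variable {n : ℕ}

/-- The approximation numbers of a matrix. -/
theorem hasSum_approxNum_matrix {q : ℝ} (hq : 0 < q) (x : VN n) :
    HasSum (fun k : ℕ => approxNum (LinearMap.toContinuousLinearMap
      (Matrix.toEuclideanLin (mt x))) k ^ q) (∑ i, eig x i ^ (q / 2)) := by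
  set v := (Matrix.isHermitian_conjTranspose_mul_self (mt x)).eigenvectorBasis with hv
  refine hasSum_approxNum hq _ v.toHilbertBasis ?_ ?_
  · intro i j hij
    have h1 := inner_gram x (v i) (v j)
    rw [gram_eigen, inner_smul_right, orthonormal_iff_ite.1 v.orthonormal i j, if_neg hij,
      mul_zero] at h1
    simpa using h1.symm
  · have h1 : ∀ j, ‖(LinearMap.toContinuousLinearMap (Matrix.toEuclideanLin (mt x)) :
        EC (Fin n) →L[ℂ] EC (Fin n)) (v.toHilbertBasis j)‖ ^ q = eig x j ^ (q / 2) := by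
      intro j
      rw [eig_eq_norm, rpow_half_sq (norm_nonneg _)]
      simp [hv]
    have h2 := hasSum_fintype (fun j => ‖(LinearMap.toContinuousLinearMap
      (Matrix.toEuclideanLin (mt x)) : EC (Fin n) →L[ℂ] EC (Fin n)) (v.toHilbertBasis j)‖ ^ q)
    simp only [h1] at h2 ⊢
    exact h2

end Pool.Agent.S91X
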