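import Pool.Agent.S91X.Base

open MeasureTheory Metric Set Filter Topology Module
open scoped Matrix

namespace Pool.Agent.S91X

open Pool.Agent.S50X

variable {n : ℕ}

/-- Schur's theorem in the form of traces of powers. -/
theorem schur_aux (n : ℕ) : ∀ (E : Type) [NormedAddCommGroup E] [InnerProductSpace ℂ E]
    [FiniteDimensional ℂ E], finrank ℂ E = n → ∀ T : E →ₗ[ℂ] E,
    ∃ u : OrthonormalBasis (Fin n) ℂ E, ∀ k : ℕ, LinearMap.trace ℂ E (T ^ k) =
      ∑ i, (inner ℂ (u i) (T (u i))) ^ k := by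
  induction n with
  | zero =>
    intro E _ _ _ hE T
    refine ⟨(stdOrthonormalBasis ℂ E).reindex (finCongr hE), fun k => ?_⟩
    rw [LinearMap.trace_eq_sum_inner _ ((stdOrthonormalBasis ℂ E).reindex (finCongr hE))]
    simp
  | succ n ih =>
    intro E _ _ _ hE T
    have hnt : Nontrivial E := Module.nontrivial_of_finrank_pos (R := ℂ) (by omega)
    obtain ⟨μ, hμ⟩ := Module.End.exists_eigenvalue (LinearMap.adjoint T)
    obtain ⟨v, hv⟩ := hμ.exists_hasEigenvector
    have hv0 : v ≠ 0 := hv.2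
    have hvn : ‖v‖ ≠ 0 := norm_ne_zero_iff.mpr hv0
    set w : E := ((‖v‖⁻¹ : ℝ) : ℂ) • v with hw
    have hwn : ‖w‖ = 1 := by
      rw [hw, norm_smul, Complex.norm_real, norm_inv, norm_norm, inv_mul_cancel₀ hvn]
    have hw0 : w ≠ 0 := by
      intro h
      rw [h, norm_zero] at hwn
      exact zero_ne_one hwn
    have hTw : LinearMap.adjoint T w = μ • w := by
      rw [hw, map_smul, hv.apply_eq_smul, smul_comm]
    have hTk : ∀ k : ℕ, ((LinearMap.adjoint T) ^ k) w = μ ^ k • w := by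
      intro k
      induction k with
      | zero => simp
      | succ k ihk =>
        rw [pow_succ', Module.End.mul_apply, ihk, map_smul, hTw, smul_smul, pow_succ]
    haveI : Fact (finrank ℂ E = n + 1) := ⟨hE⟩
    set W : Submodule ℂ E := (ℂ ∙ w)ᗮ with hW
    have hWn : finrank ℂ W = n := Submodule.finrank_orthogonal_span_singleton hw0
    have hinv : ∀ x ∈ W, T x ∈ W := by
      intro x hx
      rw [hW, Submodule.mem_orthogonal_singleton_iff_inner_right] at hx ⊢
      rw [← LinearMap.adjoint_inner_left, hTw, inner_smul_left, hx, mul_zero]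
    obtain ⟨u', hu'⟩ := ih W hWn (T.restrict hinv)
    let f : Fin (n + 1) → E := Fin.cons w (fun i => ((u' i : W) : E))
    have hf0 : f 0 = w := rfl
    have hfs : ∀ i : Fin n, f i.succ = ((u' i : W) : E) := fun i => rfl
    have horth : ∀ i : Fin n, inner ℂ w ((u' i : W) : E) = 0 := by
      intro i
      exact (Submodule.mem_orthogonal_singleton_iff_inner_right).mp (u' i).2
    have hf : Orthonormal ℂ f := by
      rw [orthonormal_iff_ite]
      intro i j
      refine Fin.cases ?_ (fun i => ?_) i <;> refine Fin.cases ?_ (fun j => ?_) j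
      · rw [hf0, inner_self_eq_norm_sq_to_K, hwn]
        simp
      · rw [hf0, hfs, horth, if_neg (Fin.succ_ne_zero j).symm]
      · rw [hf0, hfs, ← inner_conj_symm, horth, map_zero, if_neg (Fin.succ_ne_zero i)]
      · rw [hfs, hfs, ← Submodule.coe_inner, orthonormal_iff_ite.1 u'.orthonormal]
        simp [Fin.succ_inj]
    have hcard : Fintype.card (Fin (n + 1)) = finrank ℂ E := by rw [hE, Fintype.card_fin]
    let B : Basis (Fin (n + 1)) ℂ E := basisOfOrthonormalOfCardEqFinrank hf hcard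
    have hB : (B : Fin (n + 1) → E) = f := coe_basisOfOrthonormalOfCardEqFinrank hf hcard
    have hBo : Orthonormal ℂ B := by rw [hB]; exact hf
    let b : OrthonormalBasis (Fin (n + 1)) ℂ E := B.toOrthonormalBasis hBo
    have hb : (b : Fin (n + 1) → E) = f := by
      rw [Basis.coe_toOrthonormalBasis, hB]
    refine ⟨b, fun k => ?_⟩
    rw [LinearMap.trace_eq_sum_inner _ b, Fin.sum_univ_succ, Fin.sum_univ_succ]
    simp only [hb, hf0, hfs]
    congr 1
    · -- the eigenvector of the adjoint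
      have h1 : (inner ℂ w ((T ^ k) w) : ℂ) = (starRingEnd ℂ) (μ ^ k) := by
        have h2 : (inner ℂ w ((T ^ k) w) : ℂ) = inner ℂ (((LinearMap.adjoint T) ^ k) w) w := by
          have h3 : ∀ (k : ℕ) (z : E), (inner ℂ z ((T ^ k) w) : ℂ) =
              inner ℂ (((LinearMap.adjoint T) ^ k) z) w := by
            intro k
            induction k with
            | zero => intro z; simp
            | succ k ihk =>
              intro z
              rw [pow_succ', Module.End.mul_apply, ← LinearMap.adjoint_inner_left, ihk,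
                ← Module.End.mul_apply, ← pow_succ]
          exact h3 k w
        rw [h2, hTk, inner_smul_left, inner_self_eq_norm_sq_to_K, hwn]
        simp
      have h4 : (inner ℂ w (T w) : ℂ) = (starRingEnd ℂ) μ := by
        rw [← LinearMap.adjoint_inner_left, hTw, inner_smul_left, inner_self_eq_norm_sq_to_K, hwn]
        simp
      rw [h1, h4, map_pow]
    · have h5 : ∀ i : Fin n, (inner ℂ ((u' i : W) : E) ((T ^ k) ((u' i : W) : E)) : ℂ) =
          inner ℂ (u' i) (((T.restrict hinv) ^ k) (u' i)) := by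
        intro i
        rw [Module.End.pow_restrict k hinv, Submodule.coe_inner]
        rfl
      have h6 : ∀ i : Fin n, (inner ℂ ((u' i : W) : E) (T ((u' i : W) : E)) : ℂ) =
          inner ℂ (u' i) ((T.restrict hinv) (u' i)) := by
        intro i
        rw [Submodule.coe_inner]
        rfl
      simp only [h5, h6]
      rw [← LinearMap.trace_eq_sum_inner _ u', hu']

theorem exists_schur (T : Matrix (Fin n) (Fin n) ℂ) :
    ∃ u : OrthonormalBasis (Fin n) ℂ (EC (Fin n)), ∀ k : ℕ, (T ^ k).trace =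
      ∑ i, (inner ℂ (u i) (Matrix.toEuclideanLin T (u i))) ^ k := by
  obtain ⟨u, hu⟩ := schur_aux n (EC (Fin n)) (by simp) (Matrix.toEuclideanLin T)
  refine ⟨u, fun k => ?_⟩
  rw [← hu k]
  have h1 : (Matrix.toEuclideanLin T : EC (Fin n) →ₗ[ℂ] EC (Fin n)) ^ k =
      Matrix.toEuclideanLin (T ^ k) := by
    rw [Matrix.toEuclideanLin_eq_toLin_orthonormal, Matrix.toLin_pow]
  rw [h1, Matrix.toEuclideanLin_eq_toLin_orthonormal, Matrix.trace_toLin_eq]

theorem mt_zero : mt (0 : VN n) = 0 := by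
  ext i j
  simp [mt]

theorem mt_smul (c : ℂ) (x : VN n) : mt (c • x) = c • mt x := by
  ext i j
  simp [mt]

theorem mt_rsmul (c : ℝ) (x : VN n) : mt (c • x) = c • mt x := by
  ext i j
  simp [mt]

theorem trace_gram (x : VN n) : ((mt x)ᴴ * mt x).trace = ((‖x‖ ^ 2 : ℝ) : ℂ) := by
  rw [EuclideanSpace.norm_sq_eq, Fintype.sum_prod_type_right, Complex.ofReal_sum, Matrix.trace]
  refine Finset.sum_congr rfl fun j _ => ?_
  rw [Matrix.diag_apply, Matrix.mul_apply, Complex.ofReal_sum]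
  refine Finset.sum_congr rfl fun i _ => ?_
  rw [Matrix.conjTranspose_apply]
  show (starRingEnd ℂ) (x (i, j)) * x (i, j) = _
  rw [mul_comm, Complex.mul_conj, Complex.normSq_eq_norm_sq]

theorem inner_gram (x : VN n) (u v : EC (Fin n)) :
    inner ℂ u (Matrix.toEuclideanLin ((mt x)ᴴ * mt x) v) =
      inner ℂ (Matrix.toEuclideanLin (mt x) u) (Matrix.toEuclideanLin (mt x) v) := by
  have h1 : Matrix.toEuclideanLin ((mt x)ᴴ * mt x) v =
      Matrix.toEuclideanLin (mt x)ᴴ (Matrix.toEuclideanLin (mt x) v) := by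
    ext i
    simp [Matrix.toLpLin_apply]
  rw [h1, Matrix.toEuclideanLin_conjTranspose_eq_adjoint, LinearMap.adjoint_inner_right]

theorem sum_norm_sq (x : VN n) (u : OrthonormalBasis (Fin n) ℂ (EC (Fin n))) :
    ∑ i, ‖Matrix.toEuclideanLin (mt x) (u i)‖ ^ 2 = ‖x‖ ^ 2 := by
  have h1 : ((∑ i, ‖Matrix.toEuclideanLin (mt x) (u i)‖ ^ 2 : ℝ) : ℂ) = ((‖x‖ ^ 2 : ℝ) : ℂ) := by
    rw [← trace_gram, ← Matrix.trace_toLin_eq _ (EuclideanSpace.basisFun (Fin n) ℂ).toBasis,
      ← Matrix.toEuclideanLin_eq_toLin_orthonormal, LinearMap.trace_eq_sum_inner _ u,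
      Complex.ofReal_sum]
    refine Finset.sum_congr rfl fun i _ => ?_
    rw [inner_gram, inner_self_eq_norm_sq_to_K]
    simp
  exact Complex.ofReal_injective h1

theorem inner_ZZ (x y : VN n) (u : EC (Fin n)) :
    (inner ℂ u (Matrix.toEuclideanLin (ZZ x y) u) : ℂ).re =
      ‖Matrix.toEuclideanLin (mt x) u‖ ^ 2 - ‖Matrix.toEuclideanLin (mt y) u‖ ^ 2 := by
  have h1 : Matrix.toEuclideanLin (ZZ x y) u =
      Matrix.toEuclideanLin (mt x - Complex.I • mt y)ᴴ
        (Matrix.toEuclideanLin (mt x + Complex.I • mt y) u) := by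
    ext i
    have h2 : (mt x - Complex.I • mt y)ᴴ = (mt x)ᴴ + Complex.I • (mt y)ᴴ := by
      rw [Matrix.conjTranspose_sub, Matrix.conjTranspose_smul, Complex.star_def, Complex.conj_I,
        neg_smul, sub_neg_eq_add]
    simp [Matrix.toLpLin_apply, ZZ, h2]
  rw [h1, Matrix.toEuclideanLin_conjTranspose_eq_adjoint, LinearMap.adjoint_inner_right]
  have h3 : Matrix.toEuclideanLin (mt x - Complex.I • mt y) u =
      Matrix.toEuclideanLin (mt x) u - Complex.I • Matrix.toEuclideanLin (mt y) u := by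
    rw [map_sub, map_smul]
    rfl
  have h4 : Matrix.toEuclideanLin (mt x + Complex.I • mt y) u =
      Matrix.toEuclideanLin (mt x) u + Complex.I • Matrix.toEuclideanLin (mt y) u := by
    rw [map_add, map_smul]
    rfl
  rw [h3, h4]
  set a := Matrix.toEuclideanLin (mt x) u
  set b := Matrix.toEuclideanLin (mt y) u
  rw [inner_sub_left, inner_add_right, inner_add_right, inner_smul_left, inner_smul_right,
    inner_smul_left, inner_smul_right, inner_self_eq_norm_sq_to_K, inner_self_eq_norm_sq_to_K,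
    ← inner_conj_symm b a]
  simp only [Complex.conj_I, Complex.sub_re, Complex.add_re, Complex.mul_re, Complex.neg_re,
    Complex.neg_im, Complex.I_re, Complex.I_im, Complex.conj_re, Complex.conj_im]
  have h5 : ((‖a‖ : ℂ) ^ 2).re = ‖a‖ ^ 2 := by rw [← Complex.ofReal_pow, Complex.ofReal_re]
  have h6 : ((‖b‖ : ℂ) ^ 2).re = ‖b‖ ^ 2 := by rw [← Complex.ofReal_pow, Complex.ofReal_re]
  have h7 : ((‖b‖ : ℂ) ^ 2).im = 0 := by rw [← Complex.ofReal_pow, Complex.ofReal_im]
  simp only [Complex.mul_im, Complex.I_re, Complex.I_im]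
  simp [h5, h6, h7]
  ring

theorem spec_tube (x y : VN n) (hy : ‖y‖ ≤ 1) : ∃ (d : Fin n → ℂ) (h : Fin n → ℝ),
    (∀ k : ℕ, (ZZ x y ^ k).trace = ∑ i, d i ^ k) ∧ (∀ i, 0 ≤ h i) ∧ (∀ i, h i - 1 ≤ (d i).re) ∧
      ∑ i, h i = ‖x‖ ^ 2 := by
  obtain ⟨u, hu⟩ := exists_schur (ZZ x y)
  refine ⟨_, fun i => ‖Matrix.toEuclideanLin (mt x) (u i)‖ ^ 2, hu, fun i => by positivity,
    fun i => ?_, sum_norm_sq x u⟩
  rw [inner_ZZ]
  have h1 : ‖Matrix.toEuclideanLin (mt y) (u i)‖ ^ 2 ≤ ‖y‖ ^ 2 := by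
    rw [← sum_norm_sq y u]
    exact Finset.single_le_sum (f := fun i => ‖Matrix.toEuclideanLin (mt y) (u i)‖ ^ 2)
      (fun j _ => by positivity) (Finset.mem_univ i)
  have h2 : ‖y‖ ^ 2 ≤ 1 := by
    have := norm_nonneg y
    nlinarith
  simp only
  linarith

theorem ZZ_zero (x : VN n) : ZZ x 0 = (mt x)ᴴ * mt x := by
  simp [ZZ, mt_zero]

theorem gram_eigen (x : VN n) (i : Fin n) :
    Matrix.toEuclideanLin ((mt x)ᴴ * mt x)
      ((Matrix.isHermitian_conjTranspose_mul_self (mt x)).eigenvectorBasis i) =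
      ((eig x i : ℝ) : ℂ) • (Matrix.isHermitian_conjTranspose_mul_self (mt x)).eigenvectorBasis i := by
  have h3 := (Matrix.isHermitian_conjTranspose_mul_self (mt x)).mulVec_eigenvectorBasis i
  ext k
  have h5 := congrFun h3 k
  refine Eq.trans ?_ (h5.trans ?_)
  · rfl
  · simp [eig]

theorem eig_eq_norm (x : VN n) (i : Fin n) : eig x i = ‖Matrix.toEuclideanLin (mt x)
    ((Matrix.isHermitian_conjTranspose_mul_self (mt x)).eigenvectorBasis i)‖ ^ 2 := by
  set v := (Matrix.isHermitian_conjTranspose_mul_self (mt x)).eigenvectorBasis with hv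
  have h1 := inner_gram x (v i) (v i)
  rw [gram_eigen, inner_smul_right, inner_self_eq_norm_sq_to_K, inner_self_eq_norm_sq_to_K,
    v.orthonormal.1 i] at h1
  simp only [RCLike.ofReal_one, one_pow, mul_one] at h1
  exact Complex.ofReal_injective (by simpa using h1)

theorem eig_nonneg (x : VN n) (i : Fin n) : 0 ≤ eig x i := by
  rw [eig_eq_norm]
  positivity

theorem sum_eig (x : VN n) : ∑ i, eig x i = ‖x‖ ^ 2 := by
  simp only [eig_eq_norm]
  exact sum_norm_sq x _

theorem trace_gram_pow (x : VN n) (k : ℕ) :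
    (((mt x)ᴴ * mt x) ^ k).trace = ∑ i, ((eig x i : ℝ) : ℂ) ^ k := by
  set v := (Matrix.isHermitian_conjTranspose_mul_self (mt x)).eigenvectorBasis with hv
  rw [← Matrix.trace_toLin_eq _ (EuclideanSpace.basisFun (Fin n) ℂ).toBasis, Matrix.toLin_pow,
    ← Matrix.toEuclideanLin_eq_toLin_orthonormal, LinearMap.trace_eq_sum_inner _ v]
  refine Finset.sum_congr rfl fun i _ => ?_
  have h1 : ∀ k : ℕ, (Matrix.toEuclideanLin ((mt x)ᴴ * mt x) ^ k) (v i) =
      ((eig x i : ℝ) : ℂ) ^ k • v i := by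
    intro k
    induction k with
    | zero => simp
    | succ k ihk =>
      rw [pow_succ', Module.End.mul_apply, ihk, map_smul, gram_eigen, smul_smul, pow_succ]
  rw [h1, inner_smul_right, inner_self_eq_norm_sq_to_K, v.orthonormal.1 i]
  simp

theorem spec_real (x : VN n) : (∀ k : ℕ, (ZZ x 0 ^ k).trace = ∑ i, ((eig x i : ℝ) : ℂ) ^ k) ∧
    (∀ i, 0 ≤ eig x i) ∧ ∑ i, eig x i = ‖x‖ ^ 2 := by
  refine ⟨fun k => ?_, eig_nonneg x, sum_eig x⟩
  rw [ZZ_zero, trace_gram_pow]

theorem sum_eq_of_pow {a b : Fin n → ℝ} (h : ∀ k : ℕ, ∑ i, a i ^ k = ∑ i, b i ^ k) (f : ℝ → ℝ) :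
    ∑ i, f (a i) = ∑ i, f (b i) := by
  classical
  let s : Finset ℝ := Finset.univ.image a ∪ Finset.univ.image b
  let P : Polynomial ℝ := Lagrange.interpolate s id f
  have hP : ∀ z ∈ s, P.eval z = f z := fun z hz =>
    Lagrange.eval_interpolate_at_node f (Set.injOn_id _) hz
  have ha : ∀ i, f (a i) = P.eval (a i) := fun i => (hP _ (Finset.mem_union_left _
    (Finset.mem_image_of_mem a (Finset.mem_univ i)))).symm
  have hb : ∀ i, f (b i) = P.eval (b i) := fun i => (hP _ (Finset.mem_union_right _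
    (Finset.mem_image_of_mem b (Finset.mem_univ i)))).symm
  simp only [ha, hb, Polynomial.eval_eq_sum_range]
  rw [Finset.sum_comm, Finset.sum_comm (s := Finset.univ)]
  refine Finset.sum_congr rfl fun k _ => ?_
  rw [← Finset.mul_sum, ← Finset.mul_sum, h]

/-- Scaling. -/
theorem eig_smul_sum (x : VN n) {l : ℝ} (hl : 0 ≤ l) (f : ℝ → ℝ) :
    ∑ i, f (eig (√l • x) i) = ∑ i, f (l * eig x i) := by
  refine sum_eq_of_pow (fun k => ?_) f
  have h1 : (mt (√l • x))ᴴ * mt (√l • x) = (l : ℂ) • ((mt x)ᴴ * mt x) := by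
    rw [mt_rsmul, Matrix.conjTranspose_smul, Matrix.smul_mul, Matrix.mul_smul, smul_smul,
      star_trivial, Real.mul_self_sqrt hl]
    ext i j
    simp
  have h2 : ((∑ i, eig (√l • x) i ^ k : ℝ) : ℂ) = ((∑ i, (l * eig x i) ^ k : ℝ) : ℂ) := by
    push_cast
    rw [← trace_gram_pow, h1, smul_pow, Matrix.trace_smul, trace_gram_pow, smul_eq_mul,
      Finset.mul_sum]
    refine Finset.sum_congr rfl fun i _ => ?_
    rw [mul_pow]
  exact Complex.ofReal_injective h2

theorem eigenvalues_congr {A B : Matrix (Fin n) (Fin n) ℂ} (h : A = B) (hA : A.IsHermitian)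
    (hB : B.IsHermitian) : hA.eigenvalues = hB.eigenvalues := by
  subst h
  rfl

theorem eig_phase (x : VN n) {c : ℂ} (hc : ‖c‖ = 1) (i : Fin n) : eig (c • x) i = eig x i := by
  refine congrFun (eigenvalues_congr ?_ _ _) i
  rw [mt_smul, Matrix.conjTranspose_smul, Matrix.smul_mul, Matrix.mul_smul, smul_smul,
    Complex.star_def, mul_comm, Complex.mul_conj, Complex.normSq_eq_norm_sq, hc]
  simp

theorem eig_zero (i : Fin n) : eig (0 : VN n) i = 0 := by
  have h1 := sum_eig (0 : VN n)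
  rw [norm_zero, zero_pow two_ne_zero] at h1
  exact (Finset.sum_eq_zero_iff_of_nonneg fun i _ => eig_nonneg _ i).mp h1 i (Finset.mem_univ i)

end Pool.Agent.S91X
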