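import Pool.Agent.S91X.Base

open MeasureTheory Metric Set Filter Topology Module
open scoped Matrix

namespace Pool.Agent.S91X

open Pool.Agent.S50X

variable {n : ℕ}

private theorem bd_abs {c : ℕ → ℝ} {M ρ : ℝ} (hc : ∀ k, |c k| ≤ M * ρ ^ k) (k : ℕ) :
    |c k| ≤ |M| * |ρ| ^ k :=
  (hc k).trans ((le_abs_self _).trans (by rw [abs_mul, abs_pow]))

private theorem term_le {c : ℕ → ℝ} {M ρ : ℝ} (hc : ∀ k, |c k| ≤ M * ρ ^ k) (k : ℕ) {w : ℂ}
    {T r : ℝ} (hw : ‖w‖ ≤ T * r ^ k) :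
    ‖(c k : ℂ) * w / (Nat.factorial k : ℂ)‖ ≤
      |M| * T * ((|ρ| * r) ^ k / (Nat.factorial k : ℝ)) := by
  rw [norm_div, norm_mul, Complex.norm_real, Complex.norm_natCast, Real.norm_eq_abs]
  have h1 : |c k| * ‖w‖ ≤ (|M| * |ρ| ^ k) * (T * r ^ k) :=
    mul_le_mul (bd_abs hc k) hw (norm_nonneg _) (by positivity)
  calc |c k| * ‖w‖ / (Nat.factorial k : ℝ)
      ≤ (|M| * |ρ| ^ k) * (T * r ^ k) / (Nat.factorial k : ℝ) := by gcongr
    _ = _ := by rw [mul_pow]; ring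

private theorem summable_bd (M' r : ℝ) :
    Summable fun k : ℕ => M' * (r ^ k / (Nat.factorial k : ℝ)) :=
  (Real.summable_pow_div_factorial r).mul_left _

theorem summable_sc {c : ℕ → ℝ} {M ρ : ℝ} (hc : ∀ k, |c k| ≤ M * ρ ^ k) (z : ℂ) :
    Summable fun k => (c k : ℂ) * z ^ k / (Nat.factorial k : ℂ) := by
  refine Summable.of_norm_bounded (summable_bd (|M| * 1) (|ρ| * ‖z‖)) fun k => ?_
  exact term_le hc k (by rw [norm_pow, one_mul])

theorem trs_eq {c : ℕ → ℝ} {M ρ : ℝ} (hc : ∀ k, |c k| ≤ M * ρ ^ k)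
    {A : Matrix (Fin n) (Fin n) ℂ} {d : Fin n → ℂ} (h : ∀ k : ℕ, (A ^ k).trace = ∑ i, d i ^ k) :
    trs c A = (∑ i, sc c (d i)) / n := by
  unfold trs sc
  rw [← Summable.tsum_finsetSum (fun i _ => summable_sc hc (d i)), ← tsum_div_const]
  refine tsum_congr fun k => ?_
  rw [h k, Finset.sum_div, Finset.mul_sum, Finset.sum_div, Finset.sum_div]
  refine Finset.sum_congr rfl fun i _ => ?_
  ring

private theorem norm_pow_entry_le {A : Matrix (Fin n) (Fin n) ℂ} {B : ℝ} (hB : 0 ≤ B)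
    (hA : ∀ i j, ‖A i j‖ ≤ B) (k : ℕ) (i j : Fin n) : ‖(A ^ k) i j‖ ≤ (n * B) ^ k := by
  induction k generalizing i j with
  | zero =>
    rw [pow_zero, pow_zero, Matrix.one_apply]
    split_ifs <;> simp
  | succ k ih =>
    rw [pow_succ, Matrix.mul_apply]
    calc ‖∑ l, (A ^ k) i l * A l j‖ ≤ ∑ l, ‖(A ^ k) i l * A l j‖ := norm_sum_le _ _
      _ ≤ ∑ _l : Fin n, (n * B) ^ k * B := by
          refine Finset.sum_le_sum fun l _ => ?_
          rw [norm_mul]
          exact mul_le_mul (ih i l) (hA l j) (norm_nonneg _) (by positivity)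
      _ = (n * B) ^ (k + 1) := by
          rw [Finset.sum_const, Finset.card_univ, Fintype.card_fin, nsmul_eq_mul, pow_succ]
          ring

private theorem norm_trace_le {A : Matrix (Fin n) (Fin n) ℂ} {B : ℝ} (hB : 0 ≤ B)
    (hA : ∀ i j, ‖A i j‖ ≤ B) (k : ℕ) : ‖(A ^ k).trace / n‖ ≤ 1 * (n * B) ^ k := by
  rcases Nat.eq_zero_or_pos n with h | h
  · subst h
    simp [Matrix.trace]
  · have hn : (0 : ℝ) < n := by exact_mod_cast h
    rw [norm_div, Complex.norm_natCast, div_le_iff₀ hn]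
    calc ‖(A ^ k).trace‖ ≤ ∑ i, ‖(A ^ k) i i‖ := norm_sum_le _ _
      _ ≤ ∑ _i : Fin n, (n * B) ^ k :=
          Finset.sum_le_sum fun i _ => norm_pow_entry_le hB hA k i i
      _ = 1 * (n * B) ^ k * n := by
          rw [Finset.sum_const, Finset.card_univ, Fintype.card_fin, nsmul_eq_mul]
          ring

private theorem trs_term_le {c : ℕ → ℝ} {M ρ : ℝ} (hc : ∀ k, |c k| ≤ M * ρ ^ k)
    {A : Matrix (Fin n) (Fin n) ℂ} {B : ℝ} (hB : 0 ≤ B) (hA : ∀ i j, ‖A i j‖ ≤ B) (k : ℕ) :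
    ‖(c k : ℂ) * ((A ^ k).trace / n) / (Nat.factorial k : ℂ)‖ ≤
      |M| * 1 * ((|ρ| * (n * B)) ^ k / (Nat.factorial k : ℝ)) :=
  term_le hc k (norm_trace_le hB hA k)

private theorem entry_le_sum (A : Matrix (Fin n) (Fin n) ℂ) (i j : Fin n) :
    ‖A i j‖ ≤ ∑ i, ∑ j, ‖A i j‖ :=
  (Finset.single_le_sum (f := fun j => ‖A i j‖) (fun _ _ => norm_nonneg _)
    (Finset.mem_univ j)).trans
    (Finset.single_le_sum (f := fun i => ∑ j, ‖A i j‖)
      (fun _ _ => Finset.sum_nonneg fun _ _ => norm_nonneg _) (Finset.mem_univ i))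

private theorem continuous_pow_entry {X : Type*} [TopologicalSpace X]
    {A : X → Matrix (Fin n) (Fin n) ℂ} (hA : ∀ i j, Continuous fun x => A x i j) (k : ℕ)
    (i j : Fin n) : Continuous fun x => (A x ^ k) i j := by
  induction k generalizing i j with
  | zero => simpa using continuous_const
  | succ k ih =>
    simp only [pow_succ, Matrix.mul_apply]
    exact continuous_finsetSum _ fun l _ => (ih i l).mul (hA l j)

private theorem differentiable_pow_entry {A : ℂ → Matrix (Fin n) (Fin n) ℂ}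
    (hA : ∀ i j, Differentiable ℂ fun x => A x i j) (k : ℕ)
    (i j : Fin n) : Differentiable ℂ fun x => (A x ^ k) i j := by
  induction k generalizing i j with
  | zero => simp
  | succ k ih =>
    simp only [pow_succ, Matrix.mul_apply]
    exact Differentiable.fun_sum fun l _ => (ih i l).mul (hA l j)

theorem continuous_trs_comp {c : ℕ → ℝ} {M ρ : ℝ} (hc : ∀ k, |c k| ≤ M * ρ ^ k)
    {X : Type*} [TopologicalSpace X] {A : X → Matrix (Fin n) (Fin n) ℂ}
    (hA : ∀ i j, Continuous fun x => A x i j) : Continuous fun x => trs c (A x) := by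
  rw [continuous_iff_continuousAt]
  intro x₀
  set B : ℝ := (∑ i, ∑ j, ‖A x₀ i j‖) + 1 with hBdef
  have hB : 0 ≤ B := by positivity
  have hS : Continuous fun x => ∑ i, ∑ j, ‖A x i j‖ :=
    continuous_finsetSum _ fun i _ => continuous_finsetSum _ fun j _ => (hA i j).norm
  have hU : {x | ∑ i, ∑ j, ‖A x i j‖ < B} ∈ 𝓝 x₀ :=
    (isOpen_lt hS continuous_const).mem_nhds (by simp [hBdef])
  refine ContinuousOn.continuousAt (s := {x | ∑ i, ∑ j, ‖A x i j‖ < B}) ?_ hU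
  unfold trs
  refine continuousOn_tsum (u := fun k => |M| * 1 * ((|ρ| * (n * B)) ^ k /
    (Nat.factorial k : ℝ))) (fun k => ?_) (summable_bd _ _) (fun k x hx => ?_)
  · refine Continuous.continuousOn ?_
    refine (continuous_const.mul (Continuous.div_const ?_ _)).div_const _
    exact continuous_finsetSum _ fun i _ => continuous_pow_entry hA k i i
  · exact trs_term_le hc hB (fun i j => (entry_le_sum (A x) i j).trans (le_of_lt hx)) k

theorem differentiable_trs_comp {c : ℕ → ℝ} {M ρ : ℝ} (hc : ∀ k, |c k| ≤ M * ρ ^ k)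
    {A : ℂ → Matrix (Fin n) (Fin n) ℂ} (hA : ∀ i j, Differentiable ℂ fun x => A x i j) :
    Differentiable ℂ fun x => trs c (A x) := by
  intro x₀
  set B : ℝ := (∑ i, ∑ j, ‖A x₀ i j‖) + 1 with hBdef
  have hB : 0 ≤ B := by positivity
  have hS : Continuous fun x => ∑ i, ∑ j, ‖A x i j‖ :=
    continuous_finsetSum _ fun i _ => continuous_finsetSum _ fun j _ =>
      (hA i j).continuous.norm
  have hO : IsOpen {x | ∑ i, ∑ j, ‖A x i j‖ < B} := isOpen_lt hS continuous_const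
  have hU : {x | ∑ i, ∑ j, ‖A x i j‖ < B} ∈ 𝓝 x₀ := hO.mem_nhds (by simp [hBdef])
  refine DifferentiableOn.differentiableAt (s := {x | ∑ i, ∑ j, ‖A x i j‖ < B}) ?_ hU
  unfold trs
  refine Complex.differentiableOn_tsum_of_summable_norm (u := fun k => |M| * 1 *
    ((|ρ| * (n * B)) ^ k / (Nat.factorial k : ℝ))) (summable_bd _ _) (fun k => ?_) hO
    (fun k x hx => ?_)
  · refine Differentiable.differentiableOn ?_
    refine ((differentiable_const _).mul (Differentiable.div_const ?_ _)).div_const _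
    exact Differentiable.fun_sum fun i _ => differentiable_pow_entry hA k i i
  · exact trs_term_le hc hB (fun i j => (entry_le_sum (A x) i j).trans (le_of_lt hx)) k

theorem ZZ_apply (x y : VN n) (i j : Fin n) : ZZ x y i j =
    ∑ l, ((starRingEnd ℂ) (x (l, i)) + Complex.I * (starRingEnd ℂ) (y (l, i))) *
      (x (l, j) + Complex.I * y (l, j)) := by
  simp [ZZ, mt, Matrix.mul_apply]

theorem continuous_trs_ZZ {c : ℕ → ℝ} {M ρ : ℝ} (hc : ∀ k, |c k| ≤ M * ρ ^ k) :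
    Continuous fun z : VN n × VN n => trs c (ZZ z.1 z.2) := by
  refine continuous_trs_comp hc fun i j => ?_
  simp only [ZZ_apply]
  refine continuous_finsetSum _ fun l _ => ?_
  fun_prop

theorem ZZ_line (x u : VN n) (ζ : ℂ) (i j : Fin n) :
    ZZ (x + (ζ.re : ℝ) • u) ((ζ.im : ℝ) • u) i j =
    ∑ l, ((starRingEnd ℂ) (x (l, i)) + ζ * (starRingEnd ℂ) (u (l, i))) *
      (x (l, j) + ζ * u (l, j)) := by
  rw [ZZ_apply]
  refine Finset.sum_congr rfl fun l _ => ?_
  have h1 : (starRingEnd ℂ) ((x + (ζ.re : ℝ) • u) (l, i)) +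
      Complex.I * (starRingEnd ℂ) (((ζ.im : ℝ) • u) (l, i)) =
      (starRingEnd ℂ) (x (l, i)) + ζ * (starRingEnd ℂ) (u (l, i)) := by
    have hz : ζ = (ζ.re : ℂ) + ζ.im * Complex.I := (Complex.re_add_im ζ).symm
    generalize ζ.re = a at hz ⊢
    generalize ζ.im = b at hz ⊢
    rw [hz]
    simp
    ring
  have h2 : (x + (ζ.re : ℝ) • u) (l, j) + Complex.I * ((ζ.im : ℝ) • u) (l, j) =
      x (l, j) + ζ * u (l, j) := by
    have hz : ζ = (ζ.re : ℂ) + ζ.im * Complex.I := (Complex.re_add_im ζ).symm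
    generalize ζ.re = a at hz ⊢
    generalize ζ.im = b at hz ⊢
    rw [hz]
    simp
    ring
  rw [h1, h2]

theorem differentiable_trs_ZZ {c : ℕ → ℝ} {M ρ : ℝ} (hc : ∀ k, |c k| ≤ M * ρ ^ k)
    (x u : VN n) :
    Differentiable ℂ fun ζ : ℂ => trs c (ZZ (x + (ζ.re : ℝ) • u) ((ζ.im : ℝ) • u)) := by
  refine differentiable_trs_comp hc (A := fun ζ : ℂ =>
    ZZ (x + (ζ.re : ℝ) • u) ((ζ.im : ℝ) • u)) fun i j => ?_
  simp only [ZZ_line]
  refine Differentiable.fun_sum fun l _ => ?_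
  fun_prop

theorem cE_bound (s : ℝ) (k : ℕ) : |cE s k| ≤ 1 * |s| ^ k := by
  rw [cE, abs_pow, abs_neg, one_mul]

theorem sc_cE (s : ℝ) (z : ℂ) : sc (cE s) z = Complex.exp (-(s * z)) := by
  rw [Complex.exp_eq_exp_ℂ, NormedSpace.exp_eq_tsum_div, sc]
  refine tsum_congr fun k => ?_
  rw [cE, ← mul_neg, ← neg_mul_comm, mul_pow]
  push_cast
  ring

theorem sc_ofReal (c : ℕ → ℝ) (y : ℝ) : (sc c (y : ℂ)).im = 0 := by
  have h : sc c (y : ℂ) = ((∑' k, c k * y ^ k / (Nat.factorial k : ℝ) : ℝ) : ℂ) := by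
    rw [Complex.ofReal_tsum, sc]
    refine tsum_congr fun k => ?_
    push_cast
    ring
  rw [h, Complex.ofReal_im]

end Pool.Agent.S91X
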