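import Pool.Agent.S91X.Base
import Pool.Agent.S91X.Schur
import Pool.Agent.S91X.Trs

open MeasureTheory Metric Set Filter Topology Module
open scoped Matrix

namespace Pool.Agent.S91X

open Pool.Agent.S50X

variable {n : ℕ}

theorem rpow_sum_le_sum_rpow {κ : Type*} (t : Finset κ) (h : κ → ℝ) (hh : ∀ i ∈ t, 0 ≤ h i)
    {a : ℝ} (ha0 : 0 < a) (ha1 : a ≤ 1) : (∑ i ∈ t, h i) ^ a ≤ ∑ i ∈ t, h i ^ a := by
  classical
  induction t using Finset.induction_on with
  | empty => simp [Real.zero_rpow ha0.ne']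
  | insert i t hi ih =>
    rw [Finset.sum_insert hi, Finset.sum_insert hi]
    have h1 : 0 ≤ h i := hh i (Finset.mem_insert_self i t)
    have h2 : 0 ≤ ∑ j ∈ t, h j :=
      Finset.sum_nonneg fun j hj => hh j (Finset.mem_insert_of_mem hj)
    exact (Real.rpow_add_le_add_rpow h1 h2 ha0.le ha1).trans
      (by linarith [ih fun j hj => hh j (Finset.mem_insert_of_mem hj)])

theorem integrable_exp_neg_rpow_norm (hn : 0 < n) {a c₀ : ℝ} (ha : 0 < a) (hc₀ : 0 < c₀) :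
    Integrable (fun x : VN n => Real.exp (-(c₀ * ‖x‖ ^ (2 * a)))) := by
  have : Nonempty (Fin n × Fin n) := ⟨(⟨0, hn⟩, ⟨0, hn⟩)⟩
  have : Nontrivial (VN n) := inferInstance
  have key := (integrable_fun_norm_addHaar (volume : Measure (VN n))
    (f := fun r : ℝ => Real.exp (-(c₀ * r ^ (2 * a))))).mpr ?_
  · exact key
  · set d : ℕ := Module.finrank ℝ (VN n) - 1 with hd
    have h1 := integral_rpow_mul_exp_neg_mul_rpow (p := 2 * a) (q := (d : ℝ)) (b := c₀)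
      (by positivity) (by have : (0 : ℝ) ≤ (d : ℝ) := Nat.cast_nonneg d; linarith) hc₀
    have h2 : IntegrableOn (fun x : ℝ => x ^ (d : ℝ) * Real.exp (-c₀ * x ^ (2 * a))) (Ioi 0) := by
      refine Integrable.of_integral_ne_zero ?_
      rw [h1]
      have h3 : 0 < Real.Gamma (((d : ℝ) + 1) / (2 * a)) := Real.Gamma_pos_of_pos (by positivity)
      positivity
    refine h2.congr_fun (fun x _ => ?_) measurableSet_Ioi
    simp only [Real.rpow_natCast, smul_eq_mul, neg_mul]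

theorem continuous_GG {a c₀ C₀ : ℝ} (ha : 0 < a) : Continuous (GG (n := n) a c₀ C₀) := by
  unfold GG
  have : Continuous fun x : VN n => ‖x‖ ^ (2 * a) :=
    continuous_norm.rpow_const fun _ => Or.inr (by positivity)
  fun_prop

theorem integrable_GG (hn : 0 < n) {a c₀ : ℝ} (C₀ : ℝ) (ha : 0 < a) (hc₀ : 0 < c₀) :
    Integrable (GG (n := n) a c₀ C₀) := by
  have h1 := (integrable_exp_neg_rpow_norm hn ha
    (c₀ := c₀ / n) (by positivity)).const_mul (Real.exp C₀)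
  refine h1.congr (Eventually.of_forall fun x => ?_)
  simp only [GG]
  rw [← Real.exp_add]
  ring_nf

theorem phi_eq_Phi {c : ℕ → ℝ} {M ρ : ℝ} (hc : ∀ k, |c k| ≤ M * ρ ^ k)
    {κ : Type} [Fintype κ] (s : κ → ℝ) (x : VN n) : Phi c s x 0 = (phi c s x : ℂ) := by
  obtain ⟨h1, -, -⟩ := spec_real x
  unfold Phi phi
  have h2 : trs c (ZZ x 0) = (((∑ i, (sc c (eig x i : ℂ)).re) / n : ℝ) : ℂ) := by
    rw [trs_eq hc h1]
    push_cast
    congr 1
    refine Finset.sum_congr rfl fun i _ => ?_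
    apply Complex.ext
    · simp
    · simp [sc_ofReal]
  have h3 : ∀ k, trs (cE (s k)) (ZZ x 0) = (tau (s k) (eig x) : ℂ) := by
    intro k
    rw [trs_eq (cE_bound (s k)) h1]
    unfold tau
    push_cast
    simp only [sc_cE]
  rw [h2, Finset.prod_congr rfl fun k _ => h3 k]
  push_cast
  rfl

theorem norm_trs_cE_le (hn : 0 < n) {s : ℝ} (hs : 0 ≤ s) (x y : VN n) (hy : ‖y‖ ≤ 1) :
    ‖trs (cE s) (ZZ x y)‖ ≤ Real.exp s := by
  obtain ⟨d, h, h1, h2, h3, -⟩ := spec_tube x y hy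
  rw [trs_eq (cE_bound s) h1, norm_div]
  have hn' : (0 : ℝ) < n := by exact_mod_cast hn
  have h4 : ‖∑ i, sc (cE s) (d i)‖ ≤ n * Real.exp s := by
    refine (norm_sum_le _ _).trans ?_
    have h5 : ∀ i ∈ (Finset.univ : Finset (Fin n)), ‖sc (cE s) (d i)‖ ≤ Real.exp s := by
      intro i _
      rw [sc_cE, Complex.norm_exp]
      refine Real.exp_le_exp.mpr ?_
      have h6 := h2 i
      have h7 := h3 i
      simp only [Complex.neg_re, Complex.mul_re, Complex.ofReal_re, Complex.ofReal_im, zero_mul,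
        sub_zero]
      nlinarith
    refine (Finset.sum_le_sum h5).trans ?_
    simp
  rw [Complex.norm_natCast, div_le_iff₀ hn']
  linarith

theorem norm_exp_trs_le (hn : 0 < n) {a c₀ C₀ M ρ : ℝ} (ha0 : 0 < a) (ha1 : a < 1) (hc₀ : 0 < c₀)
    {c : ℕ → ℝ} (hc : ∀ k, |c k| ≤ M * ρ ^ k)
    (hlow : ∀ (z : ℂ) (h : ℝ), 0 ≤ h → h - 1 ≤ z.re → c₀ * h ^ a - C₀ ≤ (sc c z).re)
    (x y : VN n) (hy : ‖y‖ ≤ 1) : ‖Complex.exp (-trs c (ZZ x y))‖ ≤ GG a c₀ C₀ x := by
  obtain ⟨d, h, h1, h2, h3, h4⟩ := spec_tube x y hy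
  have hn' : (0 : ℝ) < n := by exact_mod_cast hn
  rw [Complex.norm_exp, GG, trs_eq hc h1]
  refine Real.exp_le_exp.mpr ?_
  have h5 : (-((∑ i, sc c (d i)) / (n : ℂ))).re = -((∑ i, (sc c (d i)).re) / n) := by
    rw [Complex.neg_re]
    congr 1
    have : ((n : ℂ)) = ((n : ℝ) : ℂ) := by simp
    rw [this, Complex.div_ofReal_re, Complex.re_sum]
  rw [h5]
  have h6 : ∑ i, (c₀ * h i ^ a - C₀) ≤ ∑ i, (sc c (d i)).re :=
    Finset.sum_le_sum fun i _ => hlow (d i) (h i) (h2 i) (h3 i)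
  rw [Finset.sum_sub_distrib, ← Finset.mul_sum] at h6
  simp only [Finset.sum_const, Finset.card_univ, Fintype.card_fin, nsmul_eq_mul] at h6
  have h7 : ‖x‖ ^ (2 * a) ≤ ∑ i, h i ^ a := by
    have h8 := rpow_sum_le_sum_rpow Finset.univ h (fun i _ => h2 i) ha0 ha1.le
    rw [h4] at h8
    rwa [Real.rpow_mul (norm_nonneg x), Real.rpow_two]
  have h9 : c₀ * ‖x‖ ^ (2 * a) ≤ c₀ * ∑ i, h i ^ a := mul_le_mul_of_nonneg_left h7 hc₀.le
  have h10 : (c₀ * ‖x‖ ^ (2 * a) - n * C₀) / n ≤ (∑ i, (sc c (d i)).re) / n :=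
    div_le_div_of_nonneg_right (by linarith) hn'.le
  have h11 : (c₀ * ‖x‖ ^ (2 * a) - n * C₀) / n = c₀ / n * ‖x‖ ^ (2 * a) - C₀ := by
    field_simp
  linarith

theorem tube_phi (hn : 0 < n) {a c₀ C₀ M ρ : ℝ} (ha0 : 0 < a) (ha1 : a < 1) (hc₀ : 0 < c₀)
    {c : ℕ → ℝ} (hc : ∀ k, |c k| ≤ M * ρ ^ k)
    (hlow : ∀ (z : ℂ) (h : ℝ), 0 ≤ h → h - 1 ≤ z.re → c₀ * h ^ a - C₀ ≤ (sc c z).re)
    {κ : Type} [Fintype κ] (s : κ → ℝ) (hs : ∀ k, 0 ≤ s k) {S : ℝ} (hS : ∑ k, s k ≤ S) :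
    Tube (phi c s) (Phi c s) (GG (n := n) a c₀ (C₀ + S)) where
  zero x := phi_eq_Phi hc s x
  cont := by
    unfold Phi
    have h1 := continuous_trs_ZZ (n := n) hc
    have h2 : ∀ k, Continuous fun z : VN n × VN n => trs (cE (s k)) (ZZ z.1 z.2) :=
      fun k => continuous_trs_ZZ (cE_bound (s k))
    exact (Complex.continuous_exp.comp h1.neg).mul (continuous_finsetProd _ fun k _ => h2 k)
  hol x u := by
    unfold Phi
    have h1 := differentiable_trs_ZZ (n := n) hc x u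
    have h2 : ∀ k, Differentiable ℂ fun ζ : ℂ =>
        trs (cE (s k)) (ZZ (x + (ζ.re : ℝ) • u) ((ζ.im : ℝ) • u)) :=
      fun k => differentiable_trs_ZZ (cE_bound (s k)) x u
    exact h1.neg.cexp.mul (Differentiable.fun_finsetProd fun k _ => h2 k)
  bound x y hy := by
    unfold Phi
    rw [norm_mul, norm_prod]
    have h1 := norm_exp_trs_le hn ha0 ha1 hc₀ hc hlow x y hy
    have h2 : ∏ k, ‖trs (cE (s k)) (ZZ x y)‖ ≤ ∏ k, Real.exp (s k) :=
      Finset.prod_le_prod (fun _ _ => norm_nonneg _)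
        fun k _ => norm_trs_cE_le hn (hs k) x y hy
    rw [← Real.exp_sum] at h2
    have h3 : ∏ k, ‖trs (cE (s k)) (ZZ x y)‖ ≤ Real.exp S :=
      h2.trans (Real.exp_le_exp.mpr hS)
    calc _ ≤ GG a c₀ C₀ x * Real.exp S := by
          refine mul_le_mul h1 h3 (Finset.prod_nonneg fun _ _ => norm_nonneg _) ?_
          unfold GG
          positivity
      _ = GG a c₀ (C₀ + S) x := by
          unfold GG
          rw [← Real.exp_add]
          ring_nf
  int := integrable_GG hn _ ha0 hc₀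
  phase c' x hc' := by
    unfold phi
    have h1 : eig (c' • x) = eig x := funext fun i => eig_phase x hc' i
    rw [h1]

end Pool.Agent.S91X
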