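import Pool.Agent.S91X.TubeB

open MeasureTheory Metric Set Filter Topology Module
open scoped Pointwise ENNReal NNReal FourierTransform

namespace Pool.Agent.S91X

open Pool.Agent.S50X

variable {ι : Type} [Fintype ι]

/-- The integral of `|cos| ^ p`. -/
noncomputable def Ct (p : ℝ) : ℝ := ∫ θ in (0 : ℝ)..(2 * Real.pi), |Real.cos θ| ^ p

theorem continuous_cosp {p : ℝ} (hp : 0 < p) : Continuous fun θ : ℝ => |Real.cos θ| ^ p :=
  (Real.continuous_cos.abs).rpow_const fun _ => Or.inr hp.le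

theorem Ct_pos {p : ℝ} (hp : 0 < p) : 0 < Ct p := by
  unfold Ct
  refine intervalIntegral.integral_pos (by positivity) (continuous_cosp hp).continuousOn
    (fun θ _ => by positivity) ⟨0, ⟨le_rfl, by positivity⟩, by simp⟩

theorem integral_phase {p : ℝ} (z : ℂ) :
    ∫ θ in (0 : ℝ)..(2 * Real.pi), |(Complex.exp (θ * Complex.I) * z).re| ^ p =
      ‖z‖ ^ p * Ct p := by
  have h1 : ∀ θ : ℝ, |(Complex.exp (θ * Complex.I) * z).re| ^ p =
      ‖z‖ ^ p * |Real.cos (θ + z.arg)| ^ p := by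
    intro θ
    have h2 : (Complex.exp (θ * Complex.I) * z).re = ‖z‖ * Real.cos (θ + z.arg) := by
      conv_lhs => rw [← Complex.norm_mul_exp_arg_mul_I z]
      rw [mul_left_comm, ← Complex.exp_add, ← add_mul, ← Complex.ofReal_add,
        Complex.re_ofReal_mul, Complex.exp_ofReal_mul_I_re]
    rw [h2, abs_mul, abs_of_nonneg (norm_nonneg z), Real.mul_rpow (norm_nonneg _) (abs_nonneg _)]
  simp only [h1]
  rw [intervalIntegral.integral_const_mul]
  congr 1
  rw [intervalIntegral.integral_comp_add_right (fun θ => |Real.cos θ| ^ p)]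
  unfold Ct
  have hper : Function.Periodic (fun θ : ℝ => |Real.cos θ| ^ p) (2 * Real.pi) := by
    intro θ
    simp only [Real.cos_add_two_pi]
  have h3 := hper.intervalIntegral_add_eq (0 + z.arg) 0
  rw [zero_add (2 * Real.pi)] at h3
  rw [← h3]
  congr 1
  ring

section one

variable {φ : EC ι → ℝ} {Φ : EC ι → EC ι → ℂ} {G : EC ι → ℝ}

theorem Tube.integrable_kap_norm [Nonempty ι] (h : Tube φ Φ G) {p : ℝ} (hp : 0 < p) (x : EC ι) :
    Integrable (fun ξ => cosT φ ξ * ‖inner ℂ ξ x‖ ^ p) := by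
  refine (((h.integrable_kap_rpow hp.le).norm).const_mul (‖x‖ ^ p)).mono' ?_ ?_
  · have h1 : Continuous fun ξ : EC ι => ‖inner ℂ ξ x‖ := by fun_prop
    exact (h.continuous_kap.mul (h1.rpow_const fun _ => Or.inr hp.le)).aestronglyMeasurable
  · refine Eventually.of_forall fun ξ => ?_
    rw [norm_mul, norm_mul, Real.norm_of_nonneg (by positivity : 0 ≤ ‖inner ℂ ξ x‖ ^ p),
      Real.norm_of_nonneg (by positivity : 0 ≤ ‖ξ‖ ^ p)]
    have h2 : ‖inner ℂ ξ x‖ ^ p ≤ ‖x‖ ^ p * ‖ξ‖ ^ p := by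
      rw [← Real.mul_rpow (norm_nonneg _) (norm_nonneg _), mul_comm ‖x‖]
      exact Real.rpow_le_rpow (norm_nonneg _) (norm_inner_le_norm ξ x) hp.le
    calc ‖cosT φ ξ‖ * ‖inner ℂ ξ x‖ ^ p ≤ ‖cosT φ ξ‖ * (‖x‖ ^ p * ‖ξ‖ ^ p) :=
          mul_le_mul_of_nonneg_left h2 (norm_nonneg _)
      _ = _ := by ring

theorem Tube.phase_avg [Nonempty ι] (h : Tube φ Φ G) {p : ℝ} (hp : 0 < p) (x : EC ι) :
    2 * Real.pi * ∫ ξ, cosT φ ξ * |(inner ℝ x ξ : ℝ)| ^ p =
      Ct p * ∫ ξ, cosT φ ξ * ‖inner ℂ ξ x‖ ^ p := by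
  have h1 : ∀ θ : ℝ, ∫ ξ, cosT φ ξ * |(inner ℝ x ξ : ℝ)| ^ p =
      ∫ ξ, cosT φ ξ * |(Complex.exp (θ * Complex.I) * inner ℂ x ξ).re| ^ p := by
    intro θ
    have hc : ‖Complex.exp (θ * Complex.I)‖ = 1 := Complex.norm_exp_ofReal_mul_I θ
    rw [← integral_rot _ hc]
    refine integral_congr_ae (Eventually.of_forall fun ξ => ?_)
    simp only [h.kap_phase _ hc]
    rw [inner_re, inner_smul_right]
  have h2 : 2 * Real.pi * ∫ ξ, cosT φ ξ * |(inner ℝ x ξ : ℝ)| ^ p =
      ∫ θ in (0 : ℝ)..(2 * Real.pi),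
        ∫ ξ, cosT φ ξ * |(Complex.exp (θ * Complex.I) * inner ℂ x ξ).re| ^ p := by
    simp only [← h1]
    simp
  have hcz : Continuous fun q : ℝ × EC ι =>
      cosT φ q.2 * |(Complex.exp (q.1 * Complex.I) * inner ℂ x q.2).re| ^ p := by
    have e1 : Continuous fun q : ℝ × EC ι =>
        |(Complex.exp (q.1 * Complex.I) * inner ℂ x q.2).re| := by fun_prop
    have e2 := e1.rpow_const (p := p) fun _ => Or.inr hp.le
    have e3 := h.continuous_kap
    exact (e3.comp continuous_snd).mul e2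
  have hint : Integrable (fun q : ℝ × EC ι =>
      cosT φ q.2 * |(Complex.exp (q.1 * Complex.I) * inner ℂ x q.2).re| ^ p)
      ((volume.restrict (Ioc (0 : ℝ) (2 * Real.pi))).prod volume) := by
    have e4 : Integrable (fun q : ℝ × EC ι => ‖cosT φ q.2 * ‖inner ℂ q.2 x‖ ^ p‖)
        ((volume.restrict (Ioc (0 : ℝ) (2 * Real.pi))).prod volume) :=
      (h.integrable_kap_norm hp x).norm.comp_snd _
    refine e4.mono' hcz.aestronglyMeasurable (Eventually.of_forall fun q => ?_)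
    rw [norm_mul, norm_mul]
    refine mul_le_mul_of_nonneg_left ?_ (norm_nonneg _)
    rw [Real.norm_of_nonneg (by positivity), Real.norm_of_nonneg (by positivity)]
    refine Real.rpow_le_rpow (abs_nonneg _) ?_ hp.le
    refine (Complex.abs_re_le_norm _).trans ?_
    rw [norm_mul, Complex.norm_exp_ofReal_mul_I, one_mul, ← inner_conj_symm, RCLike.norm_conj]
  rw [h2, intervalIntegral.integral_of_le (by positivity), integral_integral_swap hint,
    ← integral_const_mul]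
  refine integral_congr_ae (Eventually.of_forall fun ξ => ?_)
  simp only
  rw [integral_const_mul, ← intervalIntegral.integral_of_le (by positivity), integral_phase,
    ← inner_conj_symm, RCLike.norm_conj]
  ring

end one

/-- Polar coordinates for the Bochner integral. -/
theorem integral_polar [Nonempty ι] (F : EC ι → ℝ) (hF : Integrable F) :
    ∫ x, F x = ∫ u : Sph ι, (∫ r in Ioi (0 : ℝ),
      r ^ (finrank ℝ (EC ι) - 1) * F (r • (u : EC ι))) ∂(sph ι) := by
  have hmp := (volume : Measure (EC ι)).measurePreserving_homeomorphUnitSphereProd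
  have hemb := (homeomorphUnitSphereProd (EC ι)).measurableEmbedding
  set g : Sph ι × Ioi (0 : ℝ) → ℝ := fun y => F ((y.2 : ℝ) • (y.1 : EC ι)) with hg
  have hgF : ∀ x : ({0}ᶜ : Set (EC ι)), g (homeomorphUnitSphereProd (EC ι) x) = F x := by
    intro x
    have h := congrArg Subtype.val ((homeomorphUnitSphereProd (EC ι)).symm_apply_apply x)
    rw [homeomorphUnitSphereProd_symm_apply_coe] at h
    simp only [hg]
    rw [h]
  have hgi : Integrable g ((sph ι).prod (Measure.volumeIoiPow (finrank ℝ (EC ι) - 1))) := by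
    unfold sph
    rw [← hmp.integrable_comp_emb hemb]
    have e1 : (g ∘ homeomorphUnitSphereProd (EC ι)) =
        fun x : ({0}ᶜ : Set (EC ι)) => F (x : EC ι) := funext hgF
    rw [e1]
    have e2 := (integrableOn_iff_comap_subtypeVal (s := ({0}ᶜ : Set (EC ι)))
      (measurableSet_singleton _).compl (f := F) (μ := volume)).1 hF.integrableOn
    exact e2
  calc
    ∫ x, F x = ∫ x in ({0}ᶜ : Set (EC ι)), F x := by rw [restrict_compl_singleton]
    _ = ∫ x : ({0}ᶜ : Set (EC ι)), F x ∂((volume : Measure (EC ι)).comap (↑)) := by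
      rw [integral_subtype_comap (measurableSet_singleton _).compl]
    _ = ∫ y, g y ∂((sph ι).prod (Measure.volumeIoiPow (finrank ℝ (EC ι) - 1))) := by
      unfold sph
      rw [← hmp.integral_comp hemb]
      exact integral_congr_ae (Eventually.of_forall fun x => (hgF x).symm)
    _ = ∫ u : Sph ι, (∫ r : Ioi (0 : ℝ), F ((r : ℝ) • (u : EC ι))
        ∂(Measure.volumeIoiPow (finrank ℝ (EC ι) - 1))) ∂(sph ι) := integral_prod g hgi
    _ = _ := by
      refine integral_congr_ae (Eventually.of_forall fun u => ?_)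
      simp only [Measure.volumeIoiPow, ENNReal.ofReal]
      rw [integral_withDensity_eq_integral_smul,
        integral_subtype_comap measurableSet_Ioi
          (fun a : ℝ => Real.toNNReal (a ^ (finrank ℝ (EC ι) - 1)) • F (a • (u : EC ι))),
        setIntegral_congr_fun measurableSet_Ioi fun x hx ↦ ?_]
      · rw [NNReal.smul_def, Real.coe_toNNReal _ (pow_nonneg hx.out.le _), smul_eq_mul]
      · exact (measurable_subtype_coe.pow_const _).real_toNNReal

/-- The constant of the density. -/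
noncomputable def dc (p : ℝ) : ℝ :=
  if p < 2 then (p / 2) / Real.Gamma (1 - p / 2) * (Cb p * (Ct p / (2 * Real.pi))) else 1

theorem dc_pos {p : ℝ} (hp : 0 < p) : 0 < dc p := by
  unfold dc
  split_ifs with h
  · have h1 : 0 < Real.Gamma (1 - p / 2) := Real.Gamma_pos_of_pos (by linarith)
    have h2 := Cb_pos hp h
    have h3 := Ct_pos hp
    positivity
  · exact one_pos

/-- The radial integral of the transform. -/
noncomputable def rd (p : ℝ) (φ : EC ι → ℝ) (u : Sph ι) : ℝ :=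
  ∫ r in Ioi (0 : ℝ), r ^ (finrank ℝ (EC ι) - 1) * (r ^ p * cosT φ (r • (u : EC ι)))

open Classical in
/-- The density. -/
noncomputable def Tdens (p : ℝ) (φ : EC ι → ℝ) : C(Sph ι, ℝ) :=
  if h : Continuous (rd p φ) then dc p • ⟨rd p φ, h⟩ else 0

theorem continuousAt_rd {Ω : Type*} [TopologicalSpace Ω] [FirstCountableTopology Ω]
    {φ : Ω → EC ι → ℝ} {ω₀ : Ω} {G : EC ι → ℝ} {p : ℝ} (hp : 0 < p)
    (hc : ∀ x, ContinuousAt (fun ω => φ ω x) ω₀)
    (hT : ∀ᶠ ω in 𝓝 ω₀, ∃ Φ, Tube (φ ω) Φ G) (u₀ : Sph ι) :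
    ContinuousAt (fun q : Ω × Sph ι => rd p (φ q.1) q.2) (ω₀, u₀) := by
  have hT' : ∀ᶠ q : Ω × Sph ι in 𝓝 (ω₀, u₀), ∃ Φ, Tube (φ q.1) Φ G := hT.prod_inl_nhds _
  unfold rd
  refine continuousAt_of_dominated (bound := fun r => (∫ x, G x) *
    (r ^ (finrank ℝ (EC ι) - 1) * (r ^ p * Real.exp (-(2 * Real.pi * r))))) ?_ ?_
    ((integrableOn_radial (ι := ι) hp.le).const_mul _) ?_
  · filter_upwards [hT'] with q hq
    obtain ⟨Φ, h⟩ := hq
    have h1 : Continuous fun r : ℝ => cosT (φ q.1) (r • (q.2 : EC ι)) :=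
      h.continuous_kap.comp (by fun_prop)
    have h2 : Measurable fun r : ℝ =>
        r ^ (finrank ℝ (EC ι) - 1) * (r ^ p * cosT (φ q.1) (r • (q.2 : EC ι))) := by
      have := h1.measurable
      fun_prop
    exact h2.aestronglyMeasurable
  · filter_upwards [hT'] with q hq
    obtain ⟨Φ, h⟩ := hq
    refine (ae_restrict_iff' measurableSet_Ioi).2 (Eventually.of_forall fun r hr => ?_)
    have hr0 : 0 < r := hr
    have hn : ‖r • (q.2 : EC ι)‖ = r := by
      rw [norm_smul, Real.norm_of_nonneg hr0.le]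
      simp
    have h1 := h.kap_le (r • (q.2 : EC ι))
    rw [hn] at h1
    rw [norm_mul, norm_mul, Real.norm_of_nonneg (by positivity : 0 ≤ r ^ (finrank ℝ (EC ι) - 1)),
      Real.norm_of_nonneg (by positivity : 0 ≤ r ^ p), Real.norm_eq_abs]
    calc r ^ (finrank ℝ (EC ι) - 1) * (r ^ p * |cosT (φ q.1) (r • (q.2 : EC ι))|)
        ≤ r ^ (finrank ℝ (EC ι) - 1) * (r ^ p * (Real.exp (-(2 * Real.pi * r)) * ∫ x, G x)) := by
          gcongr
      _ = _ := by ring
  · refine (ae_restrict_iff' measurableSet_Ioi).2 (Eventually.of_forall fun r hr => ?_)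
    have h1 := continuousAt_cosT hc hT (r • (u₀ : EC ι))
    have h2 : ContinuousAt (fun q : Ω × Sph ι => cosT (φ q.1) (r • (q.2 : EC ι))) (ω₀, u₀) :=
      ContinuousAt.comp (g := fun q : Ω × EC ι => cosT (φ q.1) q.2)
        (f := fun q : Ω × Sph ι => (q.1, r • (q.2 : EC ι))) (x := (ω₀, u₀)) h1 (by fun_prop)
    exact continuousAt_const.mul (continuousAt_const.mul h2)

section two

variable {φ : EC ι → ℝ} {Φ : EC ι → EC ι → ℂ} {G : EC ι → ℝ}

theorem Tube.continuous_rd (h : Tube φ Φ G) {p : ℝ} (hp : 0 < p) : Continuous (rd p φ) := by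
  rw [continuous_iff_continuousAt]
  intro u
  have h1 := continuousAt_rd (Ω := Unit) (φ := fun _ => φ) (ω₀ := ()) (G := G) hp
    (fun x => continuousAt_const) (Eventually.of_forall fun _ => ⟨Φ, h⟩) u
  exact ContinuousAt.comp (g := fun q : Unit × Sph ι => rd p φ q.2)
    (f := fun u : Sph ι => ((), u)) (x := u) h1 (by fun_prop)

theorem Tube.Tdens_apply (h : Tube φ Φ G) {p : ℝ} (hp : 0 < p) (u : Sph ι) :
    Tdens p φ u = dc p * rd p φ u := by
  unfold Tdens
  rw [dif_pos (h.continuous_rd hp)]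
  rfl

end two

theorem Tdens_spec [Nonempty ι] {p : ℝ} (hp : 0 < p) (hp2 : p < 2)
    {φ : EC ι → ℝ} {Φ : EC ι → EC ι → ℂ} {G : EC ι → ℝ} (h : Tube φ Φ G) (x : EC ι) :
    IntegrableOn (fun l : ℝ => (φ 0 - φ (√l • x)) * l ^ (-1 - p / 2)) (Ioi 0) ∧
      Lam p φ x = ker p (Tdens p φ) x := by
  obtain ⟨h1, h2⟩ := h.levy hp hp2 x
  refine ⟨h1, ?_⟩
  unfold Lam S50X.ker
  rw [h2]
  simp only [h.Tdens_apply hp]
  have h3 := h.phase_avg hp x
  have h4 : ∫ ξ, cosT φ ξ * |(inner ℝ x ξ : ℝ)| ^ p =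
      Ct p / (2 * Real.pi) * ∫ ξ, cosT φ ξ * ‖inner ℂ ξ x‖ ^ p := by
    have := Real.pi_pos
    field_simp
    linarith
  have h5 : ∫ ξ, cosT φ ξ * ‖inner ℂ ξ x‖ ^ p =
      ∫ u : Sph ι, ‖inner ℂ (u : EC ι) x‖ ^ p * rd p φ u ∂(sph ι) := by
    rw [integral_polar _ (h.integrable_kap_norm hp x)]
    refine integral_congr_ae (Eventually.of_forall fun u => ?_)
    simp only [rd]
    rw [← integral_const_mul]
    refine setIntegral_congr_fun measurableSet_Ioi fun r hr => ?_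
    have hr0 : 0 < r := hr
    have e2 : ‖inner ℂ (r • (u : EC ι)) x‖ = r * ‖inner ℂ (u : EC ι) x‖ := by
      rw [show r • (u : EC ι) = (r : ℂ) • (u : EC ι) from (Complex.coe_smul r _).symm,
        inner_smul_left, norm_mul]
      simp [abs_of_pos hr0]
    simp only [e2]
    rw [Real.mul_rpow hr0.le (norm_nonneg _)]
    ring
  rw [h4, h5]
  have h6 : dc p = (p / 2) / Real.Gamma (1 - p / 2) * (Cb p * (Ct p / (2 * Real.pi))) := by
    unfold dc
    rw [if_pos hp2]
  have h7 : ∀ u : Sph ι, ‖inner ℂ (u : EC ι) x‖ ^ p * (dc p * rd p φ u) =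
      dc p * (‖inner ℂ (u : EC ι) x‖ ^ p * rd p φ u) := fun u => by ring
  simp only [h7]
  rw [integral_const_mul, h6]
  ring

theorem Tdens_cinv [Nonempty ι] {p : ℝ} (hp : 0 < p)
    {φ : EC ι → ℝ} {Φ : EC ι → EC ι → ℂ} {G : EC ι → ℝ} (h : Tube φ Φ G) :
    CInv (Tdens p φ) := by
  intro c u v hc huv
  rw [h.Tdens_apply hp, h.Tdens_apply hp]
  congr 1
  unfold rd
  refine integral_congr_ae (Eventually.of_forall fun r => ?_)
  simp only
  rw [huv, smul_comm, h.kap_phase c hc]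

theorem Tdens_continuous [Nonempty ι] {p : ℝ} (hp : 0 < p)
    {Ω : Type*} [TopologicalSpace Ω] [FirstCountableTopology Ω] (φ : Ω → EC ι → ℝ)
    (hc : ∀ x, Continuous fun ω => φ ω x)
    (hT : ∀ ω₀, ∃ G, ∀ᶠ ω in 𝓝 ω₀, ∃ Φ, Tube (φ ω) Φ G) :
    Continuous fun ω => Tdens p (φ ω) := by
  refine ContinuousMap.continuous_of_continuous_uncurry _ ?_
  have h1 : (Function.uncurry fun (ω : Ω) (u : Sph ι) => Tdens p (φ ω) u) =
      fun q : Ω × Sph ι => dc p * rd p (φ q.1) q.2 := by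
    funext ⟨ω, u⟩
    obtain ⟨G, hG⟩ := hT ω
    obtain ⟨Φ, h⟩ := hG.self_of_nhds
    exact h.Tdens_apply hp u
  rw [h1]
  refine continuous_const.mul ?_
  rw [continuous_iff_continuousAt]
  rintro ⟨ω, u⟩
  obtain ⟨G, hG⟩ := hT ω
  exact continuousAt_rd hp (fun x => (hc x).continuousAt) hG u

/-! ### The Gaussian -/

theorem cosT_gauss {m : ℝ} (hm : 0 < m) (ξ : EC ι) :
    cosT (fun x : EC ι => Real.exp (-(m * ‖x‖ ^ 2))) ξ =
      (Real.pi / m) ^ (Fintype.card ι) * Real.exp (-(Real.pi ^ 2 * ‖ξ‖ ^ 2 / m)) := by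
  have h1 := fourier_gaussian_innerProductSpace (V := EC ι) (b := (m : ℂ)) (by simpa using hm) ξ
  rw [Real.fourier_eq'] at h1
  set f : EC ι → ℂ := fun v => Complex.exp (((-2 * Real.pi * inner ℝ v ξ : ℝ) : ℂ) * Complex.I) •
    Complex.exp (-(m : ℂ) * ‖v‖ ^ 2) with hf
  have hfi : Integrable f := by
    have e1 : Integrable (fun v : EC ι => Real.exp (-m * ‖v‖ ^ 2)) := by
      have := GaussianFourier.integrable_cexp_neg_mul_sq_norm_add (V := EC ι) (b := (m : ℂ))
        (by simpa using hm) 0 0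
      have e2 := this.norm
      refine e2.congr (Eventually.of_forall fun v => ?_)
      simp only [Complex.norm_exp]
      congr 1
      simp [← Complex.ofReal_pow]
    refine e1.mono' (Continuous.aestronglyMeasurable (by fun_prop))
      (Eventually.of_forall fun v => ?_)
    simp only [hf]
    rw [norm_smul, Complex.norm_exp_ofReal_mul_I, one_mul, Complex.norm_exp]
    apply le_of_eq
    congr 1
    simp [← Complex.ofReal_pow]
  have h2 := integral_re hfi
  simp only [RCLike.re_to_complex] at h2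
  rw [h1] at h2
  unfold cosT
  have h3 : ∀ v : EC ι, (f v).re = Real.exp (-(m * ‖v‖ ^ 2)) *
      Real.cos (2 * Real.pi * inner ℝ v ξ) := by
    intro v
    simp only [hf, smul_eq_mul]
    have e3 : Complex.exp (-(m : ℂ) * ‖v‖ ^ 2) = ((Real.exp (-(m * ‖v‖ ^ 2)) : ℝ) : ℂ) := by
      push_cast
      congr 1
      ring
    rw [e3, Complex.re_mul_ofReal, Complex.exp_ofReal_mul_I_re, mul_comm]
    congr 1
    rw [show (-2 * Real.pi * inner ℝ v ξ : ℝ) = -(2 * Real.pi * inner ℝ v ξ) by ring, Real.cos_neg]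
  simp only [h3] at h2
  rw [h2]
  have h4 : ((Real.pi : ℂ) / (m : ℂ)) ^ ((finrank ℝ (EC ι) : ℂ) / 2) *
      Complex.exp (-(Real.pi : ℂ) ^ 2 * ‖ξ‖ ^ 2 / m) =
      (((Real.pi / m) ^ (Fintype.card ι) * Real.exp (-(Real.pi ^ 2 * ‖ξ‖ ^ 2 / m)) : ℝ) : ℂ) := by
    rw [finrank_EC]
    have e5 : (((2 * Fintype.card ι : ℕ) : ℂ)) / 2 = ((Fintype.card ι : ℕ) : ℂ) := by
      push_cast
      ring
    rw [e5, Complex.cpow_natCast]
    push_cast
    congr 2
    ring
  rw [h4, Complex.ofReal_re]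

theorem Tdens_gauss [Nonempty ι] {p m : ℝ} (hp : 0 < p) (hm : 0 < m) :
    ∃ c, 0 < c ∧ ∀ u, Tdens p (fun x : EC ι => Real.exp (-(m * ‖x‖ ^ 2))) u = c := by
  set φ : EC ι → ℝ := fun x => Real.exp (-(m * ‖x‖ ^ 2)) with hφ
  set R : ℝ → ℝ := fun r => r ^ (finrank ℝ (EC ι) - 1) * (r ^ p *
    ((Real.pi / m) ^ (Fintype.card ι) * Real.exp (-(Real.pi ^ 2 * r ^ 2 / m)))) with hR
  have h1 : ∀ u : Sph ι, rd p φ u = ∫ r in Ioi (0 : ℝ), R r := by
    intro u
    unfold rd
    refine setIntegral_congr_fun measurableSet_Ioi fun r hr => ?_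
    have hr0 : 0 < r := hr
    have hn : ‖r • (u : EC ι)‖ = r := by
      rw [norm_smul, Real.norm_of_nonneg hr0.le]
      simp
    simp only [hφ, hR]
    rw [cosT_gauss hm, hn]
  have h2 : rd p φ = fun _ => ∫ r in Ioi (0 : ℝ), R r := funext h1
  have h3 : Continuous (rd p φ) := by
    rw [h2]
    exact continuous_const
  refine ⟨dc p * ∫ r in Ioi (0 : ℝ), R r, mul_pos (dc_pos hp) ?_, fun u => ?_⟩
  · have hRi : IntegrableOn R (Ioi 0) := by
      have e1 : IntegrableOn (fun r : ℝ => r ^ (((finrank ℝ (EC ι) - 1 : ℕ) : ℝ) + p) *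
          Real.exp (-(Real.pi ^ 2 / m) * r ^ (2 : ℝ))) (Ioi 0) := by
        refine integrableOn_rpow_mul_exp_neg_mul_rpow ?_ (by norm_num) (by positivity)
        have : (0 : ℝ) ≤ ((finrank ℝ (EC ι) - 1 : ℕ) : ℝ) := Nat.cast_nonneg _
        linarith
      have e2 : IntegrableOn (fun r : ℝ => (Real.pi / m) ^ (Fintype.card ι) *
          (r ^ (((finrank ℝ (EC ι) - 1 : ℕ) : ℝ) + p) *
          Real.exp (-(Real.pi ^ 2 / m) * r ^ (2 : ℝ)))) (Ioi 0) := e1.const_mul _
      refine e2.congr_fun (fun r hr => ?_) measurableSet_Ioi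
      have hr0 : (0 : ℝ) < r := hr
      simp only [hR]
      rw [Real.rpow_add hr0, Real.rpow_natCast, Real.rpow_two]
      have e3 : -(Real.pi ^ 2 / m) * r ^ 2 = -(Real.pi ^ 2 * r ^ 2 / m) := by ring
      rw [e3]
      ring
    have hnn : ∀ r ∈ Ioi (0 : ℝ), 0 < R r := by
      intro r hr
      have hr0 : (0 : ℝ) < r := hr
      simp only [hR]
      positivity
    rw [setIntegral_pos_iff_support_of_nonneg_ae
      ((ae_restrict_iff' measurableSet_Ioi).2 (Eventually.of_forall fun r hr => (hnn r hr).le)) hRi]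
    have hsub : Ioo (0 : ℝ) 1 ⊆ (Function.support R) ∩ Ioi 0 := fun r hr =>
      ⟨(hnn r hr.1).ne', hr.1⟩
    refine lt_of_lt_of_le ?_ (measure_mono hsub)
    simp
  · unfold Tdens
    rw [dif_pos h3]
    show dc p * rd p φ u = _
    rw [h1]

end Pool.Agent.S91X
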