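import Pool.Agent.S91X.Lexp
import Pool.Agent.S91X.Fam
import Pool.Agent.S91X.Tlemma

open MeasureTheory Metric Set Filter Topology Module
open scoped Matrix

namespace Pool.Agent.S91X

open Pool.Agent.S50X

variable {n : ℕ}

/-- The parameter set: `(η, δ)` in the unit square and nonnegative jumps. -/
def PS (K : ℕ) : Set ((ℝ × ℝ) × (Fin K → ℝ)) :=
  (Icc (0 : ℝ) 1 ×ˢ Icc (0 : ℝ) 1) ×ˢ {s | ∀ k, 0 ≤ s k}

theorem exists_tube_cL (hn : 0 < n) {a : ℝ} (ha0 : 0 < a) (ha1 : a < 1) :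
    ∃ c₀ > 0, ∃ C₀ : ℝ, ∀ {K : ℕ} (w : (ℝ × ℝ) × (Fin K → ℝ)) (_ : w ∈ PS K) {S : ℝ}
      (_ : ∑ k, w.2 k ≤ S), Tube (phi (cL a w.1.1 w.1.2) w.2) (Phi (cL a w.1.1 w.1.2) w.2)
        (GG (n := n) a c₀ (C₀ + S)) := by
  obtain ⟨c₀, hc₀, C₀, h⟩ := sc_lower ha0 ha1
  refine ⟨c₀, hc₀, C₀, fun {K} w hw {S} hS => ?_⟩
  exact tube_phi hn ha0 ha1 hc₀ (cL_bound ha0 ha1 hw.1.1 hw.1.2)
    (fun z h' h1 h2 => h _ hw.1.1 _ hw.1.2 z h' h1 h2) w.2 hw.2 hS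

theorem continuous_phi_cL {a : ℝ} (ha0 : 0 < a) (ha1 : a < 1) {K : ℕ} (x : VN n) :
    ContinuousOn (fun w : (ℝ × ℝ) × (Fin K → ℝ) => phi (cL a w.1.1 w.1.2) w.2 x) (PS K) := by
  unfold phi
  have h1 : ∀ i, ContinuousOn (fun w : (ℝ × ℝ) × (Fin K → ℝ) =>
      (sc (cL a w.1.1 w.1.2) (eig x i : ℂ)).re) (PS K) := by
    intro i
    have h2 : ContinuousOn (fun w : (ℝ × ℝ) × (Fin K → ℝ) =>
        sc (cL a w.1.1 w.1.2) (eig x i : ℂ)) (PS K) :=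
      (continuous_sc_cL ha0 ha1 (eig x i : ℂ)).comp continuous_fst.continuousOn
        fun w hw => hw.1
    exact Complex.continuous_re.comp_continuousOn h2
  have h3 : ∀ k : Fin K, ContinuousOn (fun w : (ℝ × ℝ) × (Fin K → ℝ) => tau (w.2 k) (eig x))
      (PS K) := by
    intro k
    unfold tau
    have : Continuous fun w : (ℝ × ℝ) × (Fin K → ℝ) =>
        (∑ i, Real.exp (-(w.2 k * eig x i))) / (n : ℝ) := by fun_prop
    exact this.continuousOn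
  refine ContinuousOn.mul ?_ (continuousOn_finsetProd _ fun k _ => h3 k)
  exact Real.continuous_exp.comp_continuousOn
    ((continuousOn_finsetSum _ fun i _ => h1 i).div_const _).neg

theorem continuousOn_Tdens_phi (hn : 0 < n) {a p : ℝ} (ha0 : 0 < a) (ha1 : a < 1) (hp : 0 < p)
    {K : ℕ} : ContinuousOn (fun w : (ℝ × ℝ) × (Fin K → ℝ) =>
      Tdens p (phi (n := n) (cL a w.1.1 w.1.2) w.2)) (PS K) := by
  have : Nonempty (Fin n × Fin n) := ⟨(⟨0, hn⟩, ⟨0, hn⟩)⟩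
  rw [continuousOn_iff_continuous_domRestrict]
  obtain ⟨c₀, hc₀, C₀, hT⟩ := exists_tube_cL hn ha0 ha1
  refine Tdens_continuous hp (fun w : PS K => phi (n := n) (cL a w.1.1.1 w.1.1.2) w.1.2)
    (fun x => ?_) fun w₀ => ?_
  · exact continuousOn_iff_continuous_domRestrict.mp (continuous_phi_cL ha0 ha1 x)
  · refine ⟨GG a c₀ (C₀ + (∑ k, w₀.1.2 k + 1)), ?_⟩
    have hcont : Continuous fun w : PS K => ∑ k, w.1.2 k := by fun_prop
    have hev : ∀ᶠ w : PS K in 𝓝 w₀, ∑ k, w.1.2 k < ∑ k, w₀.1.2 k + 1 :=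
      hcont.continuousAt.eventually_lt continuousAt_const (by linarith)
    filter_upwards [hev] with w hw
    exact ⟨_, hT w.1 w.2 hw.le⟩

theorem phi_cL_zero {a : ℝ} {δ : ℝ} (x : VN n) (s : Fin 0 → ℝ) :
    phi (cL a 0 δ) s x = Real.exp (-(1 / ((1 - a) * n) * ‖x‖ ^ 2)) := by
  unfold phi
  simp only [Finset.univ_eq_empty, Finset.prod_empty, mul_one]
  congr 1
  have h1 : ∀ i, (sc (cL a 0 δ) (eig x i : ℂ)).re = eig x i / (1 - a) := by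
    intro i
    rw [sc_cL_zero, ← Complex.ofReal_div, Complex.ofReal_re]
  simp only [h1]
  rw [← Finset.sum_div, (spec_real x).2.2]
  congr 1
  rw [div_div, one_div_mul_eq_div]

theorem exists_bath (hn : 0 < n) {a p : ℝ} (ha0 : 0 < a) (ha1 : a < 1) (hp : 0 < p)
    (s : Fin 0 → ℝ) : ∃ η : ℝ, 0 < η ∧ η ≤ 1 ∧
      ∀ u, 0 < Tdens p (phi (n := n) (cL a η 0) s) u := by
  have : Nonempty (Fin n × Fin n) := ⟨(⟨0, hn⟩, ⟨0, hn⟩)⟩
  have hn' : (0 : ℝ) < n := by exact_mod_cast hn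
  have ha1' : 0 < 1 - a := by linarith
  obtain ⟨c, hc, hg⟩ := Tdens_gauss (ι := Fin n × Fin n) (p := p) (m := 1 / ((1 - a) * n)) hp
    (by positivity)
  have h0 : (fun x : VN n => Real.exp (-(1 / ((1 - a) * n) * ‖x‖ ^ 2))) =
      phi (n := n) (cL a 0 0) s := by
    funext x
    rw [phi_cL_zero]
  rw [h0] at hg
  have hcont : ContinuousOn (fun η : ℝ => Tdens p (phi (n := n) (cL a η 0) s))
      (Icc (0 : ℝ) 1) := by
    have h1 := continuousOn_Tdens_phi (n := n) hn ha0 ha1 hp (K := 0)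
    have h2 : Continuous fun η : ℝ => (((η, 0), s) : (ℝ × ℝ) × (Fin 0 → ℝ)) := by fun_prop
    have hmaps : MapsTo (fun η : ℝ => (((η, 0), s) : (ℝ × ℝ) × (Fin 0 → ℝ))) (Icc (0 : ℝ) 1)
        (PS 0) := by
      intro η hη
      have h0' : (0 : ℝ) ∈ Icc (0 : ℝ) 1 := ⟨le_refl _, zero_le_one⟩
      exact ⟨⟨hη, h0'⟩, fun k => k.elim0⟩
    have h3 := ContinuousOn.comp (g := fun w : (ℝ × ℝ) × (Fin 0 → ℝ) =>
      Tdens p (phi (n := n) (cL a w.1.1 w.1.2) w.2)) h1 h2.continuousOn hmaps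
    exact h3
  have h3 : ContinuousWithinAt (fun η : ℝ => Tdens p (phi (n := n) (cL a η 0) s))
      (Icc (0 : ℝ) 1) 0 := hcont 0 ⟨le_refl _, zero_le_one⟩
  have h4 : ∀ᶠ η in 𝓝[Icc (0 : ℝ) 1] 0, Tdens p (phi (n := n) (cL a η 0) s) ∈
      ball (Tdens p (phi (n := n) (cL a 0 0) s)) c := h3 (ball_mem_nhds _ hc)
  have h5 : ∀ᶠ η in 𝓝[>] (0 : ℝ), η ∈ Icc (0 : ℝ) 1 := by
    filter_upwards [Ioc_mem_nhdsGT (show (0 : ℝ) < 1 by norm_num)] with η hη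
    exact ⟨hη.1.le, hη.2⟩
  have h6 : ∀ᶠ η in 𝓝[>] (0 : ℝ), Tdens p (phi (n := n) (cL a η 0) s) ∈
      ball (Tdens p (phi (n := n) (cL a 0 0) s)) c := by
    have h7 : Tendsto (fun η : ℝ => η) (𝓝[>] (0 : ℝ)) (𝓝[Icc (0 : ℝ) 1] 0) :=
      tendsto_nhdsWithin_iff.mpr ⟨tendsto_id.mono_left nhdsWithin_le_nhds, h5⟩
    exact h7.eventually h4
  obtain ⟨η, hη1, hη2, hη3⟩ := (h6.and (h5.and self_mem_nhdsWithin)).exists
  refine ⟨η, hη3, hη2.2, fun u => ?_⟩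
  have h8 := ((Tdens p (phi (n := n) (cL a η 0) s)) -
    (Tdens p (phi (n := n) (cL a 0 0) s))).norm_coe_le_norm u
  rw [mem_ball, dist_eq_norm] at hη1
  rw [ContinuousMap.sub_apply, hg u, Real.norm_eq_abs] at h8
  have h9 := (abs_lt.mp (h8.trans_lt hη1)).1
  linarith

end Pool.Agent.S91X
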