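import Pool.Agent.S91X.Conf
import Pool.Agent.S91X.Bath
import Pool.Agent.S50X.Approx

open MeasureTheory Metric Set Filter Topology Module
open scoped Matrix

namespace Pool.Agent.S91X

open Pool.Agent.S50X

variable {n : ℕ} [NeZero n]

/-- The functional of a configuration along the ray. -/
theorem Lam_conf {p a η : ℝ} (ha0 : 0 < a) (ha1 : a < 1) (hη : 0 < η) (hη1 : η ≤ 1) {κ : Type}
    [Fintype κ] (t : κ → ℝ) (x : VN n) :
    Lam p (phi (n := n) (cL a η 0) t) x = (p / 2) / Real.Gamma (1 - p / 2) *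
      ∫ l in Ioi (0 : ℝ), (1 - psiE η a (l • eig x) * ∏ k, tau (t k) (l • eig x)) *
        l ^ (-1 - p / 2) := by
  unfold Lam
  congr 1
  refine setIntegral_congr_fun measurableSet_Ioi fun l hl => ?_
  have hl0 : (0 : ℝ) < l := hl
  rw [phi_zero, phi_ray, max_eq_left hl0.le]
  · congr 2
    congr 1
    have e1 := exp_of_sc (a := a) (η := η) (n := n) (le_refl (0 : ℝ))
      (fun z => sc_cL ha0 ha1 hη hη1 le_rfl zero_le_one z) (l • eig x)
    have e2 : (0 : ℝ) ^ (1 - a) = 0 := Real.zero_rpow (by linarith)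
    rw [e2] at e1
    simp only [zero_div, zero_mul, add_zero] at e1
    unfold psiE
    rw [← e1]
    rfl
  · have h1 := (sc_cL ha0 ha1 hη hη1 le_rfl zero_le_one 0).2
    rw [h1]
    simp

theorem rep_schatten {p a : ℝ} (hp0 : 0 < p) (hpa : p / 2 < a) (ha1 : a < 1) :
    ∃ C > 0, Rep p (fun x : VN n => C * (∑ i, eig x i ^ a) ^ (p / 2 / a)) := by
  have hne : Nonempty (Fin n) := ⟨⟨0, NeZero.pos n⟩⟩
  have ha0 : 0 < a := by linarith
  have hp2 : p < 2 := by linarith
  obtain ⟨η, hη, hη1, hbath⟩ := exists_bath (n := n) (NeZero.pos n) ha0 ha1 hp0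
    (fun _ : Fin 0 => (0 : ℝ))
  obtain ⟨C, hC, hex⟩ := lam_exact (n := n) (a := a) (b := p / 2) (η := η) (by positivity) hpa
    ha1 hη
  have hη' : η ∈ Icc (0 : ℝ) 1 := ⟨hη.le, hη1⟩
  have h01 : (0 : ℝ) ∈ Icc (0 : ℝ) 1 := ⟨le_rfl, zero_le_one⟩
  have hfin : IsFiniteMeasure (jmp η a (Ioi 1)) :=
    isFiniteMeasure_jmp ha0 one_pos (subset_refl _)
  set μ : Measure Cfg := poi (jmp η a (Ioi 1)) with hμ
  set K : ℝ := (p / 2) / Real.Gamma (1 - p / 2) with hK
  have hK0 : 0 < K := by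
    have : 0 < Real.Gamma (1 - p / 2) := Real.Gamma_pos_of_pos (by linarith)
    positivity
  let S : (w : Cfg) → Fin w.1 → ℝ := fun w k => η * w.2 k
  let F : Cfg → VN n → ℝ := fun w => Lam p (phi (cL a η 0) (S w))
  have hae : ∀ᵐ w ∂μ, ∀ k, 0 < w.2 k := by
    filter_upwards [ae_poi (ae_jmp (η := η) (a := a) measurableSet_Ioi)] with w hw k
    exact one_pos.trans (hw k)
  have hS : ∀ w : Cfg, (∀ k, 0 < w.2 k) → ∀ q, 0 ≤ S w q := fun w hw q =>
    mul_nonneg hη.le (hw q).le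
  have hFint : ∀ x, Integrable (fun w => F w x) μ ∧
      ∫ w, F w x ∂μ = K * (C * (∑ i, eig x i ^ a) ^ (p / 2 / a)) := by
    intro x
    obtain ⟨-, h1, h2⟩ := hex (eig x) (spec_real x).2.1
    have h3 : (fun w : Cfg => F w x) = fun w => K * ∫ l in Ioi (0 : ℝ),
        (1 - psiE η a (l • eig x) * ∏ k, tau (η * w.2 k) (l • eig x)) * l ^ (-1 - p / 2) := by
      funext w
      exact Lam_conf ha0 ha1 hη hη1 (S w) x
    rw [h3]
    refine ⟨h1.const_mul K, ?_⟩
    rw [integral_const_mul, h2]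
  -- the empty configuration
  set E₀ : Set Cfg := {w | w.1 = 0} with hE₀
  have hE₀m : MeasurableSet E₀ := by
    rw [measurableSet_cfg]
    intro K
    by_cases h : K = 0
    · simp [hE₀, h]
    · simp [hE₀, h]
  have hE₀pos : 0 < μ.real E₀ := by
    rw [measureReal_def, hμ, hE₀, poi_empty, ENNReal.toReal_ofReal (Real.exp_pos _).le]
    exact Real.exp_pos _
  set g₀ : C(Sph (Fin n × Fin n), ℝ) :=
    Tdens p (phi (n := n) (cL a η 0) (fun _ : Fin 0 => (0 : ℝ))) with hg₀
  obtain ⟨G₀, hG₀⟩ := tube_cL (n := n) ha0 ha1 hη' h01 (fun _ : Fin 0 => (0 : ℝ))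
    (fun k => k.elim0)
  have hF0 : ∀ w ∈ E₀, ∀ x, F w x = ker p g₀ x := by
    rintro ⟨k, t⟩ hw x
    have hk : k = 0 := hw
    subst hk
    have h1 : S ⟨0, t⟩ = fun _ : Fin 0 => (0 : ℝ) := by
      funext k
      exact k.elim0
    simp only [F]
    rw [h1]
    exact (Tdens_spec hp0 hp2 hG₀ x).2
  -- the other configurations
  have happ : App p (Rep p) (fun x => ∫ w in E₀ᶜ, F w x ∂μ) := by
    have hae' : ∀ᵐ w ∂(μ.restrict E₀ᶜ), ∀ k, 0 < w.2 k := ae_restrict_of_ae hae
    refine App.integral (𝒞 := Rep p) hp0 (cone_rep hp0) (μ.restrict E₀ᶜ) F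
      (fun w => Tdens p (phi (cL a η 0) (S w))) ?_ ?_ ?_ ?_ (fun x => (hFint x).1.restrict)
    · have h1 := stronglyMeasurable_cfg (fun w => Tdens p (phi (n := n) (cL a η 0) (S w))) 0
        (fun K => ?_)
      · refine h1.aestronglyMeasurable.congr ?_
        filter_upwards [hae'] with w hw
        rw [if_pos hw]
      · rw [continuousOn_iff_continuous_domRestrict]
        obtain ⟨c₀, hc₀, C₀, hlow⟩ := sc_lower ha0 ha1
        have hs : Continuous fun ω : {t : Fin K → ℝ | ∀ k, 0 < t k} =>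
            (fun j => η * ω.1 j : Fin K → ℝ) := by
          refine continuous_pi fun j => ?_
          exact continuous_const.mul ((continuous_apply j).comp continuous_subtype_val)
        have h2 := continuous_Tdens_phi (n := n) (NeZero.pos n) hp0
          (fun _ : {t : Fin K → ℝ | ∀ k, 0 < t k} => cL a η 0) _ hs
          (fun ω j => mul_nonneg hη.le (ω.2 j).le) (fun z => continuous_const)
          (fun _ => cL_bound ha0 ha1 hη' h01) ha0 ha1 hc₀ (fun _ => hlow η hη' 0 h01)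
        exact h2
    · filter_upwards [hae'] with w hw
      obtain ⟨G, hG⟩ := tube_cL (n := n) ha0 ha1 hη' h01 (S w) (hS w hw)
      exact Tdens_cinv hp0 hG
    · filter_upwards [hae'] with w hw x
      obtain ⟨G, hG⟩ := tube_cL (n := n) ha0 ha1 hη' h01 (S w) (hS w hw)
      exact (Tdens_spec hp0 hp2 hG x).2
    · filter_upwards [hae'] with w hw
      exact app_conf hp0 hp2 ha0 ha1 hη hη1 (S w) (hS w hw)
  refine ⟨K * C, by positivity, ?_⟩
  refine absorb hp0 (cone_rep hp0) (fun f hf hinv ε hε => approx_pos hp0 f hf hinv hε)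
    (fun B => (isBlock_norm B).rep) g₀ hbath (Tdens_cinv hp0 hG₀) hE₀pos happ fun x => ?_
  have h1 := (hFint x).2
  rw [← integral_add_compl hE₀m (hFint x).1] at h1
  have h2 : ∫ w in E₀, F w x ∂μ = μ.real E₀ * ker p g₀ x := by
    rw [setIntegral_congr_fun hE₀m (fun w hw => hF0 w hw x), setIntegral_const, smul_eq_mul]
  rw [h2] at h1
  rw [mul_assoc, ← h1]

end Pool.Agent.S91X
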