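import Pool.Agent.S50X.Ker
import Pool.Agent.S50X.Assembly

open MeasureTheory Metric Set Filter Topology Module

namespace Pool.Agent.S91X

open Pool.Agent.S50X

variable {ι : Type} [Fintype ι]

/-- A class of functions closed under nonnegative multiples and pointwise convergent
countable sums. -/
structure Cone (𝒞 : (EC ι → ℝ) → Prop) : Prop where
  smul : ∀ (c : ℝ) (G : EC ι → ℝ), 0 ≤ c → 𝒞 G → 𝒞 (fun x => c * G x)
  sum : ∀ (G : ℕ → EC ι → ℝ) (F : EC ι → ℝ), (∀ i, 𝒞 (G i)) →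
    (∀ x, HasSum (fun i => G i x) (F x)) → 𝒞 F
  zero : 𝒞 (fun _ => 0)

/-- The class of functions that are approximated, up to the kernel transform of a small
continuous density, by functions of the class `𝒞`. -/
def App (p : ℝ) (𝒞 : (EC ι → ℝ) → Prop) (F : EC ι → ℝ) : Prop :=
  ∀ ε : ℝ, 0 < ε → ∃ (G : EC ι → ℝ) (e : C(Sph ι, ℝ)),
    𝒞 G ∧ CInv e ∧ ‖e‖ ≤ ε ∧ ∀ x, F x = G x + ker p e x

theorem ker_zero (p : ℝ) (x : EC ι) : S50X.ker p (0 : C(Sph ι, ℝ)) x = 0 := by
  simp [S50X.ker]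

theorem cinv_zero : CInv (0 : C(Sph ι, ℝ)) := by
  intro c u v _ _
  simp

theorem cinv_add {f g : C(Sph ι, ℝ)} (hf : CInv f) (hg : CInv g) : CInv (f + g) := by
  intro c u v hc hv
  simp [hf c u v hc hv, hg c u v hc hv]

theorem Cone.sum' {𝒞 : (EC ι → ℝ) → Prop} (h : Cone 𝒞) {κ : Type*} [Countable κ]
    (G : κ → EC ι → ℝ) (F : EC ι → ℝ) (hG : ∀ i, 𝒞 (G i))
    (hs : ∀ x, HasSum (fun i => G i x) (F x)) : 𝒞 F := by
  classical
  obtain ⟨e, he⟩ := exists_injective_nat κ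
  refine h.sum (fun n => Function.extend e G (fun _ => fun _ => 0) n) F (fun n => ?_) fun x => ?_
  · by_cases hn : ∃ k, e k = n
    · obtain ⟨k, rfl⟩ := hn
      simp only [he.extend_apply]
      exact hG k
    · rw [Function.extend_apply' _ _ _ hn]
      exact h.zero
  · have h1 : (fun n => Function.extend e G (fun _ => fun _ => (0 : ℝ)) n x) =
        Function.extend e (fun k => G k x) 0 := by
      funext n
      by_cases hn : ∃ k, e k = n
      · obtain ⟨k, rfl⟩ := hn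
        rw [he.extend_apply, he.extend_apply]
      · rw [Function.extend_apply' _ _ _ hn, Function.extend_apply' _ _ _ hn]
        rfl
    rw [h1, hasSum_extend_zero he]
    exact hs x

theorem Cone.add {𝒞 : (EC ι → ℝ) → Prop} (h : Cone 𝒞) {G₁ G₂ : EC ι → ℝ} (h₁ : 𝒞 G₁)
    (h₂ : 𝒞 G₂) : 𝒞 (fun x => G₁ x + G₂ x) := by
  refine h.sum' (κ := Bool) (fun b => if b then G₁ else G₂) _ (fun b => ?_) fun x => ?_
  · cases b <;> simp [h₁, h₂]
  · have := hasSum_fintype (fun b : Bool => (if b then G₁ else G₂) x)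
    simpa using this

theorem App.of_mem {p : ℝ} {𝒞 : (EC ι → ℝ) → Prop} {G : EC ι → ℝ} (hG : 𝒞 G) : App p 𝒞 G := by
  intro ε hε
  exact ⟨G, 0, hG, cinv_zero, by simpa using hε.le, fun x => by simp [ker_zero]⟩

theorem App.congr {p : ℝ} {𝒞 : (EC ι → ℝ) → Prop} {F F' : EC ι → ℝ} (hF : App p 𝒞 F)
    (h : ∀ x, F' x = F x) : App p 𝒞 F' := by
  have : F' = F := funext h
  rwa [this]

theorem App.add {p : ℝ} (hp : 0 < p) {𝒞 : (EC ι → ℝ) → Prop} (h : Cone 𝒞) {F₁ F₂ : EC ι → ℝ}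
    (h₁ : App p 𝒞 F₁) (h₂ : App p 𝒞 F₂) : App p 𝒞 (fun x => F₁ x + F₂ x) := by
  intro ε hε
  obtain ⟨G₁, e₁, hG₁, hc₁, he₁, hx₁⟩ := h₁ (ε / 2) (by positivity)
  obtain ⟨G₂, e₂, hG₂, hc₂, he₂, hx₂⟩ := h₂ (ε / 2) (by positivity)
  refine ⟨fun x => G₁ x + G₂ x, e₁ + e₂, h.add hG₁ hG₂, cinv_add hc₁ hc₂, ?_, fun x => ?_⟩
  · exact (norm_add_le _ _).trans (by linarith)
  · show F₁ x + F₂ x = (G₁ x + G₂ x) + S50X.ker p (e₁ + e₂) x
    rw [ker_add hp, hx₁, hx₂]
    ring

theorem App.smul {p : ℝ} {𝒞 : (EC ι → ℝ) → Prop} (h : Cone 𝒞) {F : EC ι → ℝ} {c : ℝ}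
    (hc : 0 ≤ c) (hF : App p 𝒞 F) : App p 𝒞 (fun x => c * F x) := by
  intro ε hε
  obtain ⟨G, e, hG, hce, he, hx⟩ := hF (ε / (c + 1)) (by positivity)
  refine ⟨fun x => c * G x, c • e, h.smul c G hc hG, hce.smul c, ?_, fun x => ?_⟩
  · rw [norm_smul, Real.norm_of_nonneg hc]
    calc c * ‖e‖ ≤ c * (ε / (c + 1)) := mul_le_mul_of_nonneg_left he hc
      _ = (c / (c + 1)) * ε := by ring
      _ ≤ 1 * ε := by
          refine mul_le_mul_of_nonneg_right ?_ hε.le
          rw [div_le_one (by positivity)]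
          linarith
      _ = ε := one_mul _
  · show c * F x = c * G x + S50X.ker p (c • e) x
    rw [ker_smul, hx]
    ring

/-- Lemma L: closure under small perturbations of the density. -/
theorem App.limit {p : ℝ} (hp : 0 < p) {𝒞 : (EC ι → ℝ) → Prop} (F : EC ι → ℝ)
    (Fj : ℕ → EC ι → ℝ) (e : ℕ → C(Sph ι, ℝ)) (hinv : ∀ j, CInv (e j))
    (he : Tendsto e atTop (𝓝 0)) (hF : ∀ j x, F x = Fj j x + ker p (e j) x)
    (hApp : ∀ j, App p 𝒞 (Fj j)) : App p 𝒞 F := by
  intro ε hε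
  have h1 : ∀ᶠ j in atTop, ‖e j‖ < ε / 2 := by
    have := he.norm
    rw [norm_zero] at this
    exact this.eventually (gt_mem_nhds (by positivity))
  obtain ⟨j, hj⟩ := h1.exists
  obtain ⟨G, e', hG, hc, he', hx⟩ := hApp j (ε / 2) (by positivity)
  refine ⟨G, e' + e j, hG, cinv_add hc (hinv j), ?_, fun x => ?_⟩
  · exact (norm_add_le _ _).trans (by linarith)
  · rw [ker_add hp, hF j, hx]
    ring

/-- Lemma L, along a sequence of densities: if `F = ker f`, `Fj = ker (fj j)` and `fj → f`. -/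
theorem App.limit' {p : ℝ} (hp : 0 < p) {𝒞 : (EC ι → ℝ) → Prop} (f : C(Sph ι, ℝ))
    (fj : ℕ → C(Sph ι, ℝ)) (hf : CInv f) (hfj : ∀ j, CInv (fj j))
    (he : Tendsto fj atTop (𝓝 f))
    (hApp : ∀ j, App p 𝒞 (ker p (fj j))) : App p 𝒞 (ker p f) := by
  refine App.limit hp (ker p f) (fun j => ker p (fj j)) (fun j => f - fj j)
    (fun j => hf.sub (hfj j)) ?_ (fun j x => ?_) hApp
  · have := (tendsto_const_nhds (x := f)).sub he
    rwa [sub_self] at this
  · rw [ker_sub hp]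
    ring

theorem App.integral₀ {p : ℝ} (hp : 0 < p) {𝒞 : (EC ι → ℝ) → Prop} (h : Cone 𝒞)
    {Ω : Type*} [MeasurableSpace Ω] (P : Measure Ω) [IsFiniteMeasure P]
    (g : Ω → C(Sph ι, ℝ)) (hg : StronglyMeasurable g) (hinv : ∀ ω, CInv (g ω))
    (hApp : ∀ ω, App p 𝒞 (ker p (g ω)))
    (hint : ∀ x, Integrable (fun ω => ker p (g ω) x) P) :
    App p 𝒞 (fun x => ∫ ω, ker p (g ω) x ∂P) := by
  classical
  rcases isEmpty_or_nonempty Ω with hΩ | hΩ
  · have hP : P = 0 := Measure.eq_zero_of_isEmpty P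
    refine App.congr (App.of_mem h.zero) fun x => ?_
    simp [hP]
  intro ε hε
  have hu0 : (0 : ℝ) ≤ P.real univ := measureReal_nonneg
  set δ : ℝ := ε / (2 * (P.real univ + 1)) with hδ
  have hδpos : 0 < δ := by positivity
  choose G e hG he1 he2 hGe using fun ω => hApp ω δ hδpos
  -- the dense sequence
  let v : ℕ → range g := TopologicalSpace.denseSeq (range g)
  choose w hw using fun i => (v i).2
  have hcov : ∀ ω, ∃ i, ‖g ω - g (w i)‖ < δ := by
    intro ω
    have hopen : IsOpen {y : range g | ‖g ω - y.1‖ < δ} :=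
      isOpen_lt (continuous_const.sub continuous_subtype_val).norm continuous_const
    obtain ⟨i, hi⟩ := (TopologicalSpace.denseRange_denseSeq (range g)).exists_mem_open hopen
      ⟨⟨g ω, mem_range_self ω⟩, by simpa using hδpos⟩
    exact ⟨i, by rw [hw]; exact hi⟩
  let s : Ω → ℕ := fun ω => Nat.find (hcov ω)
  have hs : ∀ ω, ‖g ω - g (w (s ω))‖ < δ := fun ω => Nat.find_spec (hcov ω)
  have hsmeas : Measurable s := by
    refine measurable_find hcov fun i => ?_
    exact ((hg.sub stronglyMeasurable_const).norm).measurable measurableSet_Iio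
  have hgw : ∀ k : ℕ → C(Sph ι, ℝ), StronglyMeasurable (fun ω => k (s ω)) := by
    intro k
    have h1 : StronglyMeasurable k := StronglyMeasurable.of_discrete
    exact h1.comp_measurable hsmeas
  set D : Ω → C(Sph ι, ℝ) := fun ω => (g ω - g (w (s ω))) + e (w (s ω)) with hD
  have hDm : StronglyMeasurable D := (hg.sub (hgw fun i => g (w i))).add (hgw fun i => e (w i))
  have hDb : ∀ ω, ‖D ω‖ ≤ 2 * δ := by
    intro ω
    refine (norm_add_le _ _).trans ?_
    have h1 := hs ω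
    have h2 := he2 (w (s ω))
    linarith
  have hDi : Integrable D P :=
    Integrable.of_bound hDm.aestronglyMeasurable (2 * δ) (Eventually.of_forall hDb)
  have hDinv : ∀ ω, CInv (D ω) := fun ω => cinv_add ((hinv ω).sub (hinv _)) (he1 _)
  have hkey : ∀ ω x, ker p (g ω) x = G (w (s ω)) x + ker p (D ω) x := by
    intro ω x
    rw [hD]
    simp only
    rw [ker_add hp, ker_sub hp, hGe (w (s ω)) x]
    ring
  have hkD : ∀ x, Integrable (fun ω => ker p (D ω) x) P := fun x =>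
    (kerL hp x).integrable_comp hDi
  have hGi : ∀ x, Integrable (fun ω => G (w (s ω)) x) P := by
    intro x
    refine ((hint x).sub (hkD x)).congr (Eventually.of_forall fun ω => ?_)
    simp [hkey ω x]
  refine ⟨fun x => ∫ ω, G (w (s ω)) x ∂P, ∫ ω, D ω ∂P, ?_, ?_, ?_, fun x => ?_⟩
  · -- the class
    refine h.sum (fun i x => P.real (s ⁻¹' {i}) * G (w i) x) _
      (fun i => h.smul _ _ measureReal_nonneg (hG (w i))) fun x => ?_
    have hun : (⋃ i, s ⁻¹' {i}) = univ := by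
      ext ω
      simp
    have hsumm := hasSum_integral_iUnion (μ := P) (f := fun ω => G (w (s ω)) x)
      (s := fun i => s ⁻¹' {i})
      (fun i => hsmeas (measurableSet_singleton i))
      (fun i j hij => by
        refine Set.disjoint_left.mpr fun ω h1 h2 => hij ?_
        have h3 : s ω = i := h1
        have h4 : s ω = j := h2
        rw [← h3, ← h4])
      (by rw [hun]; exact (hGi x).integrableOn)
    rw [hun, Measure.restrict_univ] at hsumm
    have hfun : (fun i => P.real (s ⁻¹' {i}) * G (w i) x) =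
        fun n => ∫ ω in s ⁻¹' {n}, G (w (s ω)) x ∂P := by
      funext i
      have h1 : ∀ ω ∈ s ⁻¹' {i}, G (w (s ω)) x = G (w i) x := by
        intro ω hω
        have h3 : s ω = i := hω
        rw [h3]
      rw [setIntegral_congr_fun (hsmeas (measurableSet_singleton i)) h1,
        setIntegral_const, smul_eq_mul]
    rw [hfun]
    exact hsumm
  · -- invariance
    intro c u v hc hv
    rw [ContinuousMap.integral_apply hDi, ContinuousMap.integral_apply hDi]
    exact integral_congr_ae (Eventually.of_forall fun ω => hDinv ω c u v hc hv)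
  · -- the norm
    refine (norm_integral_le_of_norm_le_const (Eventually.of_forall hDb)).trans ?_
    rw [hδ, mul_div_assoc', div_mul_eq_mul_div, div_le_iff₀ (by positivity)]
    nlinarith
  · -- the identity
    have h1 : ker p (∫ ω, D ω ∂P) x = ∫ ω, ker p (D ω) x ∂P := by
      rw [← kerL_apply hp, ← ContinuousLinearMap.integral_comp_comm _ hDi]
      rfl
    rw [h1, ← integral_add (hGi x) (hkD x)]
    exact integral_congr_ae (Eventually.of_forall fun ω => hkey ω x)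

/-- Lemma D: closure under integration against a finite measure. -/
theorem App.integral {p : ℝ} (hp : 0 < p) {𝒞 : (EC ι → ℝ) → Prop} (h : Cone 𝒞)
    {Ω : Type*} [MeasurableSpace Ω] (P : Measure Ω) [IsFiniteMeasure P]
    (F : Ω → EC ι → ℝ) (g : Ω → C(Sph ι, ℝ)) (hg : AEStronglyMeasurable g P)
    (hinv : ∀ᵐ ω ∂P, CInv (g ω)) (hFg : ∀ᵐ ω ∂P, ∀ x, F ω x = ker p (g ω) x)
    (hApp : ∀ᵐ ω ∂P, App p 𝒞 (F ω)) (hint : ∀ x, Integrable (fun ω => F ω x) P) :
    App p 𝒞 (fun x => ∫ ω, F ω x ∂P) := by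
  classical
  obtain ⟨g', hg', hgg'⟩ := hg
  have hae : ∀ᵐ ω ∂P, g ω = g' ω ∧ CInv (g ω) ∧ (∀ x, F ω x = ker p (g ω) x) ∧
      App p 𝒞 (F ω) := by
    filter_upwards [hgg', hinv, hFg, hApp] with ω h1 h2 h3 h4
    exact ⟨h1, h2, h3, h4⟩
  obtain ⟨Ω₁, hsub, hΩm, hΩ0⟩ : ∃ Ω₁ : Set Ω, (∀ ω ∈ Ω₁, g ω = g' ω ∧ CInv (g ω) ∧
      (∀ x, F ω x = ker p (g ω) x) ∧ App p 𝒞 (F ω)) ∧ MeasurableSet Ω₁ ∧ P Ω₁ᶜ = 0 := by
    obtain ⟨t, ht1, ht2, ht3⟩ := exists_measurable_superset_of_null (ae_iff.mp hae)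
    refine ⟨tᶜ, fun ω hω => ?_, ht2.compl, by rwa [compl_compl]⟩
    by_contra hcon
    exact hω (ht1 hcon)
  have hae1 : ∀ᵐ ω ∂P, ω ∈ Ω₁ := by
    rw [ae_iff]
    exact hΩ0
  set g'' : Ω → C(Sph ι, ℝ) := Ω₁.indicator g' with hg''
  have hin : ∀ ω ∈ Ω₁, g'' ω = g ω := by
    intro ω hω
    rw [hg'', indicator_of_mem hω, (hsub ω hω).1]
  have hout : ∀ ω ∉ Ω₁, g'' ω = 0 := fun ω hω => indicator_of_notMem hω _
  have hmain := App.integral₀ hp h P g'' (hg'.indicator hΩm) (fun ω => ?_) (fun ω => ?_)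
    (fun x => ?_)
  · refine App.congr hmain fun x => ?_
    refine integral_congr_ae ?_
    filter_upwards [hae1] with ω hω
    rw [(hsub ω hω).2.2.1 x, hin ω hω]
  · by_cases hω : ω ∈ Ω₁
    · rw [hin ω hω]
      exact (hsub ω hω).2.1
    · rw [hout ω hω]
      exact cinv_zero
  · by_cases hω : ω ∈ Ω₁
    · rw [hin ω hω]
      exact App.congr (hsub ω hω).2.2.2 fun x => ((hsub ω hω).2.2.1 x).symm
    · rw [hout ω hω]
      exact App.congr (App.of_mem h.zero) fun x => ker_zero p x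
  · refine (hint x).congr ?_
    filter_upwards [hae1] with ω hω
    rw [(hsub ω hω).2.2.1 x, hin ω hω]

/-- The final absorption: a positive density plus an approximable function is in the class. -/
theorem absorb [Nonempty ι] {p : ℝ} (hp : 0 < p) {𝒞 : (EC ι → ℝ) → Prop} (h : Cone 𝒞)
    (hHA : HasApprox ι p) (hB : ∀ B : EC ι →ₗ[ℂ] EC ι, 𝒞 (fun x => ‖B x‖ ^ p))
    {F F' : EC ι → ℝ} (f : C(Sph ι, ℝ)) (hf : ∀ u, 0 < f u) (hfc : CInv f) {c : ℝ} (hc : 0 < c)
    (hApp : App p 𝒞 F') (hF : ∀ x, F x = c * ker p f x + F' x) : 𝒞 F := by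
  obtain ⟨u0, -, hu0⟩ := isCompact_univ.exists_isMinOn (univ_nonempty (α := Sph ι))
    f.continuous.continuousOn
  have hm : ∀ u, f u0 ≤ f u := fun u => hu0 (mem_univ u)
  have hm0 : 0 < f u0 := hf u0
  obtain ⟨G, e, hG, hce, he, hx⟩ := hApp (c * f u0 / 2) (by positivity)
  have hpos : ∀ u, 0 < (c • f + e) u := by
    intro u
    have h1 := (e.norm_coe_le_norm u).trans he
    rw [Real.norm_eq_abs, abs_le] at h1
    have h2 : c * f u0 ≤ c * f u := mul_le_mul_of_nonneg_left (hm u) hc.le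
    have h3 : 0 < c * f u0 := by positivity
    simp only [ContinuousMap.add_apply, ContinuousMap.smul_apply, smul_eq_mul]
    linarith [h1.1]
  obtain ⟨n, B, hBs⟩ := countable_decomp hp hHA (c • f + e) hpos (cinv_add (hfc.smul c) hce)
  have h1 : 𝒞 (ker p (c • f + e)) := h.sum' (fun i x => ‖B i x‖ ^ p) _ (fun i => hB _) hBs
  have h2 : F = fun x => G x + ker p (c • f + e) x := by
    funext x
    rw [hF, hx, ker_add hp, ker_smul]
    ring
  rw [h2]
  exact h.add hG h1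

end Pool.Agent.S91X
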