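import Pool.Agent.S50X.Setup

open MeasureTheory Metric Set Filter Topology Module
open scoped Matrix

namespace Pool.Agent.S91X

open Pool.Agent.S50X

/-- The space of complex `n × n` matrices as a Euclidean space. -/
abbrev VN (n : ℕ) : Type := EC (Fin n × Fin n)

variable {n : ℕ}

/-- The matrix with given coordinates. -/
def mt (x : VN n) : Matrix (Fin n) (Fin n) ℂ := Matrix.of fun i j => x (i, j)

/-- The holomorphic extension of `x* x` at the point `x + i y`. -/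
noncomputable def ZZ (x y : VN n) : Matrix (Fin n) (Fin n) ℂ :=
  ((mt x)ᴴ + Complex.I • (mt y)ᴴ) * (mt x + Complex.I • mt y)

/-- The eigenvalues of `x* x`. -/
noncomputable def eig (x : VN n) (i : Fin n) : ℝ :=
  (Matrix.isHermitian_conjTranspose_mul_self (mt x)).eigenvalues i

/-- The entire function with the coefficients `c k / k!`. -/
noncomputable def sc (c : ℕ → ℝ) (z : ℂ) : ℂ := ∑' k, (c k : ℂ) * z ^ k / (Nat.factorial k : ℂ)

/-- The normalised trace of the same series in a matrix. -/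
noncomputable def trs (c : ℕ → ℝ) (A : Matrix (Fin n) (Fin n) ℂ) : ℂ :=
  ∑' k, (c k : ℂ) * ((A ^ k).trace / n) / (Nat.factorial k : ℂ)

/-- The coefficients of `exp (- s z)`. -/
def cE (s : ℝ) (k : ℕ) : ℝ := (-s) ^ k

/-- The coefficients of the Laplace exponent of the small jumps (compensated below `δ`). -/
noncomputable def cL (a η δ : ℝ) (k : ℕ) : ℝ :=
  if k = 0 then 0 else if k = 1 then 1 / (1 - a)
    else (-1) ^ (k + 1) * η ^ (k - 1) * (1 - δ ^ ((k : ℝ) - a)) / ((k : ℝ) - a)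

/-- The normalised trace of `exp (- s H)` in terms of the eigenvalues of `H`. -/
noncomputable def tau (s : ℝ) (y : Fin n → ℝ) : ℝ := (∑ i, Real.exp (-(s * y i))) / n

/-- The functions whose densities are used. -/
noncomputable def phi (c : ℕ → ℝ) {κ : Type} [Fintype κ] (s : κ → ℝ) (x : VN n) : ℝ :=
  Real.exp (-((∑ i, (sc c (eig x i : ℂ)).re) / n)) * ∏ k, tau (s k) (eig x)

/-- The holomorphic extension of `phi`. -/
noncomputable def Phi (c : ℕ → ℝ) {κ : Type} [Fintype κ] (s : κ → ℝ) (x y : VN n) : ℂ :=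
  Complex.exp (-trs c (ZZ x y)) * ∏ k, trs (cE (s k)) (ZZ x y)

/-- The majorant. -/
noncomputable def GG (a c₀ C₀ : ℝ) (x : VN n) : ℝ := Real.exp (C₀ - c₀ / n * ‖x‖ ^ (2 * a))

section General

variable {ι : Type} [Fintype ι]

/-- A function with a holomorphic extension to a tube and an integrable majorant. -/
structure Tube (φ : EC ι → ℝ) (Φ : EC ι → EC ι → ℂ) (G : EC ι → ℝ) : Prop where
  zero : ∀ x, Φ x 0 = (φ x : ℂ)
  cont : Continuous fun z : EC ι × EC ι => Φ z.1 z.2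
  hol : ∀ x u : EC ι, Differentiable ℂ (fun ζ : ℂ => Φ (x + (ζ.re : ℝ) • u) ((ζ.im : ℝ) • u))
  bound : ∀ x y, ‖y‖ ≤ 1 → ‖Φ x y‖ ≤ G x
  int : Integrable G
  phase : ∀ (c : ℂ) x, ‖c‖ = 1 → φ (c • x) = φ x

/-- The normalised functional `∫ (φ 0 - φ (√l x)) l ^ (-1 - p / 2) dl`. -/
noncomputable def Lam (p : ℝ) (φ : EC ι → ℝ) (x : EC ι) : ℝ :=
  (p / 2) / Real.Gamma (1 - p / 2) *
    ∫ l in Ioi (0 : ℝ), (φ 0 - φ (Real.sqrt l • x)) * l ^ (-1 - p / 2)

/-- A finite-dimensional block. -/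
def IsBlock (p : ℝ) (F : EC ι → ℝ) : Prop :=
  ∃ (κ μ : Type) (_ : Fintype κ) (_ : Fintype μ) (A : EC ι →ₗ[ℂ] (EC κ →L[ℂ] EC μ)),
    ∀ x, ∃ v : OrthonormalBasis κ ℂ (EC κ),
      (Pairwise fun i j => inner ℂ (A x (v i)) (A x (v j)) = 0) ∧ F x = ∑ i, ‖A x (v i)‖ ^ p

/-- Countable sums of blocks. -/
def Rep (p : ℝ) (F : EC ι → ℝ) : Prop :=
  ∃ f : ℕ → EC ι → ℝ, (∀ i, IsBlock p (f i)) ∧ ∀ x, HasSum (fun i => f i x) (F x)

end General

end Pool.Agent.S91X
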