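import Pool.Agent.S91X.Base
import Pool.Agent.S91X.App
import Pool.Agent.S91X.Schur
import Pool.Agent.S50X.Stable

open MeasureTheory Metric Set Filter Topology Module
open scoped Matrix

namespace Pool.Agent.S91X

open Pool.Agent.S50X

section

variable {n : ℕ} {κ : Type} [Fintype κ] [DecidableEq κ]

/-- The matrix `x` applied in the tensor factor `k`. -/
noncomputable def slot (k : κ) (x : VN n) (f : EC (κ → Fin n)) (α : κ → Fin n) : ℂ :=
  ∑ j, x (α k, j) * f (Function.update α k j)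

theorem slot_add_left (k : κ) (x y : VN n) (f : EC (κ → Fin n)) (α : κ → Fin n) :
    slot k (x + y) f α = slot k x f α + slot k y f α := by
  unfold slot
  rw [← Finset.sum_add_distrib]
  exact Finset.sum_congr rfl fun j _ => by rw [PiLp.add_apply]; ring

theorem slot_smul_left (k : κ) (r : ℂ) (x : VN n) (f : EC (κ → Fin n)) (α : κ → Fin n) :
    slot k (r • x) f α = r * slot k x f α := by
  unfold slot
  rw [Finset.mul_sum]
  exact Finset.sum_congr rfl fun j _ => by rw [PiLp.smul_apply, smul_eq_mul]; ring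

theorem slot_add_right (k : κ) (x : VN n) (f g : EC (κ → Fin n)) (α : κ → Fin n) :
    slot k x (f + g) α = slot k x f α + slot k x g α := by
  unfold slot
  rw [← Finset.sum_add_distrib]
  exact Finset.sum_congr rfl fun j _ => by rw [PiLp.add_apply]; ring

theorem slot_smul_right (k : κ) (x : VN n) (r : ℂ) (f : EC (κ → Fin n)) (α : κ → Fin n) :
    slot k x (r • f) α = r * slot k x f α := by
  unfold slot
  rw [Finset.mul_sum]
  exact Finset.sum_congr rfl fun j _ => by rw [PiLp.smul_apply, smul_eq_mul]; ring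

/-- The product vector. -/
noncomputable def tv (u : κ → EC (Fin n)) : EC (κ → Fin n) := WithLp.toLp 2 fun α => ∏ k, u k (α k)

theorem tv_apply (u : κ → EC (Fin n)) (α : κ → Fin n) : tv u α = ∏ k, u k (α k) := rfl

theorem inner_tv (u w : κ → EC (Fin n)) :
    inner ℂ (tv u) (tv w) = ∏ k, inner ℂ (u k) (w k) := by
  simp only [PiLp.inner_apply, tv_apply, RCLike.inner_apply]
  rw [Finset.prod_univ_sum]
  rw [Fintype.piFinset_univ]
  refine Finset.sum_congr rfl fun α _ => ?_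
  rw [map_prod, ← Finset.prod_mul_distrib]

/-- The matrix `x` acting on a vector. -/
noncomputable def mv (x : VN n) (w : EC (Fin n)) : EC (Fin n) := Matrix.toEuclideanLin (mt x) w

theorem mv_apply (x : VN n) (w : EC (Fin n)) (i : Fin n) : mv x w i = ∑ j, x (i, j) * w j := by
  rfl

theorem slot_tv (k : κ) (x : VN n) (u : κ → EC (Fin n)) (α : κ → Fin n) :
    slot k x (tv u) α = tv (Function.update u k (mv x (u k))) α := by
  unfold slot
  have h1 : ∀ j, tv u (Function.update α k j) = u k j * ∏ l ∈ Finset.univ \ {k}, u l (α l) := by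
    intro j
    have h2 : (fun l => u l (Function.update α k j l)) =
        Function.update (fun l => u l (α l)) k (u k j) := by
      funext l
      by_cases h : l = k
      · subst h
        simp
      · simp [Function.update_of_ne h]
    rw [tv_apply, h2, Finset.prod_update_of_mem (Finset.mem_univ k)]
  have h3 : tv (Function.update u k (mv x (u k))) α =
      mv x (u k) (α k) * ∏ l ∈ Finset.univ \ {k}, u l (α l) := by
    have h2 : (fun l => (Function.update u k (mv x (u k))) l (α l)) =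
        Function.update (fun l => u l (α l)) k (mv x (u k) (α k)) := by
      funext l
      by_cases h : l = k
      · subst h
        simp
      · simp [Function.update_of_ne h]
    rw [tv_apply, h2, Finset.prod_update_of_mem (Finset.mem_univ k)]
  rw [h3, mv_apply, Finset.sum_mul]
  exact Finset.sum_congr rfl fun j _ => by rw [h1]; ring

/-- The index set of the target. -/
abbrev Tg (n : ℕ) (κ : Type) : Type := (κ × (κ → Fin n)) ⊕ ((Fin n × Fin n) × (κ → Fin n))

/-- The entries of the block. -/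
noncomputable def blv (c : ℝ) (s : κ → ℝ) (b x : VN n) (f : EC (κ → Fin n)) : EC (Tg n κ) :=
  WithLp.toLp 2 (Sum.elim (fun q => ((c * √(s q.1) : ℝ) : ℂ) * slot q.1 x f q.2)
    (fun q => ((c : ℝ) : ℂ) * b q.1 * f q.2))

theorem blv_inl (c : ℝ) (s : κ → ℝ) (b x : VN n) (f : EC (κ → Fin n)) (q : κ × (κ → Fin n)) :
    blv c s b x f (Sum.inl q) = ((c * √(s q.1) : ℝ) : ℂ) * slot q.1 x f q.2 := rfl

theorem blv_inr (c : ℝ) (s : κ → ℝ) (b x : VN n) (f : EC (κ → Fin n))
    (q : (Fin n × Fin n) × (κ → Fin n)) :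
    blv c s b x f (Sum.inr q) = ((c : ℝ) : ℂ) * b q.1 * f q.2 := rfl

/-- The block as a linear map into operators. -/
noncomputable def blL (c : ℝ) (s : κ → ℝ) (B : VN n →ₗ[ℂ] VN n) :
    VN n →ₗ[ℂ] EC (κ → Fin n) →ₗ[ℂ] EC (Tg n κ) :=
  LinearMap.mk₂ ℂ (fun x f => blv c s (B x) x f)
    (fun x y f => by
      ext q
      rcases q with q | q
      · rw [PiLp.add_apply, blv_inl, blv_inl, blv_inl, slot_add_left]
        ring
      · rw [PiLp.add_apply, blv_inr, blv_inr, blv_inr, map_add, PiLp.add_apply]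
        ring)
    (fun r x f => by
      ext q
      rcases q with q | q
      · rw [PiLp.smul_apply, blv_inl, blv_inl, slot_smul_left, smul_eq_mul]
        ring
      · rw [PiLp.smul_apply, blv_inr, blv_inr, map_smul, PiLp.smul_apply, smul_eq_mul,
          smul_eq_mul]
        ring)
    (fun x f g => by
      ext q
      rcases q with q | q
      · rw [PiLp.add_apply, blv_inl, blv_inl, blv_inl, slot_add_right]
        ring
      · rw [PiLp.add_apply, blv_inr, blv_inr, blv_inr, PiLp.add_apply]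
        ring)
    (fun r x f => by
      ext q
      rcases q with q | q
      · rw [PiLp.smul_apply, blv_inl, blv_inl, slot_smul_right, smul_eq_mul]
        ring
      · rw [PiLp.smul_apply, blv_inr, blv_inr, PiLp.smul_apply, smul_eq_mul, smul_eq_mul]
        ring)

theorem blL_apply (c : ℝ) (s : κ → ℝ) (B : VN n →ₗ[ℂ] VN n) (x : VN n) (f : EC (κ → Fin n)) :
    blL c s B x f = blv c s (B x) x f := rfl

theorem inner_blv_tv {c : ℝ} {s : κ → ℝ} (hs : ∀ k, 0 ≤ s k) (b x : VN n)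
    (u w : κ → EC (Fin n)) :
    inner ℂ (blv c s b x (tv u)) (blv c s b x (tv w)) = ((c ^ 2 : ℝ) : ℂ) *
      (∑ k, (s k : ℂ) * ∏ l, inner ℂ (Function.update u k (mv x (u k)) l)
        (Function.update w k (mv x (w k)) l) + ((‖b‖ ^ 2 : ℝ) : ℂ) * ∏ l, inner ℂ (u l) (w l)) := by
  rw [PiLp.inner_apply, Fintype.sum_sum_type, mul_add]
  congr 1
  · rw [Fintype.sum_prod_type, Finset.mul_sum]
    refine Finset.sum_congr rfl fun k _ => ?_
    rw [← inner_tv, PiLp.inner_apply, Finset.mul_sum, Finset.mul_sum]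
    refine Finset.sum_congr rfl fun α _ => ?_
    rw [blv_inl, blv_inl, slot_tv, slot_tv]
    simp only [RCLike.inner_apply, map_mul, Complex.conj_ofReal]
    have h1 : ((√(s k) : ℝ) : ℂ) * ((√(s k) : ℝ) : ℂ) = (s k : ℂ) := by
      rw [← Complex.ofReal_mul, Real.mul_self_sqrt (hs k)]
    rw [← h1]
    push_cast
    ring
  · rw [Fintype.sum_prod_type, ← inner_tv, EuclideanSpace.norm_sq_eq, Complex.ofReal_sum,
      Finset.sum_mul, Finset.mul_sum]
    refine Finset.sum_congr rfl fun q _ => ?_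
    rw [PiLp.inner_apply, Finset.mul_sum, Finset.mul_sum]
    refine Finset.sum_congr rfl fun α _ => ?_
    rw [blv_inr, blv_inr]
    simp only [RCLike.inner_apply, map_mul, Complex.conj_ofReal]
    have h1 : ((‖b q‖ ^ 2 : ℝ) : ℂ) = b q * (starRingEnd ℂ) (b q) := by
      rw [Complex.mul_conj, Complex.normSq_eq_norm_sq]
    rw [h1]
    push_cast
    ring

/-- The right singular vectors. -/
noncomputable def sv (x : VN n) : OrthonormalBasis (Fin n) ℂ (EC (Fin n)) :=
  (Matrix.isHermitian_conjTranspose_mul_self (mt x)).eigenvectorBasis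

theorem inner_mv_sv (x : VN n) (i j : Fin n) :
    inner ℂ (mv x (sv x i)) (mv x (sv x j)) = if i = j then ((eig x j : ℝ) : ℂ) else 0 := by
  set hx := Matrix.isHermitian_conjTranspose_mul_self (mt x) with hhx
  unfold mv
  rw [← LinearMap.adjoint_inner_right, ← Matrix.toEuclideanLin_conjTranspose_eq_adjoint]
  have h2 : (Matrix.toEuclideanLin (mt x)ᴴ) (Matrix.toEuclideanLin (mt x) (sv x j)) =
      ((hx.eigenvalues j : ℝ) : ℂ) • sv x j := by
    have h3 := hx.mulVec_eigenvectorBasis j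
    ext k
    have h5 := congrFun h3 k
    rw [← Matrix.mulVec_mulVec] at h5
    have h6 : ((Matrix.toEuclideanLin (mt x)ᴴ) (Matrix.toEuclideanLin (mt x) (sv x j))) k =
        ((mt x)ᴴ *ᵥ ((mt x) *ᵥ (hx.eigenvectorBasis j : Fin n → ℂ))) k := rfl
    rw [h6]
    refine h5.trans ?_
    simp [sv]
  rw [h2, inner_smul_right, orthonormal_iff_ite.1 (sv x).orthonormal i j]
  split_ifs <;> simp [eig]

/-- The vectors of the tensor basis. -/
noncomputable def tvb (x : VN n) (f : κ → Fin n) : EC (κ → Fin n) := tv fun k => sv x (f k)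

theorem inner_tvb (x : VN n) (f g : κ → Fin n) :
    inner ℂ (tvb x f) (tvb x g) = if f = g then (1 : ℂ) else 0 := by
  unfold tvb
  rw [inner_tv]
  simp only [orthonormal_iff_ite.1 (sv x).orthonormal]
  by_cases h : f = g
  · subst h
    simp
  · rw [if_neg h]
    obtain ⟨k, hk⟩ := Function.ne_iff.1 h
    exact Finset.prod_eq_zero (Finset.mem_univ k) (if_neg hk)

theorem orthonormal_tvb (x : VN n) : Orthonormal ℂ (tvb (κ := κ) x) :=
  orthonormal_iff_ite.2 (inner_tvb x)

/-- The tensor basis. -/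
noncomputable def tb (x : VN n) : OrthonormalBasis (κ → Fin n) ℂ (EC (κ → Fin n)) :=
  OrthonormalBasis.mk (orthonormal_tvb x) (by
    exact ((orthonormal_tvb (κ := κ) x).linearIndependent.span_eq_top_of_card_eq_finrank'
      (by rw [finrank_euclideanSpace])).ge)

theorem tb_apply (x : VN n) (f : κ → Fin n) : tb x f = tvb x f := by
  unfold tb
  rw [OrthonormalBasis.coe_mk]

theorem inner_blv_tb {c : ℝ} {s : κ → ℝ} (hs : ∀ k, 0 ≤ s k) (b x : VN n) (f g : κ → Fin n) :
    inner ℂ (blv c s b x (tb x f)) (blv c s b x (tb x g)) =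
      if f = g then ((c ^ 2 * (‖b‖ ^ 2 + ∑ k, s k * eig x (f k)) : ℝ) : ℂ) else 0 := by
  rw [tb_apply, tb_apply]
  unfold tvb
  rw [inner_blv_tv hs]
  have h0 : ∀ k l, inner ℂ (Function.update (fun k => sv x (f k)) k (mv x (sv x (f k))) l)
      (Function.update (fun k => sv x (g k)) k (mv x (sv x (g k))) l) =
      if l = k then (if f k = g k then ((eig x (f k) : ℝ) : ℂ) else 0)
        else (if f l = g l then (1 : ℂ) else 0) := by
    intro k l
    by_cases h : l = k
    · subst h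
      rw [Function.update_self, Function.update_self, inner_mv_sv, if_pos rfl]
      split_ifs with h1
      · rw [h1]
      · rfl
    · rw [Function.update_of_ne h, Function.update_of_ne h,
        orthonormal_iff_ite.1 (sv x).orthonormal, if_neg h]
  simp only [h0, orthonormal_iff_ite.1 (sv x).orthonormal]
  by_cases h : f = g
  · subst h
    simp only [if_true]
    rw [Finset.prod_const_one, mul_one]
    have h1 : ∀ k : κ, (∏ l : κ, if l = k then ((eig x (f k) : ℝ) : ℂ) else 1) =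
        ((eig x (f k) : ℝ) : ℂ) := by
      intro k
      rw [Finset.prod_ite_eq' Finset.univ k]
      simp
    simp only [h1]
    push_cast
    ring
  · rw [if_neg h]
    obtain ⟨m, hm⟩ := Function.ne_iff.1 h
    have h1 : ∀ k : κ, (∏ l : κ, if l = k then (if f k = g k then ((eig x (f k) : ℝ) : ℂ) else 0)
        else (if f l = g l then (1 : ℂ) else 0)) = 0 := by
      intro k
      refine Finset.prod_eq_zero (Finset.mem_univ m) ?_
      by_cases h2 : m = k
      · subst h2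
        rw [if_pos rfl, if_neg hm]
      · rw [if_neg h2, if_neg hm]
    rw [Finset.prod_eq_zero (Finset.mem_univ m) (if_neg hm)]
    simp [h1]

theorem norm_blv_tb {c : ℝ} (hc : 0 ≤ c) {s : κ → ℝ} (hs : ∀ k, 0 ≤ s k) (b x : VN n)
    (f : κ → Fin n) :
    ‖blv c s b x (tb x f)‖ = c * √(‖b‖ ^ 2 + ∑ k, s k * eig x (f k)) := by
  have h := inner_blv_tb (c := c) hs b x f f
  rw [inner_self_eq_norm_sq_to_K] at h
  simp only [if_true] at h
  have h2 : ‖blv c s b x (tb x f)‖ ^ 2 = c ^ 2 * (‖b‖ ^ 2 + ∑ k, s k * eig x (f k)) :=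
    Complex.ofReal_injective (by simpa using h)
  have h3 : 0 ≤ ‖b‖ ^ 2 + ∑ k, s k * eig x (f k) :=
    add_nonneg (by positivity) (Finset.sum_nonneg fun k _ => mul_nonneg (hs k) (eig_nonneg _ _))
  rw [← Real.sqrt_sq (norm_nonneg (blv c s b x (tb x f))), h2, Real.sqrt_mul (by positivity),
    Real.sqrt_sq hc]

/-- The general block. -/
theorem isBlock_tensor {p : ℝ} (hp : 0 < p) (s : κ → ℝ) (hs : ∀ k, 0 ≤ s k) {c : ℝ}
    (hc : 0 ≤ c) (B : VN n →ₗ[ℂ] VN n) :
    IsBlock p (fun x : VN n =>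
      c * ∑ f : κ → Fin n, (‖B x‖ ^ 2 + ∑ k, s k * eig x (f k)) ^ (p / 2)) := by
  refine ⟨κ → Fin n, Tg n κ, inferInstance, inferInstance,
    (LinearMap.toContinuousLinearMap : (EC (κ → Fin n) →ₗ[ℂ] EC (Tg n κ)) ≃ₗ[ℂ]
      (EC (κ → Fin n) →L[ℂ] EC (Tg n κ))).toLinearMap ∘ₗ blL (c ^ (1 / p)) s B, fun x => ?_⟩
  have hA : ∀ f : EC (κ → Fin n), ((LinearMap.toContinuousLinearMap :
      (EC (κ → Fin n) →ₗ[ℂ] EC (Tg n κ)) ≃ₗ[ℂ]
      (EC (κ → Fin n) →L[ℂ] EC (Tg n κ))).toLinearMap ∘ₗ blL (c ^ (1 / p)) s B) x f =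
      blv (c ^ (1 / p)) s (B x) x f := fun f => rfl
  refine ⟨tb x, fun i j hij => ?_, ?_⟩
  · show inner ℂ (((LinearMap.toContinuousLinearMap :
      (EC (κ → Fin n) →ₗ[ℂ] EC (Tg n κ)) ≃ₗ[ℂ]
      (EC (κ → Fin n) →L[ℂ] EC (Tg n κ))).toLinearMap ∘ₗ blL (c ^ (1 / p)) s B) x (tb x i))
      (((LinearMap.toContinuousLinearMap :
      (EC (κ → Fin n) →ₗ[ℂ] EC (Tg n κ)) ≃ₗ[ℂ]
      (EC (κ → Fin n) →L[ℂ] EC (Tg n κ))).toLinearMap ∘ₗ blL (c ^ (1 / p)) s B) x (tb x j)) = 0
    rw [hA, hA, inner_blv_tb hs, if_neg hij]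
  · show c * _ = _
    rw [Finset.mul_sum]
    refine Finset.sum_congr rfl fun f _ => ?_
    rw [hA, norm_blv_tb (Real.rpow_nonneg hc _) hs, Real.mul_rpow (Real.rpow_nonneg hc _)
      (Real.sqrt_nonneg _), ← Real.rpow_mul hc, one_div, inv_mul_cancel₀ hp.ne', Real.rpow_one,
      Real.sqrt_eq_rpow, ← Real.rpow_mul]
    · congr 2
      ring
    · exact add_nonneg (by positivity)
        (Finset.sum_nonneg fun k _ => mul_nonneg (hs k) (eig_nonneg _ _))

end

section General

variable {ι : Type} [Fintype ι] {p : ℝ}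

theorem isBlock_zero : IsBlock (ι := ι) p (fun _ => 0) := by
  refine ⟨Fin 0, Fin 0, inferInstance, inferInstance, 0, fun x => ?_⟩
  refine ⟨EuclideanSpace.basisFun (Fin 0) ℂ, fun i => i.elim0, ?_⟩
  simp

theorem isBlock_smul (hp : 0 < p) {F : EC ι → ℝ} (hF : IsBlock p F) {c : ℝ} (hc : 0 ≤ c) :
    IsBlock p (fun x => c * F x) := by
  obtain ⟨κ, μ, hκ, hμ, A, hA⟩ := hF
  refine ⟨κ, μ, hκ, hμ, ((c ^ (1 / p) : ℝ) : ℂ) • A, fun x => ?_⟩
  obtain ⟨v, hv, hv2⟩ := hA x
  have h0 : 0 ≤ c ^ (1 / p) := Real.rpow_nonneg hc _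
  refine ⟨v, fun i j hij => ?_, ?_⟩
  · show inner ℂ ((((c ^ (1 / p) : ℝ) : ℂ) • A x) (v i)) ((((c ^ (1 / p) : ℝ) : ℂ) • A x) (v j)) = 0
    have h1 := hv hij
    change inner ℂ (((c ^ (1 / p) : ℝ) : ℂ) • (A x (v i))) (((c ^ (1 / p) : ℝ) : ℂ) • (A x (v j))) = 0
    rw [inner_smul_left, inner_smul_right, h1]
    simp
  · show c * F x = _
    rw [hv2, Finset.mul_sum]
    refine Finset.sum_congr rfl fun i _ => ?_
    show c * ‖A x (v i)‖ ^ p = ‖((c ^ (1 / p) : ℝ) : ℂ) • (A x (v i))‖ ^ p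
    rw [norm_smul, Complex.norm_real, Real.norm_of_nonneg h0,
      Real.mul_rpow h0 (norm_nonneg _), ← Real.rpow_mul hc, one_div, inv_mul_cancel₀ hp.ne',
      Real.rpow_one]

theorem IsBlock.nonneg {F : EC ι → ℝ} (hF : IsBlock p F) (x : EC ι) : 0 ≤ F x := by
  obtain ⟨κ, μ, hκ, hμ, A, hA⟩ := hF
  obtain ⟨v, hv, hv2⟩ := hA x
  rw [hv2]
  exact Finset.sum_nonneg fun i _ => Real.rpow_nonneg (norm_nonneg _) _

theorem IsBlock.rep {F : EC ι → ℝ} (hF : IsBlock p F) : Rep p F := by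
  refine ⟨fun i => if i = 0 then F else fun _ => 0, fun i => ?_, fun x => ?_⟩
  · by_cases h : i = 0
    · simp only [h, if_true]
      exact hF
    · simp only [h, if_false]
      exact isBlock_zero
  · have h := hasSum_ite_eq (0 : ℕ) (F x)
    have h2 : (fun i : ℕ => (if i = 0 then F else fun _ => 0) x) =
        fun i : ℕ => if i = 0 then F x else 0 := by
      funext i
      by_cases h : i = 0 <;> simp [h]
    rw [h2]
    exact h

theorem isBlock_norm (B : EC ι →ₗ[ℂ] EC ι) : IsBlock p fun x => ‖B x‖ ^ p := by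
  refine ⟨Unit, ι, inferInstance, inferInstance,
    (LinearMap.toContinuousLinearMap : (EC Unit →ₗ[ℂ] EC ι) ≃ₗ[ℂ]
      (EC Unit →L[ℂ] EC ι)).toLinearMap ∘ₗ
      LinearMap.mk₂ ℂ (fun x (f : EC Unit) => f () • B x)
        (fun x y f => by simp) (fun r x f => by simp [smul_smul, mul_comm])
        (fun x f g => by simp [add_smul]) (fun r x f => by simp [mul_smul]), fun x => ?_⟩
  refine ⟨EuclideanSpace.basisFun Unit ℂ, fun i j hij => (hij (Subsingleton.elim _ _)).elim, ?_⟩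
  have h : ∀ f : EC Unit, ((LinearMap.toContinuousLinearMap : (EC Unit →ₗ[ℂ] EC ι) ≃ₗ[ℂ]
      (EC Unit →L[ℂ] EC ι)).toLinearMap ∘ₗ
      LinearMap.mk₂ ℂ (fun x (f : EC Unit) => f () • B x)
        (fun x y f => by simp) (fun r x f => by simp [smul_smul, mul_comm])
        (fun x f g => by simp [add_smul]) (fun r x f => by simp [mul_smul])) x f =
      f () • B x := fun f => rfl
  simp only [h]
  simp

theorem cone_rep (hp : 0 < p) : Cone (Rep (ι := ι) p) := by
  refine ⟨fun c G hc hG => ?_, fun G F hG hF => ?_, isBlock_zero.rep⟩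
  · obtain ⟨f, hf, hf2⟩ := hG
    exact ⟨fun i x => c * f i x, fun i => isBlock_smul hp (hf i) hc,
      fun x => (hf2 x).mul_left c⟩
  · choose f hf hf2 using hG
    let e : ℕ × ℕ ≃ ℕ := Nat.pairEquiv
    refine ⟨fun k => f (e.symm k).1 (e.symm k).2, fun k => hf _ _, fun x => ?_⟩
    have h1 : HasSum (fun q : ℕ × ℕ => f q.1 q.2 x) (F x) := by
      have hs : Summable fun q : ℕ × ℕ => f q.1 q.2 x := by
        rw [summable_prod_of_nonneg (fun q => (hf q.1 q.2).nonneg x)]
        refine ⟨fun i => (hf2 i x).summable, ?_⟩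
        refine (hF x).summable.congr fun i => ?_
        exact (hf2 i x).tsum_eq.symm
      have h3 := hs.hasSum
      have h4 := h3.prod_fiberwise (fun i => hf2 i x)
      rwa [h4.unique (hF x)] at h3
    exact (e.symm.hasSum_iff (f := fun q : ℕ × ℕ => f q.1 q.2 x)).2 h1

end General

section Value

theorem integral_one_sub_exp_rpow {b : ℝ} (hb : 0 < b) (hb1 : b < 1) :
    ∫ l in Ioi (0 : ℝ), (1 - Real.exp (-l)) * l ^ (-1 - b) = Real.Gamma (1 - b) / b := by
  have hu : ∀ x ∈ Ioi (0 : ℝ), HasDerivAt (fun l : ℝ => 1 - Real.exp (-l)) (Real.exp (-x)) x := by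
    intro x _
    have h := ((hasDerivAt_neg x).exp).const_sub 1
    simpa using h
  have hv : ∀ x ∈ Ioi (0 : ℝ), HasDerivAt (fun l : ℝ => -(l ^ (-b)) / b) (x ^ (-1 - b)) x := by
    intro x hx
    have h : HasDerivAt (fun l : ℝ => -(l ^ (-b)) / b) (-(-b * x ^ (-b - 1)) / b) x :=
      ((Real.hasDerivAt_rpow_const (p := -b) (Or.inl (ne_of_gt hx))).neg).div_const b
    have h2 : -(-b * x ^ (-b - 1)) / b = x ^ (-1 - b) := by
      rw [show -b - 1 = -1 - b by ring]
      field_simp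
    rwa [h2] at h
  have hi1 : IntegrableOn ((fun l : ℝ => 1 - Real.exp (-l)) * fun l : ℝ => l ^ (-1 - b)) (Ioi 0) := by
    have h := integrableOn_exp_one hb hb1 (zero_le_one)
    simp only [one_mul] at h
    exact h
  have hG : IntegrableOn (fun x : ℝ => Real.exp (-x) * x ^ (1 - b - 1)) (Ioi 0) :=
    Real.GammaIntegral_convergent (by linarith)
  have hi2 : IntegrableOn ((fun l : ℝ => Real.exp (-l)) * fun l : ℝ => -(l ^ (-b)) / b) (Ioi 0) := by
    have h := (hG.mul_const (-1 / b))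
    refine h.congr (Eventually.of_forall fun x => ?_)
    show Real.exp (-x) * x ^ (1 - b - 1) * (-1 / b) = Real.exp (-x) * (-(x ^ (-b)) / b)
    rw [show 1 - b - 1 = -b by ring]
    ring
  have h0 : Tendsto ((fun l : ℝ => 1 - Real.exp (-l)) * fun l : ℝ => -(l ^ (-b)) / b)
      (𝓝[>] 0) (𝓝 0) := by
    have h1 : Tendsto (fun l : ℝ => l ^ (1 - b) / b) (𝓝[>] 0) (𝓝 0) := by
      have h2 : Tendsto (fun l : ℝ => l ^ (1 - b) / b) (𝓝 0) (𝓝 (0 ^ (1 - b) / b)) :=
        (Real.continuousAt_rpow_const 0 (1 - b) (Or.inr (by linarith))).tendsto.div_const b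
      rw [Real.zero_rpow (by linarith), zero_div] at h2
      exact h2.mono_left nhdsWithin_le_nhds
    refine squeeze_zero_norm' ?_ h1
    filter_upwards [self_mem_nhdsWithin] with l hl
    have hl0 : (0 : ℝ) < l := hl
    have h3 := one_sub_exp_bounds (zero_le_one (α := ℝ)) hl0.le
    rw [one_mul] at h3
    have h4 : 0 < l ^ (-b) := Real.rpow_pos_of_pos hl0 _
    show ‖(1 - Real.exp (-l)) * (-(l ^ (-b)) / b)‖ ≤ l ^ (1 - b) / b
    rw [norm_mul, Real.norm_of_nonneg h3.1, neg_div, norm_neg, Real.norm_of_nonneg (by positivity),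
      show (1 : ℝ) - b = 1 + -b by ring, Real.rpow_add hl0, Real.rpow_one, mul_div_assoc]
    have h5 : 1 - Real.exp (-l) ≤ l := by
      have := Real.add_one_le_exp (-l)
      linarith
    exact mul_le_mul_of_nonneg_right h5 (by positivity)
  have hinf : Tendsto ((fun l : ℝ => 1 - Real.exp (-l)) * fun l : ℝ => -(l ^ (-b)) / b)
      atTop (𝓝 0) := by
    have h1 : Tendsto (fun l : ℝ => l ^ (-b) / b) atTop (𝓝 0) := by
      have := (tendsto_rpow_neg_atTop hb).div_const b
      simpa using this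
    refine squeeze_zero_norm' ?_ h1
    filter_upwards [eventually_gt_atTop 0] with l hl0
    have h3 := one_sub_exp_bounds (zero_le_one (α := ℝ)) hl0.le
    rw [one_mul] at h3
    have h4 : 0 < l ^ (-b) := Real.rpow_pos_of_pos hl0 _
    show ‖(1 - Real.exp (-l)) * (-(l ^ (-b)) / b)‖ ≤ l ^ (-b) / b
    rw [norm_mul, Real.norm_of_nonneg h3.1, neg_div, norm_neg, Real.norm_of_nonneg (by positivity)]
    have h5 : 1 - Real.exp (-l) ≤ 1 := by
      have := Real.exp_pos (-l)
      linarith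
    calc (1 - Real.exp (-l)) * (l ^ (-b) / b) ≤ 1 * (l ^ (-b) / b) :=
          mul_le_mul_of_nonneg_right h5 (by positivity)
      _ = _ := one_mul _
  have h := integral_Ioi_mul_deriv_eq_deriv_mul hu hv hi1 hi2 h0 hinf
  rw [h, Real.Gamma_eq_integral (by linarith : (0 : ℝ) < 1 - b), sub_zero, zero_sub,
    ← integral_neg, ← integral_div]
  refine integral_congr_ae (Eventually.of_forall fun x => ?_)
  show -(Real.exp (-x) * (-(x ^ (-b)) / b)) = Real.exp (-x) * x ^ (1 - b - 1) / b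
  rw [show 1 - b - 1 = -b by ring]
  ring

theorem Lam_const {b : ℝ} (hb : 0 < b) (hb1 : b < 1) :
    b / Real.Gamma (1 - b) * (Real.Gamma (1 - b) / b) = 1 := by
  have h := Real.Gamma_pos_of_pos (by linarith : (0 : ℝ) < 1 - b)
  field_simp

variable {n : ℕ}

theorem exp_tau_scale {κ : Type} [Fintype κ] [DecidableEq κ] (s : κ → ℝ) (m : ℝ) (x : VN n)
    {l : ℝ} (hl : 0 ≤ l) :
    Real.exp (-(m * ‖√l • x‖ ^ 2)) * ∏ k, tau (s k) (eig (√l • x)) =
      ((n : ℝ) ^ Fintype.card κ)⁻¹ * ∑ f : κ → Fin n,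
        Real.exp (-((m * ‖x‖ ^ 2 + ∑ k, s k * eig x (f k)) * l)) := by
  have h1 : ∀ k, tau (s k) (eig (√l • x)) = (n : ℝ)⁻¹ * ∑ i, Real.exp (-(s k * (l * eig x i))) := by
    intro k
    unfold tau
    rw [eig_smul_sum x hl (fun y => Real.exp (-(s k * y)))]
    ring
  simp only [h1]
  rw [Finset.prod_mul_distrib, Finset.prod_const, Finset.prod_univ_sum, Fintype.piFinset_univ,
    Finset.card_univ, inv_pow, mul_left_comm, Finset.mul_sum]
  congr 1
  refine Finset.sum_congr rfl fun f _ => ?_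
  rw [← Real.exp_sum, ← Real.exp_add]
  congr 1
  rw [norm_smul, Real.norm_of_nonneg (Real.sqrt_nonneg l), mul_pow, Real.sq_sqrt hl,
    Finset.sum_neg_distrib, add_mul, Finset.sum_mul]
  have h2 : ∀ k, s k * (l * eig x (f k)) = s k * eig x (f k) * l := fun k => by ring
  simp only [h2]
  ring

theorem Lam_block (hn : 0 < n) {p m : ℝ} (hp0 : 0 < p) (hp2 : p < 2) (hm : 0 ≤ m) {κ : Type}
    [Fintype κ] [DecidableEq κ] (s : κ → ℝ) (hs : ∀ k, 0 ≤ s k) (x : VN n) :
    Lam p (fun x : VN n => Real.exp (-(m * ‖x‖ ^ 2)) * ∏ k, tau (s k) (eig x)) x =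
      ((n : ℝ) ^ Fintype.card κ)⁻¹ * ∑ f : κ → Fin n,
        (m * ‖x‖ ^ 2 + ∑ k, s k * eig x (f k)) ^ (p / 2) := by
  have hb : 0 < p / 2 := by positivity
  have hb1 : p / 2 < 1 := by linarith
  set z : (κ → Fin n) → ℝ := fun f => m * ‖x‖ ^ 2 + ∑ k, s k * eig x (f k) with hz
  have hz0 : ∀ f, 0 ≤ z f := fun f => add_nonneg (by positivity)
    (Finset.sum_nonneg fun k _ => mul_nonneg (hs k) (eig_nonneg _ _))
  have hnn : (n : ℝ) ^ Fintype.card κ ≠ 0 := by positivity
  have h0 : Real.exp (-(m * ‖(0 : VN n)‖ ^ 2)) * ∏ k, tau (s k) (eig (0 : VN n)) = 1 := by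
    have h := exp_tau_scale s m x (le_refl (0 : ℝ))
    simp only [Real.sqrt_zero, zero_smul, mul_zero, neg_zero, Real.exp_zero, Finset.sum_const,
      Finset.card_univ, Fintype.card_fun, Fintype.card_fin, nsmul_eq_mul, mul_one,
      Nat.cast_pow] at h
    rw [h, inv_mul_cancel₀ hnn]
  unfold Lam
  have h1 : ∫ l in Ioi (0 : ℝ), (Real.exp (-(m * ‖(0 : VN n)‖ ^ 2)) *
      ∏ k, tau (s k) (eig (0 : VN n)) - Real.exp (-(m * ‖√l • x‖ ^ 2)) *
        ∏ k, tau (s k) (eig (√l • x))) * l ^ (-1 - p / 2) =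
      ∫ l in Ioi (0 : ℝ), ((n : ℝ) ^ Fintype.card κ)⁻¹ * ∑ f : κ → Fin n,
        (1 - Real.exp (-(z f * l))) * l ^ (-1 - p / 2) := by
    refine setIntegral_congr_fun measurableSet_Ioi fun l hl => ?_
    have hl0 : (0 : ℝ) < l := hl
    show (_ - _) * _ = _
    rw [h0, exp_tau_scale s m x hl0.le, ← Finset.sum_mul, Finset.sum_sub_distrib]
    simp only [Finset.sum_const, Finset.card_univ, Fintype.card_fun, Fintype.card_fin,
      nsmul_eq_mul, mul_one, Nat.cast_pow]
    rw [show (∑ f : κ → Fin n, Real.exp (-((m * ‖x‖ ^ 2 + ∑ k, s k * eig x (f k)) * l))) =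
      ∑ f : κ → Fin n, Real.exp (-(z f * l)) from rfl, ← mul_assoc]
    congr 1
    rw [mul_sub, inv_mul_cancel₀ hnn]
  rw [h1, integral_const_mul, integral_finsetSum _ (fun f _ => integrableOn_exp_one hb hb1 (hz0 f))]
  simp only [integral_one_sub_exp hb (hz0 _), integral_one_sub_exp_rpow hb hb1]
  rw [← Finset.sum_mul, mul_left_comm, mul_left_comm (p / 2 / Real.Gamma (1 - p / 2)),
    Lam_const hb hb1, mul_one]

theorem block_rep (hn : 0 < n) {p m : ℝ} (hp0 : 0 < p) (hp2 : p < 2) (hm : 0 < m) {κ : Type}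
    [Fintype κ] (s : κ → ℝ) (hs : ∀ k, 0 ≤ s k) :
    IsBlock p (Lam p fun x : VN n => Real.exp (-(m * ‖x‖ ^ 2)) * ∏ k, tau (s k) (eig x)) := by
  classical
  have h := isBlock_tensor hp0 s hs (c := ((n : ℝ) ^ Fintype.card κ)⁻¹) (by positivity)
    (((√m : ℝ) : ℂ) • (LinearMap.id : VN n →ₗ[ℂ] VN n))
  have h2 : (fun x : VN n => ((n : ℝ) ^ Fintype.card κ)⁻¹ * ∑ f : κ → Fin n,
      (‖(((√m : ℝ) : ℂ) • (LinearMap.id : VN n →ₗ[ℂ] VN n)) x‖ ^ 2 +
        ∑ k, s k * eig x (f k)) ^ (p / 2)) =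
      Lam p fun x : VN n => Real.exp (-(m * ‖x‖ ^ 2)) * ∏ k, tau (s k) (eig x) := by
    funext x
    rw [Lam_block hn hp0 hp2 hm.le s hs x]
    have h3 : ‖(((√m : ℝ) : ℂ) • (LinearMap.id : VN n →ₗ[ℂ] VN n)) x‖ ^ 2 = m * ‖x‖ ^ 2 := by
      rw [LinearMap.smul_apply, LinearMap.id_apply, norm_smul, Complex.norm_real,
        Real.norm_of_nonneg (Real.sqrt_nonneg m), mul_pow, Real.sq_sqrt hm.le]
    rw [h3]
  rwa [h2] at h

end Value

end Pool.Agent.S91X
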