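import Mathlib

/-!
Poisson configurations of finitely many jumps, and the expansion of the exponential of an
integral as a mean of products.
-/

open MeasureTheory Set Filter Topology
open scoped Nat ENNReal

namespace Pool.Agent.S91X

/-- Finite configurations of jumps. -/
abbrev Cfg : Type := Σ K : ℕ, (Fin K → ℝ)

theorem measurableSet_cfg {s : Set Cfg} :
    MeasurableSet s ↔ ∀ K : ℕ, MeasurableSet ((fun v : Fin K → ℝ => (⟨K, v⟩ : Cfg)) ⁻¹' s) := by
  change MeasurableSet[⨅ K : ℕ, (inferInstance : MeasurableSpace (Fin K → ℝ)).map (Sigma.mk K)] s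
    ↔ _
  rw [MeasurableSpace.measurableSet_iInf]
  rfl

theorem measurable_cfg {β : Type*} [MeasurableSpace β] {f : Cfg → β} :
    Measurable f ↔ ∀ K : ℕ, Measurable (fun v : Fin K → ℝ => f ⟨K, v⟩) := by
  constructor
  · intro h K s hs
    exact measurableSet_cfg.1 (h hs) K
  · intro h s hs
    exact measurableSet_cfg.2 fun K => h K hs

theorem measurable_mk (K : ℕ) : Measurable (fun v : Fin K → ℝ => (⟨K, v⟩ : Cfg)) := by
  intro s hs
  exact measurableSet_cfg.1 hs K

theorem injective_mk (K : ℕ) :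
    Function.Injective (fun v : Fin K → ℝ => (⟨K, v⟩ : Cfg)) := by
  intro v v' h
  have h' := Sigma.mk.inj_iff.1 h
  exact eq_of_heq h'.2

theorem measurableEmbedding_mk (K : ℕ) :
    MeasurableEmbedding (fun v : Fin K → ℝ => (⟨K, v⟩ : Cfg)) where
  injective := injective_mk K
  measurable := measurable_mk K
  measurableSet_image' := by
    intro s hs
    rw [measurableSet_cfg]
    intro L
    by_cases h : L = K
    · subst h
      rwa [preimage_image_eq _ (injective_mk L)]
    · have : (fun v : Fin L → ℝ => (⟨L, v⟩ : Cfg)) ⁻¹'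
          ((fun v : Fin K → ℝ => (⟨K, v⟩ : Cfg)) '' s) = ∅ := by
        ext v
        simp only [mem_preimage, mem_image, mem_empty_iff_false, iff_false, not_exists, not_and]
        intro v' _ he
        exact h (congrArg Sigma.fst he).symm
      rw [this]
      exact MeasurableSet.empty

theorem measurable_prod_cfg' {α β : Type*} [MeasurableSpace α] [MeasurableSpace β]
    {f : α × Cfg → β} (h : ∀ K : ℕ, Measurable fun p : α × (Fin K → ℝ) => f (p.1, ⟨K, p.2⟩)) :
    Measurable f := by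
  intro s hs
  have h1 : f ⁻¹' s = ⋃ K : ℕ, (Prod.map id (fun v : Fin K → ℝ => (⟨K, v⟩ : Cfg))) ''
      ((fun p : α × (Fin K → ℝ) => f (p.1, ⟨K, p.2⟩)) ⁻¹' s) := by
    ext p
    obtain ⟨x, K, v⟩ := p
    simp only [mem_preimage, mem_iUnion, mem_image, Prod.map_apply, id_eq, Prod.mk.injEq,
      Prod.exists]
    constructor
    · intro hp
      exact ⟨K, x, v, hp, rfl, rfl⟩
    · rintro ⟨L, x', v', hp, rfl, hv⟩
      rw [← hv]
      exact hp
  rw [h1]
  exact MeasurableSet.iUnion fun K =>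
    ((MeasurableEmbedding.id).prodMap (measurableEmbedding_mk K)).measurableSet_image.2 (h K hs)

/-- The law of a Poisson configuration with finite intensity `μ`. -/
noncomputable def poi (μ : Measure ℝ) : Measure Cfg :=
  Measure.sum fun K : ℕ => ENNReal.ofReal (Real.exp (-(μ.real univ)) / K !) •
    (Measure.pi fun _ : Fin K => μ).map (fun v => (⟨K, v⟩ : Cfg))

variable {μ : Measure ℝ}

theorem lintegral_poi (f : Cfg → ℝ≥0∞) (hf : Measurable f) :
    ∫⁻ w, f w ∂(poi μ) = ∑' K : ℕ, ENNReal.ofReal (Real.exp (-(μ.real univ)) / K !) *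
      ∫⁻ v, f ⟨K, v⟩ ∂(Measure.pi fun _ : Fin K => μ) := by
  unfold poi
  rw [lintegral_sum_measure]
  congr 1
  ext K
  rw [lintegral_smul_measure, lintegral_map hf (measurable_mk K), smul_eq_mul]

theorem hasSum_poi (x y : ℝ) :
    HasSum (fun K : ℕ => Real.exp (-x) / K ! * y ^ K) (Real.exp (y - x)) := by
  have h1 : HasSum (fun K : ℕ => y ^ K / K !) (Real.exp y) := by
    rw [Real.exp_eq_exp_ℝ]
    exact NormedSpace.expSeries_div_hasSum_exp (𝔸 := ℝ) y
  have h2 := h1.mul_left (Real.exp (-x))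
  have h3 : Real.exp (-x) * Real.exp y = Real.exp (y - x) := by
    rw [← Real.exp_add]
    congr 1
    ring
  rw [h3] at h2
  refine h2.congr_fun ?_
  intro K
  ring

variable [IsFiniteMeasure μ]

theorem pi_univ (K : ℕ) :
    (Measure.pi fun _ : Fin K => μ) univ = ENNReal.ofReal (μ.real univ ^ K) := by
  rw [Measure.pi_univ, Finset.prod_const, Finset.card_univ, Fintype.card_fin, Measure.real,
    ← ENNReal.toReal_pow, ENNReal.ofReal_toReal (ENNReal.pow_ne_top (measure_ne_top μ univ))]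

instance isProbabilityMeasure_poi : IsProbabilityMeasure (poi μ) := by
  constructor
  have h := lintegral_poi (μ := μ) (fun _ => 1) measurable_const
  rw [lintegral_one] at h
  rw [h]
  have h2 : ∀ K : ℕ, ENNReal.ofReal (Real.exp (-(μ.real univ)) / K !) *
      ∫⁻ _v : Fin K → ℝ, 1 ∂(Measure.pi fun _ : Fin K => μ) =
      ENNReal.ofReal (Real.exp (-(μ.real univ)) / K ! * μ.real univ ^ K) := by
    intro K
    rw [lintegral_one, pi_univ, ENNReal.ofReal_mul (by positivity)]
  simp_rw [h2]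
  have h3 := hasSum_poi (μ.real univ) (μ.real univ)
  rw [← ENNReal.ofReal_tsum_of_nonneg (fun K => by positivity) h3.summable, h3.tsum_eq]
  simp

omit [IsFiniteMeasure μ] in
/-- The configuration is empty with probability `exp (-λ)`, `λ` the total mass. -/
theorem poi_empty : poi μ {w | w.1 = 0} = ENNReal.ofReal (Real.exp (-(μ.real univ))) := by
  have hm : MeasurableSet {w : Cfg | w.1 = 0} := by
    rw [measurableSet_cfg]
    intro K
    by_cases h : K = 0
    · simp [h]
    · simp [h]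
  rw [← lintegral_indicator_one hm, lintegral_poi _ (measurable_one.indicator hm),
    tsum_eq_single 0]
  · have h1 : ∀ v : Fin 0 → ℝ, ({w : Cfg | w.1 = 0}.indicator (1 : Cfg → ℝ≥0∞)) ⟨0, v⟩ = 1 := by
      intro v
      simp
    simp_rw [h1]
    simp
  · intro K hK
    have h1 : ∀ v : Fin K → ℝ, ({w : Cfg | w.1 = 0}.indicator (1 : Cfg → ℝ≥0∞)) ⟨K, v⟩ = 0 := by
      intro v
      simp [hK]
    simp_rw [h1]
    simp

theorem ae_pi_all (K : ℕ) {Q : ℝ → Prop} (h : ∀ᵐ t ∂μ, Q t) :
    ∀ᵐ v ∂(Measure.pi fun _ : Fin K => μ), ∀ k, Q (v k) := by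
  refine eventually_all.2 fun k => ?_
  exact (Measure.tendsto_eval_ae_ae (μ := fun _ : Fin K => μ) (i := k)).eventually h

theorem ae_poi {Q : ℝ → Prop} (h : ∀ᵐ t ∂μ, Q t) : ∀ᵐ w ∂(poi μ), ∀ k, Q (w.2 k) := by
  obtain ⟨N, hN1, hN2, hN3⟩ := exists_measurable_superset_of_null (ae_iff.1 h)
  have hm : MeasurableSet {w : Cfg | ∀ k, w.2 k ∉ N} := by
    rw [measurableSet_cfg]
    intro K
    have : ((fun v : Fin K → ℝ => (⟨K, v⟩ : Cfg)) ⁻¹' {w : Cfg | ∀ k, w.2 k ∉ N}) =
        ⋂ k : Fin K, (fun v : Fin K → ℝ => v k) ⁻¹' Nᶜ := by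
      ext v
      simp
    rw [this]
    exact MeasurableSet.iInter fun k => measurable_pi_apply k hN2.compl
  have h2 : ∀ᵐ w ∂(poi μ), ∀ k, w.2 k ∉ N := by
    unfold poi
    rw [Measure.ae_sum_iff]
    intro K
    refine Measure.ae_smul_measure ?_ _
    rw [ae_map_iff (measurable_mk K).aemeasurable hm]
    have h3 : ∀ᵐ t ∂μ, t ∉ N := by
      rw [ae_iff]
      simpa using hN3
    exact ae_pi_all K h3
  filter_upwards [h2] with w hw k
  by_contra hQ
  exact hw k (hN1 hQ)

theorem measurable_prod_cfg {g : ℝ → ℝ} (hg : Measurable g) :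
    Measurable fun w : Cfg => ∏ k, g (w.2 k) := by
  rw [measurable_cfg]
  intro K
  change Measurable fun v : Fin K → ℝ => ∏ k, g (v k)
  fun_prop

theorem integrable_poi {g : ℝ → ℝ} (hg : Measurable g) (h : ∀ᵐ t ∂μ, |g t| ≤ 1) :
    Integrable (fun w : Cfg => ∏ k, g (w.2 k)) (poi μ) := by
  refine Integrable.of_bound (measurable_prod_cfg hg).aestronglyMeasurable 1 ?_
  filter_upwards [ae_poi h] with w hw
  rw [Real.norm_eq_abs, Finset.abs_prod]
  exact Finset.prod_le_one (fun k _ => abs_nonneg _) fun k _ => hw k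

/-- The mean of a product over the jumps. -/
theorem integral_poi {g : ℝ → ℝ} (hg : Measurable g) (h : ∀ᵐ t ∂μ, |g t| ≤ 1) :
    ∫ w : Cfg, ∏ k, g (w.2 k) ∂(poi μ) = Real.exp (-∫ t, (1 - g t) ∂μ) := by
  have hi := integrable_poi hg h
  have hgi : Integrable g μ :=
    Integrable.of_bound hg.aestronglyMeasurable 1 (by simpa using h)
  have h1 : ∀ K : ℕ, ∫ w : Cfg, ∏ k, g (w.2 k) ∂(ENNReal.ofReal
      (Real.exp (-(μ.real univ)) / K !) •
      (Measure.pi fun _ : Fin K => μ).map (fun v => (⟨K, v⟩ : Cfg))) =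
      Real.exp (-(μ.real univ)) / K ! * (∫ t, g t ∂μ) ^ K := by
    intro K
    rw [integral_smul_measure, integral_map (measurable_mk K).aemeasurable
      (measurable_prod_cfg hg).aestronglyMeasurable, ENNReal.toReal_ofReal (by positivity),
      integral_fintype_prod_eq_pow, Fintype.card_fin, smul_eq_mul]
  have h2 : HasSum (fun K : ℕ => Real.exp (-(μ.real univ)) / K ! * (∫ t, g t ∂μ) ^ K)
      (∫ w : Cfg, ∏ k, g (w.2 k) ∂(poi μ)) := by
    have := hasSum_integral_measure (show Integrable (fun w : Cfg => ∏ k, g (w.2 k))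
      (Measure.sum fun K : ℕ => ENNReal.ofReal (Real.exp (-(μ.real univ)) / K !) •
      (Measure.pi fun _ : Fin K => μ).map (fun v => (⟨K, v⟩ : Cfg))) from hi)
    simp_rw [h1] at this
    exact this
  have h3 := hasSum_poi (μ.real univ) (∫ t, g t ∂μ)
  rw [h2.unique h3, integral_sub (integrable_const _) hgi]
  congr 1
  simp

end Pool.Agent.S91X
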