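import Pool.Agent.S91X.Base
import Pool.Agent.S91X.Poisson
import Pool.Agent.S50X.Stable

/-!
The exact identity: a power sum of eigenvalues as a mixture over Poisson configurations.
-/

open MeasureTheory Set Filter Topology
open Pool.Agent.S50X (integral_scale integrableOn_mul_rpow one_sub_exp_bounds
  integrableOn_exp_one integral_exp_one_pos integral_exp_pos integrableOn_exp
  integral_one_sub_exp integral_stable_scale)

namespace Pool.Agent.S91X

/-- The jump measure with density `η⁻¹ t ^ (-1 - a)` on `S`. -/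
noncomputable def jmp (η a : ℝ) (S : Set ℝ) : Measure ℝ :=
  (volume.restrict S).withDensity fun t => ENNReal.ofReal (η⁻¹ * t ^ (-1 - a))

theorem integral_jmp {η a : ℝ} (hη : 0 < η) {S : Set ℝ} (hS : MeasurableSet S)
    (hS0 : S ⊆ Ioi 0) (f : ℝ → ℝ) :
    ∫ t, f t ∂(jmp η a S) = η⁻¹ * ∫ t in S, f t * t ^ (-1 - a) := by
  unfold jmp
  rw [integral_withDensity_eq_integral_toReal_smul (by fun_prop)
    (ae_of_all _ fun x => ENNReal.ofReal_lt_top), ← integral_const_mul]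
  refine setIntegral_congr_fun hS fun x hx => ?_
  have hx0 : (0 : ℝ) < x := hS0 hx
  have h2 := Real.rpow_pos_of_pos hx0 (-1 - a)
  have h3 : 0 ≤ η⁻¹ * x ^ (-1 - a) := by positivity
  simp only [smul_eq_mul]
  rw [ENNReal.toReal_ofReal h3]
  ring

theorem isFiniteMeasure_jmp {η a δ : ℝ} (ha : 0 < a) (hδ : 0 < δ) {S : Set ℝ}
    (hS0 : S ⊆ Ioi δ) : IsFiniteMeasure (jmp η a S) := by
  unfold jmp
  refine isFiniteMeasure_withDensity_ofReal ?_
  have h1 : IntegrableOn (fun t : ℝ => t ^ (-1 - a)) (Ioi δ) :=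
    integrableOn_Ioi_rpow_of_lt (by linarith) hδ
  exact ((h1.mono_set hS0).const_mul _).2

theorem ae_jmp {η a : ℝ} {S : Set ℝ} (hS : MeasurableSet S) : ∀ᵐ t ∂(jmp η a S), t ∈ S := by
  unfold jmp
  exact (withDensity_absolutelyContinuous _ _).ae_le (ae_restrict_mem hS)

variable {n : ℕ} [NeZero n]

omit [NeZero n] in
theorem tau_nonneg (s : ℝ) (y : Fin n → ℝ) : 0 ≤ tau s y := by
  unfold tau
  positivity

theorem one_sub_tau (s : ℝ) (y : Fin n → ℝ) :
    1 - tau s y = (∑ i, (1 - Real.exp (-(s * y i)))) / n := by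
  have hn : (n : ℝ) ≠ 0 := Nat.cast_ne_zero.2 (NeZero.ne n)
  unfold tau
  rw [Finset.sum_sub_distrib]
  simp only [Finset.sum_const, Finset.card_univ, Fintype.card_fin, nsmul_eq_mul, mul_one]
  field_simp

theorem tau_le_one {s : ℝ} (hs : 0 ≤ s) {y : Fin n → ℝ} (hy : ∀ i, 0 ≤ y i) : tau s y ≤ 1 := by
  have h := one_sub_tau s y
  have h2 : 0 ≤ (∑ i, (1 - Real.exp (-(s * y i)))) / n := by
    refine div_nonneg (Finset.sum_nonneg fun i _ => ?_) (Nat.cast_nonneg n)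
    exact (one_sub_exp_bounds hs (hy i)).1
  linarith

omit [NeZero n] in
theorem measurable_tau (y : Fin n → ℝ) : Measurable fun s : ℝ => tau s y := by
  unfold tau
  fun_prop

/-- The constant `∫ (1 - exp (-x)) x ^ (-1 - a)`. -/
noncomputable def kap (a : ℝ) : ℝ := ∫ x in Ioi (0 : ℝ), (1 - Real.exp (-x)) * x ^ (-1 - a)

theorem kap_pos {a : ℝ} (ha : 0 < a) (ha1 : a < 1) : 0 < kap a := by
  have := integral_exp_one_pos ha ha1 one_pos
  simp only [one_mul] at this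
  exact this

theorem integrableOn_tau {a η : ℝ} (ha : 0 < a) (ha1 : a < 1) (hη : 0 < η) {y : Fin n → ℝ}
    (hy : ∀ i, 0 ≤ y i) :
    IntegrableOn (fun t : ℝ => (1 - tau (η * t) y) * t ^ (-1 - a)) (Ioi 0) := by
  have h1 : ∀ t : ℝ, (1 - tau (η * t) y) * t ^ (-1 - a) =
      (∑ i, (1 - Real.exp (-((η * y i) * t))) * t ^ (-1 - a)) / n := by
    intro t
    rw [one_sub_tau, ← Finset.sum_mul]
    have : ∀ i, η * t * y i = η * y i * t := fun i => by ring
    simp_rw [this]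
    ring
  simp_rw [h1]
  refine Integrable.div_const (integrable_finsetSum _ fun i _ => ?_) _
  exact integrableOn_exp_one ha ha1 (mul_nonneg hη.le (hy i))

theorem integral_tau {a η : ℝ} (ha : 0 < a) (ha1 : a < 1) (hη : 0 < η) {y : Fin n → ℝ}
    (hy : ∀ i, 0 ≤ y i) :
    ∫ t in Ioi (0 : ℝ), (1 - tau (η * t) y) * t ^ (-1 - a) =
      η ^ a * kap a / n * ∑ i, y i ^ a := by
  have h1 : ∀ t : ℝ, (1 - tau (η * t) y) * t ^ (-1 - a) =
      (∑ i, (1 - Real.exp (-((η * y i) * t))) * t ^ (-1 - a)) / n := by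
    intro t
    rw [one_sub_tau, ← Finset.sum_mul]
    have : ∀ i, η * t * y i = η * y i * t := fun i => by ring
    simp_rw [this]
    ring
  simp_rw [h1]
  rw [integral_div, integral_finsetSum _ fun i _ =>
    integrableOn_exp_one ha ha1 (mul_nonneg hη.le (hy i))]
  have h2 : ∀ i, ∫ t in Ioi (0 : ℝ), (1 - Real.exp (-((η * y i) * t))) * t ^ (-1 - a) =
      η ^ a * kap a * y i ^ a := by
    intro i
    rw [integral_one_sub_exp ha (mul_nonneg hη.le (hy i)), Real.mul_rpow hη.le (hy i)]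
    unfold kap
    ring
  simp_rw [h2]
  rw [← Finset.mul_sum]
  ring

/-- The part of the exponent with jumps below one. -/
noncomputable def psiE (η a : ℝ) (y : Fin n → ℝ) : ℝ :=
  Real.exp (-(η⁻¹ * ∫ t in Ioc (0 : ℝ) 1, (1 - tau (η * t) y) * t ^ (-1 - a)))

/-- The constant in the exponent. -/
noncomputable def cMain (η a : ℝ) (n : ℕ) : ℝ := η⁻¹ * (η ^ a * kap a / n)

theorem cMain_pos {a η : ℝ} (ha : 0 < a) (ha1 : a < 1) (hη : 0 < η) : 0 < cMain η a n := by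
  have hn : (0 : ℝ) < n := Nat.cast_pos.2 (NeZero.pos n)
  have := kap_pos ha ha1
  unfold cMain
  positivity

theorem ae_abs_tau {a η : ℝ} (hη : 0 < η) {y : Fin n → ℝ} (hy : ∀ i, 0 ≤ y i)
    {S : Set ℝ} (hS : MeasurableSet S) (hS0 : S ⊆ Ioi 0) :
    ∀ᵐ t ∂(jmp η a S), |tau (η * t) y| ≤ 1 := by
  filter_upwards [ae_jmp hS] with t ht
  have ht0 : (0 : ℝ) < t := hS0 ht
  rw [abs_of_nonneg (tau_nonneg _ _)]
  exact tau_le_one (by positivity) hy

/-- The mean over the configurations with jumps in `S`. -/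
theorem integral_cfg {a η δ : ℝ} (ha : 0 < a) (hη : 0 < η) (hδ : 0 < δ) {y : Fin n → ℝ}
    (hy : ∀ i, 0 ≤ y i) {S : Set ℝ} (hS : MeasurableSet S) (hS0 : S ⊆ Ioi δ) :
    ∫ w : Cfg, ∏ k, tau (η * w.2 k) y ∂(poi (jmp η a S)) =
      Real.exp (-(η⁻¹ * ∫ t in S, (1 - tau (η * t) y) * t ^ (-1 - a))) := by
  have := isFiniteMeasure_jmp (η := η) ha hδ hS0
  have hS1 : S ⊆ Ioi 0 := hS0.trans (Ioi_subset_Ioi hδ.le)
  have hm : Measurable fun t : ℝ => tau (η * t) y := (measurable_tau y).comp (by fun_prop)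
  rw [integral_poi hm (ae_abs_tau hη hy hS hS1), integral_jmp hη hS hS1]

theorem exp_split {a η : ℝ} (ha : 0 < a) (ha1 : a < 1) (hη : 0 < η) {y : Fin n → ℝ}
    (hy : ∀ i, 0 ≤ y i) :
    Real.exp (-(cMain η a n * ∑ i, y i ^ a)) =
      psiE η a y * ∫ w : Cfg, ∏ k, tau (η * w.2 k) y ∂(poi (jmp η a (Ioi 1))) := by
  rw [integral_cfg ha hη one_pos hy measurableSet_Ioi (subset_refl _)]
  unfold psiE
  rw [← Real.exp_add]
  congr 1
  have h1 := integral_tau ha ha1 hη hy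
  have h2 := integrableOn_tau ha ha1 hη hy
  rw [← Ioc_union_Ioi_eq_Ioi (zero_le_one' ℝ), setIntegral_union
    (Ioc_disjoint_Ioi le_rfl) measurableSet_Ioi
    (h2.mono_set Ioc_subset_Ioi_self) (h2.mono_set (Ioi_subset_Ioi zero_le_one))] at h1
  unfold cMain
  have h3 : η⁻¹ * (η ^ a * kap a / n) * ∑ i, y i ^ a =
      η⁻¹ * (η ^ a * kap a / n * ∑ i, y i ^ a) := by ring
  rw [h3, ← h1]
  ring

/-- The truncated exponent is a mixture of finite blocks. -/
theorem psi_trunc {a η δ m : ℝ} (ha : 0 < a) (hη : 0 < η) (hδ : 0 < δ) {y : Fin n → ℝ}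
    (hy : ∀ i, 0 ≤ y i) :
    Real.exp (-(η⁻¹ * ∫ t in Ioc δ 1, (1 - tau (η * t) y) * t ^ (-1 - a)) - m * ∑ i, y i) =
      ∫ w : Cfg, Real.exp (-(m * ∑ i, y i)) * ∏ k, tau (η * w.2 k) y
        ∂(poi (jmp η a (Ioc δ 1))) := by
  rw [integral_const_mul, integral_cfg ha hη hδ hy measurableSet_Ioc Ioc_subset_Ioi_self,
    ← Real.exp_add]
  congr 1
  ring

/-- Tonelli for the operator `φ ↦ ∫ (1 - φ l) l ^ (-1 - b)`. -/
theorem lam_mix {Ω : Type*} [MeasurableSpace Ω] {P : Measure Ω} [IsProbabilityMeasure P]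
    {b : ℝ} {F : Ω → ℝ → ℝ} (hm : Measurable fun p : ℝ × Ω => F p.2 p.1)
    (h0 : ∀ᵐ w ∂P, ∀ l, 0 < l → 0 ≤ F w l ∧ F w l ≤ 1)
    (hint : IntegrableOn (fun l : ℝ => (1 - ∫ w, F w l ∂P) * l ^ (-1 - b)) (Ioi 0)) :
    (∀ᵐ w ∂P, IntegrableOn (fun l : ℝ => (1 - F w l) * l ^ (-1 - b)) (Ioi 0)) ∧
    Integrable (fun w => ∫ l in Ioi (0 : ℝ), (1 - F w l) * l ^ (-1 - b)) P ∧
    ∫ w, (∫ l in Ioi (0 : ℝ), (1 - F w l) * l ^ (-1 - b)) ∂P =
      ∫ l in Ioi (0 : ℝ), (1 - ∫ w, F w l ∂P) * l ^ (-1 - b) := by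
  have hmG : Measurable fun p : ℝ × Ω => (1 - F p.2 p.1) * p.1 ^ (-1 - b) :=
    (measurable_const.sub hm).mul (measurable_fst.pow_const _)
  have hF : ∀ l, 0 < l → Integrable (fun w => F w l) P := by
    intro l hl
    refine Integrable.of_bound (hm.comp (measurable_prodMk_left)).aestronglyMeasurable 1 ?_
    filter_upwards [h0] with w hw
    rw [Real.norm_eq_abs, abs_of_nonneg (hw l hl).1]
    exact (hw l hl).2
  have hnorm : ∀ l, 0 < l → ∫ w, ‖(1 - F w l) * l ^ (-1 - b)‖ ∂P =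
      (1 - ∫ w, F w l ∂P) * l ^ (-1 - b) := by
    intro l hl
    have h1 : ∫ w, ‖(1 - F w l) * l ^ (-1 - b)‖ ∂P = ∫ w, (1 - F w l) * l ^ (-1 - b) ∂P := by
      refine integral_congr_ae ?_
      filter_upwards [h0] with w hw
      rw [Real.norm_eq_abs, abs_of_nonneg]
      exact mul_nonneg (by linarith [(hw l hl).2]) (Real.rpow_nonneg hl.le _)
    rw [h1, integral_mul_const, integral_sub (integrable_const _) (hF l hl)]
    simp
  have hI : Integrable (fun p : ℝ × Ω => (1 - F p.2 p.1) * p.1 ^ (-1 - b))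
      ((volume.restrict (Ioi (0 : ℝ))).prod P) := by
    rw [integrable_prod_iff hmG.aestronglyMeasurable]
    constructor
    · refine (ae_restrict_iff' measurableSet_Ioi).2 (ae_of_all _ fun l hl => ?_)
      exact ((integrable_const (1 : ℝ)).sub (hF l hl)).mul_const (l ^ (-1 - b))
    · refine hint.congr ?_
      refine (ae_restrict_iff' measurableSet_Ioi).2 (ae_of_all _ fun l hl => ?_)
      exact (hnorm l hl).symm
  refine ⟨hI.prod_left_ae, hI.integral_prod_right, ?_⟩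
  rw [← integral_integral_swap (f := fun (l : ℝ) (w : Ω) => (1 - F w l) * l ^ (-1 - b)) hI]
  refine setIntegral_congr_fun measurableSet_Ioi fun l hl => ?_
  change ∫ w, (1 - F w l) * l ^ (-1 - b) ∂P = (1 - ∫ w, F w l ∂P) * l ^ (-1 - b)
  rw [integral_mul_const, integral_sub (integrable_const _) (hF l hl)]
  simp

/-! ### Measurability along rays -/

omit [NeZero n] in
theorem measurable_tau_ray (y : Fin n → ℝ) :
    Measurable fun p : ℝ × ℝ => tau p.1 (p.2 • y) := by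
  unfold tau
  simp only [Pi.smul_apply, smul_eq_mul]
  fun_prop

omit [NeZero n] in
theorem measurable_prod_tau_ray (η : ℝ) (y : Fin n → ℝ) :
    Measurable fun p : ℝ × Cfg => ∏ k, tau (η * p.2.2 k) (p.1 • y) := by
  refine measurable_prod_cfg' fun K => ?_
  change Measurable fun p : ℝ × (Fin K → ℝ) => ∏ k, tau (η * p.2 k) (p.1 • y)
  refine Finset.measurable_fun_prod _ fun k _ => ?_
  exact (measurable_tau_ray y).comp (by fun_prop : Measurable
    fun p : ℝ × (Fin K → ℝ) => (η * p.2 k, p.1))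

omit [NeZero n] in
theorem measurable_exponent_ray (η a : ℝ) (S : Set ℝ) (y : Fin n → ℝ) :
    Measurable fun l : ℝ => ∫ t in S, (1 - tau (η * t) (l • y)) * t ^ (-1 - a) := by
  have h1 : Measurable fun p : ℝ × ℝ => (1 - tau (η * p.2) (p.1 • y)) * p.2 ^ (-1 - a) := by
    refine (measurable_const.sub ?_).mul (measurable_snd.pow_const _)
    exact (measurable_tau_ray y).comp (by fun_prop : Measurable
      fun p : ℝ × ℝ => (η * p.2, p.1))
  exact (h1.stronglyMeasurable.integral_prod_right (ν := volume.restrict S)).measurable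

omit [NeZero n] in
theorem measurable_psiE_ray (η a : ℝ) (y : Fin n → ℝ) :
    Measurable fun l : ℝ => psiE η a (l • y) := by
  unfold psiE
  exact Real.measurable_exp.comp ((measurable_exponent_ray η a (Ioc 0 1) y).const_mul _).neg

omit [NeZero n] in
theorem smul_nonneg' {l : ℝ} (hl : 0 < l) {y : Fin n → ℝ} (hy : ∀ i, 0 ≤ y i) :
    ∀ i, 0 ≤ (l • y) i := fun i => by
  simp only [Pi.smul_apply, smul_eq_mul]
  exact mul_nonneg hl.le (hy i)

theorem exponent_nonneg {η : ℝ} (hη : 0 < η) (a : ℝ) {S : Set ℝ} (hS : MeasurableSet S)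
    (hS0 : S ⊆ Ioi 0) {y : Fin n → ℝ} (hy : ∀ i, 0 ≤ y i) :
    0 ≤ ∫ t in S, (1 - tau (η * t) y) * t ^ (-1 - a) := by
  refine setIntegral_nonneg hS fun t ht => ?_
  have ht0 : (0 : ℝ) < t := hS0 ht
  have := tau_le_one (mul_pos hη ht0).le hy
  exact mul_nonneg (by linarith) (Real.rpow_nonneg ht0.le _)

theorem psiE_bounds {η : ℝ} (hη : 0 < η) (a : ℝ) {y : Fin n → ℝ} (hy : ∀ i, 0 ≤ y i) :
    0 ≤ psiE η a y ∧ psiE η a y ≤ 1 := by
  refine ⟨(Real.exp_pos _).le, Real.exp_le_one_iff.2 ?_⟩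
  have := exponent_nonneg hη a measurableSet_Ioc
    (show Ioc (0 : ℝ) 1 ⊆ Ioi 0 from Ioc_subset_Ioi_self) hy
  have h2 : 0 ≤ η⁻¹ * ∫ t in Ioc (0 : ℝ) 1, (1 - tau (η * t) y) * t ^ (-1 - a) := by positivity
  linarith

theorem prod_tau_bounds {η : ℝ} (hη : 0 < η) {y : Fin n → ℝ} (hy : ∀ i, 0 ≤ y i) {w : Cfg}
    (hw : ∀ k, 0 < w.2 k) :
    0 ≤ ∏ k, tau (η * w.2 k) y ∧ ∏ k, tau (η * w.2 k) y ≤ 1 :=
  ⟨Finset.prod_nonneg fun _ _ => tau_nonneg _ _,
    Finset.prod_le_one (fun _ _ => tau_nonneg _ _)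
      fun k _ => tau_le_one (mul_pos hη (hw k)).le hy⟩

/-- The exact identity. -/
theorem lam_exact {a b η : ℝ} (hb : 0 < b) (hba : b < a) (ha1 : a < 1) (hη : 0 < η) :
    ∃ C : ℝ, 0 < C ∧ ∀ y : Fin n → ℝ, (∀ i, 0 ≤ y i) →
      (∀ᵐ w ∂(poi (jmp η a (Ioi 1))), IntegrableOn (fun l : ℝ =>
        (1 - psiE η a (l • y) * ∏ k, tau (η * w.2 k) (l • y)) * l ^ (-1 - b)) (Ioi 0)) ∧
      Integrable (fun w : Cfg => ∫ l in Ioi (0 : ℝ),
        (1 - psiE η a (l • y) * ∏ k, tau (η * w.2 k) (l • y)) * l ^ (-1 - b))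
        (poi (jmp η a (Ioi 1))) ∧
      ∫ w : Cfg, (∫ l in Ioi (0 : ℝ),
        (1 - psiE η a (l • y) * ∏ k, tau (η * w.2 k) (l • y)) * l ^ (-1 - b))
        ∂(poi (jmp η a (Ioi 1))) = C * (∑ i, y i ^ a) ^ (b / a) := by
  have ha : 0 < a := hb.trans hba
  have hc : 0 < cMain η a n := cMain_pos ha ha1 hη
  refine ⟨∫ l in Ioi (0 : ℝ), (1 - Real.exp (-(cMain η a n * l ^ a))) * l ^ (-1 - b),
    integral_exp_pos hb hba hc, fun y hy => ?_⟩
  have := isFiniteMeasure_jmp (η := η) ha one_pos (subset_refl (Ioi (1 : ℝ)))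
  have hR : 0 ≤ ∑ i, y i ^ a := Finset.sum_nonneg fun i _ => Real.rpow_nonneg (hy i) _
  have hmean : ∀ l : ℝ, 0 < l → ∫ w : Cfg, psiE η a (l • y) * ∏ k, tau (η * w.2 k) (l • y)
      ∂(poi (jmp η a (Ioi 1))) = Real.exp (-(cMain η a n * (∑ i, y i ^ a) * l ^ a)) := by
    intro l hl
    rw [integral_const_mul, ← exp_split ha ha1 hη (smul_nonneg' hl hy)]
    congr 2
    have h1 : ∀ i, (l • y) i ^ a = l ^ a * y i ^ a := by
      intro i
      rw [Pi.smul_apply, smul_eq_mul, Real.mul_rpow hl.le (hy i)]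
    simp_rw [h1]
    rw [← Finset.mul_sum]
    ring
  have hcongr : ∀ l ∈ Ioi (0 : ℝ), (1 - ∫ w : Cfg, psiE η a (l • y) *
      ∏ k, tau (η * w.2 k) (l • y) ∂(poi (jmp η a (Ioi 1)))) * l ^ (-1 - b) =
      (1 - Real.exp (-(cMain η a n * (∑ i, y i ^ a) * l ^ a))) * l ^ (-1 - b) := by
    intro l hl
    rw [hmean l hl]
  have hmain := lam_mix (P := poi (jmp η a (Ioi 1))) (b := b)
    (F := fun w l => psiE η a (l • y) * ∏ k, tau (η * w.2 k) (l • y)) ?_ ?_ ?_
  · refine ⟨hmain.1, hmain.2.1, ?_⟩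
    rw [hmain.2.2, setIntegral_congr_fun measurableSet_Ioi hcongr,
      integral_stable_scale hb hba hR]
    ring
  · exact ((measurable_psiE_ray η a y).comp measurable_fst).mul (measurable_prod_tau_ray η y)
  · filter_upwards [ae_poi (ae_jmp (η := η) (a := a) measurableSet_Ioi)] with w hw l hl
    have hw0 : ∀ k, 0 < w.2 k := fun k => lt_trans one_pos (hw k)
    have h1 := psiE_bounds hη a (smul_nonneg' hl hy)
    have h2 := prod_tau_bounds hη (smul_nonneg' hl hy) hw0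
    exact ⟨mul_nonneg h1.1 h2.1, mul_le_one₀ h1.2 h2.1 h2.2⟩
  · refine IntegrableOn.congr_fun ?_ (fun l hl => (hcongr l hl).symm) measurableSet_Ioi
    exact integrableOn_exp hb hba (mul_nonneg hc.le hR)

/-! ### Truncated exponents -/

theorem one_sub_tau_le {s : ℝ} (hs : 0 ≤ s) {y : Fin n → ℝ} (hy : ∀ i, 0 ≤ y i) :
    1 - tau s y ≤ s * ((∑ i, y i) / n) := by
  have hn : (0 : ℝ) < n := Nat.cast_pos.2 (NeZero.pos n)
  rw [one_sub_tau, Finset.sum_div, Finset.sum_div, Finset.mul_sum]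
  refine Finset.sum_le_sum fun i _ => ?_
  rw [← mul_div_assoc]
  exact div_le_div_of_nonneg_right (one_sub_exp_bounds hs (hy i)).2.2 hn.le

/-- `1 - ∏ x ≤ ∑ (1 - x)` for numbers in the unit interval. -/
theorem one_sub_prod_le {K : ℕ} {x : Fin K → ℝ} (h0 : ∀ k, 0 ≤ x k) (h1 : ∀ k, x k ≤ 1) :
    1 - ∏ k, x k ≤ ∑ k, (1 - x k) := by
  induction K with
  | zero => simp
  | succ K ih =>
    rw [Fin.prod_univ_succ, Fin.sum_univ_succ]
    have h2 := ih (x := fun k => x k.succ) (fun k => h0 _) (fun k => h1 _)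
    have h3 : 0 ≤ ∏ k : Fin K, x k.succ := Finset.prod_nonneg fun k _ => h0 _
    have h4 : ∏ k : Fin K, x k.succ ≤ 1 := Finset.prod_le_one (fun k _ => h0 _) fun k _ => h1 _
    nlinarith [h0 0, h1 0]

/-- The scaling integral of the limit function. -/
theorem integral_main {a b η : ℝ} (hb : 0 < b) (hba : b < a) (ha1 : a < 1) (hη : 0 < η) :
    ∃ C : ℝ, 0 < C ∧ ∀ y : Fin n → ℝ, (∀ i, 0 ≤ y i) →
      IntegrableOn (fun l : ℝ => (1 - Real.exp (-(cMain η a n * ∑ i, (l * y i) ^ a))) *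
        l ^ (-1 - b)) (Ioi 0) ∧
      ∫ l in Ioi (0 : ℝ), (1 - Real.exp (-(cMain η a n * ∑ i, (l * y i) ^ a))) *
        l ^ (-1 - b) = C * (∑ i, y i ^ a) ^ (b / a) := by
  have ha : 0 < a := hb.trans hba
  have hc : 0 < cMain η a n := cMain_pos ha ha1 hη
  refine ⟨∫ l in Ioi (0 : ℝ), (1 - Real.exp (-(cMain η a n * l ^ a))) * l ^ (-1 - b),
    integral_exp_pos hb hba hc, fun y hy => ?_⟩
  have hR : 0 ≤ ∑ i, y i ^ a := Finset.sum_nonneg fun i _ => Real.rpow_nonneg (hy i) _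
  have hcongr : ∀ l ∈ Ioi (0 : ℝ), (1 - Real.exp (-(cMain η a n * ∑ i, (l * y i) ^ a))) *
      l ^ (-1 - b) =
      (1 - Real.exp (-(cMain η a n * (∑ i, y i ^ a) * l ^ a))) * l ^ (-1 - b) := by
    intro l hl
    have h1 : ∀ i, (l * y i) ^ a = l ^ a * y i ^ a := fun i =>
      Real.mul_rpow (le_of_lt hl) (hy i)
    simp_rw [h1]
    rw [← Finset.mul_sum]
    congr 3
    ring
  constructor
  · refine IntegrableOn.congr_fun ?_ (fun l hl => (hcongr l hl).symm) measurableSet_Ioi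
    exact integrableOn_exp hb hba (mul_nonneg hc.le hR)
  · rw [setIntegral_congr_fun measurableSet_Ioi hcongr, integral_stable_scale hb hba hR]
    ring

/-- The exponent of Base in integral form, from the integral form of the scalar series. -/
theorem exp_of_sc {a η δ : ℝ} (hδ : 0 ≤ δ)
    (hsc : ∀ z : ℂ, IntegrableOn (fun t : ℝ => (1 - Complex.exp (-(η * t * z))) *
      ((t ^ (-1 - a) : ℝ) : ℂ)) (Ioc 0 1) ∧
      sc (Pool.Agent.S91X.cL a η δ) z = (δ ^ (1 - a) / (1 - a) : ℝ) * z + (η⁻¹ : ℝ) *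
        ∫ t in Ioc δ 1, (1 - Complex.exp (-(η * t * z))) * ((t ^ (-1 - a) : ℝ) : ℂ))
    (y : Fin n → ℝ) :
    (∑ i, (sc (cL a η δ) (y i : ℂ)).re) / n =
      η⁻¹ * (∫ t in Ioc δ 1, (1 - tau (η * t) y) * t ^ (-1 - a)) +
        δ ^ (1 - a) / (1 - a) / n * ∑ i, y i := by
  have hre : ∀ (t : ℝ) (i : Fin n), (1 - Complex.exp (-(η * t * (y i : ℂ)))) *
      ((t ^ (-1 - a) : ℝ) : ℂ) =
      (((1 - Real.exp (-(η * t * y i))) * t ^ (-1 - a) : ℝ) : ℂ) := by
    intro t i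
    push_cast
    rfl
  have hint : ∀ i, IntegrableOn (fun t : ℝ => (1 - Real.exp (-(η * t * y i))) *
      t ^ (-1 - a)) (Ioc δ 1) := by
    intro i
    have h1 := (hsc (y i : ℂ)).1.mono_set (Ioc_subset_Ioc_left hδ)
    simp_rw [hre] at h1
    exact h1.re
  have hval : ∀ i, (sc (cL a η δ) (y i : ℂ)).re = δ ^ (1 - a) / (1 - a) * y i +
      η⁻¹ * ∫ t in Ioc δ 1, (1 - Real.exp (-(η * t * y i))) * t ^ (-1 - a) := by
    intro i
    rw [(hsc (y i : ℂ)).2]
    simp_rw [hre]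
    rw [integral_complex_ofReal]
    simp only [← Complex.ofReal_mul, ← Complex.ofReal_add, Complex.ofReal_re]
  simp_rw [hval]
  rw [Finset.sum_add_distrib, ← Finset.mul_sum, ← Finset.mul_sum,
    ← integral_finsetSum _ fun i _ => hint i]
  have h1 : ∀ t : ℝ, (1 - tau (η * t) y) * t ^ (-1 - a) =
      (∑ i, (1 - Real.exp (-(η * t * y i))) * t ^ (-1 - a)) / n := by
    intro t
    rw [one_sub_tau, ← Finset.sum_mul]
    ring
  simp_rw [h1]
  rw [integral_div]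
  ring

end Pool.Agent.S91X
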