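import Pool.Agent.S91X.Base

/-!
# The Laplace exponent of the small jumps (module G3b)
-/

open MeasureTheory Metric Set Filter Topology Module

namespace Pool.Agent.S91X

theorem cL_bound {a η δ : ℝ} (ha0 : 0 < a) (ha1 : a < 1) (hη : η ∈ Icc (0 : ℝ) 1)
    (hδ : δ ∈ Icc (0 : ℝ) 1) (k : ℕ) : |cL a η δ k| ≤ 1 / (1 - a) * 1 ^ k := by
  have h1a : 0 < 1 - a := by linarith
  rw [one_pow, mul_one, cL]
  split_ifs with h0 h1
  · rw [abs_zero]; positivity
  · rw [abs_of_pos (by positivity)]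
  · have hk : (2 : ℝ) ≤ k := by exact_mod_cast (by omega : 2 ≤ k)
    have hka : 0 < (k : ℝ) - a := by linarith
    have h2 : 0 ≤ δ ^ ((k : ℝ) - a) := Real.rpow_nonneg hδ.1 _
    have h3 : δ ^ ((k : ℝ) - a) ≤ 1 := Real.rpow_le_one hδ.1 hδ.2 hka.le
    have h4 : η ^ (k - 1) ≤ 1 := pow_le_one₀ hη.1 hη.2
    have h5 : 0 ≤ η ^ (k - 1) := pow_nonneg hη.1 _
    rw [abs_div, abs_mul, abs_mul, abs_pow, abs_neg, abs_one, one_pow, one_mul,
      abs_of_nonneg h5, abs_of_nonneg (sub_nonneg.2 h3), abs_of_pos hka,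
      div_le_div_iff₀ hka h1a]
    have h6 : η ^ (k - 1) * (1 - δ ^ ((k : ℝ) - a)) ≤ 1 := by
      calc η ^ (k - 1) * (1 - δ ^ ((k : ℝ) - a)) ≤ 1 * 1 :=
            mul_le_mul h4 (by linarith) (by linarith) zero_le_one
        _ = 1 := one_mul 1
    calc η ^ (k - 1) * (1 - δ ^ ((k : ℝ) - a)) * (1 - a) ≤ 1 * (1 - a) :=
          mul_le_mul_of_nonneg_right h6 h1a.le
      _ ≤ 1 * ((k : ℝ) - a) := by linarith

theorem continuous_cL {a : ℝ} (ha1 : a < 1) (k : ℕ) :
    Continuous fun w : ℝ × ℝ => cL a w.1 w.2 k := by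
  unfold cL
  by_cases h0 : k = 0
  · simp only [h0, if_true]
    exact continuous_const
  by_cases h1 : k = 1
  · simp only [h1, if_true, one_ne_zero, if_false]
    exact continuous_const
  simp only [h0, h1, if_false]
  have hk : (2 : ℝ) ≤ k := by exact_mod_cast (by omega : 2 ≤ k)
  have hka : 0 ≤ (k : ℝ) - a := by linarith
  have h2 : Continuous fun w : ℝ × ℝ => w.2 ^ ((k : ℝ) - a) :=
    (Real.continuous_rpow_const hka).comp continuous_snd
  fun_prop

theorem continuous_sc_cL {a : ℝ} (ha0 : 0 < a) (ha1 : a < 1) (z : ℂ) :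
    ContinuousOn (fun w : ℝ × ℝ => sc (cL a w.1 w.2) z) (Icc (0 : ℝ) 1 ×ˢ Icc (0 : ℝ) 1) := by
  unfold sc
  apply continuousOn_tsum (u := fun k => 1 / (1 - a) * (‖z‖ ^ k / (Nat.factorial k : ℝ)))
  · intro k
    have h1 : Continuous fun w : ℝ × ℝ => (cL a w.1 w.2 k : ℂ) :=
      Complex.continuous_ofReal.comp (continuous_cL ha1 k)
    exact ((h1.mul continuous_const).div_const _).continuousOn
  · exact (Real.summable_pow_div_factorial ‖z‖).mul_left _
  · intro k w hw
    have h1 := cL_bound ha0 ha1 hw.1 hw.2 k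
    rw [one_pow, mul_one] at h1
    rw [norm_div, norm_mul, norm_pow, Complex.norm_real, Real.norm_eq_abs, Complex.norm_natCast,
      mul_div_assoc]
    exact mul_le_mul_of_nonneg_right h1 (by positivity)

theorem sc_cL_zero {a δ : ℝ} (z : ℂ) : sc (cL a 0 δ) z = z / (1 - a : ℝ) := by
  unfold sc
  rw [tsum_eq_single 1]
  · simp only [cL, one_ne_zero, if_false, if_true, pow_one, Nat.factorial_one, Nat.cast_one,
      div_one]
    push_cast
    ring
  · intro k hk
    by_cases h0 : k = 0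
    · simp [cL, h0]
    · have h2 : (0 : ℝ) ^ (k - 1) = 0 := zero_pow (by omega)
      simp [cL, h0, hk, h2]

/-- the integrand -/
noncomputable def fL (a η : ℝ) (z : ℂ) (t : ℝ) : ℂ :=
  (1 - Complex.exp (-(η * t * z))) * ((t ^ (-1 - a) : ℝ) : ℂ)

theorem measurable_fL (a η : ℝ) (z : ℂ) : Measurable (fL a η z) := by
  have h1 : Measurable fun t : ℝ => ((t ^ (-1 - a) : ℝ) : ℂ) :=
    Complex.measurable_ofReal.comp (measurable_id.pow_const _)
  have h2 : Continuous fun t : ℝ => 1 - Complex.exp (-(η * t * z)) := by fun_prop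
  exact h2.measurable.mul h1

theorem integrableOn_rpow_neg {a δ : ℝ} (ha1 : a < 1) {r : ℝ} (hr : δ ≤ r) :
    IntegrableOn (fun t : ℝ => t ^ (-a)) (Ioc δ r) ∧
      ∫ t in Ioc δ r, t ^ (-a) = (r ^ (1 - a) - δ ^ (1 - a)) / (1 - a) := by
  have h1 : (-1 : ℝ) < -a := by linarith
  have h2 : IntervalIntegrable (fun t : ℝ => t ^ (-a)) volume δ r :=
    intervalIntegral.intervalIntegrable_rpow' h1
  refine ⟨(intervalIntegrable_iff_integrableOn_Ioc_of_le hr).1 h2, ?_⟩
  rw [← intervalIntegral.integral_of_le hr, integral_rpow (Or.inl h1)]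
  have h3 : -a + 1 = 1 - a := by ring
  rw [h3]

theorem mul_rpow_neg {a t : ℝ} (ht : 0 < t) (k : ℕ) :
    t ^ (k + 1) * t ^ (-1 - a) = t ^ ((k : ℝ) - a) := by
  rw [← Real.rpow_natCast, ← Real.rpow_add ht]
  congr 1
  push_cast
  ring

theorem integrableOn_fL {a η : ℝ} (ha1 : a < 1) (hη : 0 < η) (hη1 : η ≤ 1) (z : ℂ) :
    IntegrableOn (fL a η z) (Ioc 0 1) := by
  have h1 := (integrableOn_rpow_neg (a := a) ha1 (δ := 0) zero_le_one).1
  refine Integrable.mono' (h1.const_mul (‖z‖ * Real.exp ‖z‖))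
    (measurable_fL a η z).aestronglyMeasurable ?_
  filter_upwards [ae_restrict_mem measurableSet_Ioc] with t ht
  have ht0 : 0 < t := ht.1
  have h2 := Complex.norm_exp_sub_sum_le_norm_mul_exp (-(η * t * z)) 1
  simp only [Finset.sum_range_one, pow_zero, Nat.factorial_zero, Nat.cast_one, div_one,
    pow_one] at h2
  have h3 : ‖-((η : ℂ) * t * z)‖ = η * t * ‖z‖ := by
    rw [norm_neg, norm_mul, norm_mul, Complex.norm_real, Complex.norm_real, Real.norm_eq_abs,
      Real.norm_eq_abs, abs_of_pos hη, abs_of_pos ht0]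
  rw [h3] at h2
  have h4 : η * t * ‖z‖ ≤ t * ‖z‖ := by
    have : η * t ≤ 1 * t := mul_le_mul_of_nonneg_right hη1 ht0.le
    rw [one_mul] at this
    exact mul_le_mul_of_nonneg_right this (norm_nonneg _)
  have h5 : η * t * ‖z‖ ≤ ‖z‖ := by
    refine h4.trans ?_
    calc t * ‖z‖ ≤ 1 * ‖z‖ := mul_le_mul_of_nonneg_right ht.2 (norm_nonneg _)
      _ = ‖z‖ := one_mul _
  have h6 : 0 ≤ η * t * ‖z‖ := by positivity
  have h7 : ‖1 - Complex.exp (-(η * t * z))‖ ≤ t * ‖z‖ * Real.exp ‖z‖ := by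
    rw [norm_sub_rev]
    refine h2.trans ?_
    exact mul_le_mul h4 (Real.exp_le_exp.2 h5) (Real.exp_pos _).le (by positivity)
  rw [fL, norm_mul, Complex.norm_real, Real.norm_eq_abs,
    abs_of_nonneg (Real.rpow_nonneg ht0.le _)]
  calc ‖1 - Complex.exp (-(η * t * z))‖ * t ^ (-1 - a)
      ≤ t * ‖z‖ * Real.exp ‖z‖ * t ^ (-1 - a) :=
        mul_le_mul_of_nonneg_right h7 (Real.rpow_nonneg ht0.le _)
    _ = ‖z‖ * Real.exp ‖z‖ * (t ^ (0 + 1) * t ^ (-1 - a)) := by ring
    _ = ‖z‖ * Real.exp ‖z‖ * t ^ (-a) := by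
        rw [mul_rpow_neg ht0]
        simp

theorem sc_cL {a η δ : ℝ} (ha0 : 0 < a) (ha1 : a < 1) (hη : 0 < η) (hη1 : η ≤ 1) (hδ : 0 ≤ δ)
    (hδ1 : δ ≤ 1) (z : ℂ) : IntegrableOn (fun t : ℝ => (1 - Complex.exp (-(η * t * z))) *
      ((t ^ (-1 - a) : ℝ) : ℂ)) (Ioc 0 1) ∧
    sc (cL a η δ) z = (δ ^ (1 - a) / (1 - a) : ℝ) * z + (η⁻¹ : ℝ) *
      ∫ t in Ioc δ 1, (1 - Complex.exp (-(η * t * z))) * ((t ^ (-1 - a) : ℝ) : ℂ) := by
  refine ⟨integrableOn_fL ha1 hη hη1 z, ?_⟩
  have h1a : 0 < 1 - a := by linarith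
  set F : ℕ → ℝ → ℂ := fun k t => -((-(η * z)) ^ (k + 1) / (Nat.factorial (k + 1) : ℂ)) *
    ((t ^ ((k : ℝ) - a) : ℝ) : ℂ) with hF
  have hexp : ∀ k : ℕ, (-1 : ℝ) < (k : ℝ) - a := fun k => by
    have : (0 : ℝ) ≤ k := by positivity
    linarith
  have hint : ∀ k : ℕ, IntegrableOn (fun t : ℝ => t ^ ((k : ℝ) - a)) (Ioc δ 1) := fun k =>
    (intervalIntegrable_iff_integrableOn_Ioc_of_le hδ1).1
      (intervalIntegral.intervalIntegrable_rpow' (hexp k))
  have hval : ∀ k : ℕ, ∫ t in Ioc δ 1, t ^ ((k : ℝ) - a) =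
      (1 - δ ^ ((k : ℝ) + 1 - a)) / ((k : ℝ) + 1 - a) := fun k => by
    rw [← intervalIntegral.integral_of_le hδ1, integral_rpow (Or.inl (hexp k))]
    have h3 : (k : ℝ) - a + 1 = (k : ℝ) + 1 - a := by ring
    rw [h3, Real.one_rpow]
  have hintC : ∀ k : ℕ, IntegrableOn (F k) (Ioc δ 1) := fun k =>
    ((hint k).ofReal (𝕜 := ℂ)).const_mul _
  have hvalC : ∀ k : ℕ, ∫ t in Ioc δ 1, F k t = -((-(η * z)) ^ (k + 1) /
      (Nat.factorial (k + 1) : ℂ)) * (((1 - δ ^ ((k : ℝ) + 1 - a)) / ((k : ℝ) + 1 - a) : ℝ) : ℂ) := by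
    intro k
    have h1 : ∫ t in Ioc δ 1, ((t ^ ((k : ℝ) - a) : ℝ) : ℂ) =
        ((∫ t in Ioc δ 1, t ^ ((k : ℝ) - a) : ℝ) : ℂ) := integral_ofReal
    simp only [hF]
    rw [integral_const_mul, h1, hval k]
  have hnorm : ∀ k : ℕ, ∫ t in Ioc δ 1, ‖F k t‖ = ‖(-(η * z)) ^ (k + 1) /
      (Nat.factorial (k + 1) : ℂ)‖ * ((1 - δ ^ ((k : ℝ) + 1 - a)) / ((k : ℝ) + 1 - a)) := by
    intro k
    rw [← hval k, ← integral_const_mul]
    apply setIntegral_congr_fun measurableSet_Ioc
    intro t ht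
    have ht0 : 0 < t := hδ.trans_lt ht.1
    simp only [hF]
    rw [norm_mul, norm_neg, Complex.norm_real, Real.norm_eq_abs,
      abs_of_nonneg (Real.rpow_nonneg ht0.le _)]
  have hfac : ∀ k : ℕ, 0 ≤ (1 - δ ^ ((k : ℝ) + 1 - a)) / ((k : ℝ) + 1 - a) ∧
      (1 - δ ^ ((k : ℝ) + 1 - a)) / ((k : ℝ) + 1 - a) ≤ 1 / (1 - a) := by
    intro k
    have hk : (0 : ℝ) ≤ k := by positivity
    have h2 : 0 ≤ δ ^ ((k : ℝ) + 1 - a) := Real.rpow_nonneg hδ _
    have h3 : δ ^ ((k : ℝ) + 1 - a) ≤ 1 := Real.rpow_le_one hδ hδ1 (by linarith)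
    have h4 : 0 < (k : ℝ) + 1 - a := by linarith
    refine ⟨div_nonneg (by linarith) h4.le, ?_⟩
    rw [div_le_div_iff₀ h4 h1a]
    nlinarith
  have hsum : Summable fun k => ∫ t in Ioc δ 1, ‖F k t‖ := by
    simp only [hnorm]
    have h1 : Summable fun k : ℕ => ‖-(η * z)‖ ^ (k + 1) / (Nat.factorial (k + 1) : ℝ) :=
      (summable_nat_add_iff 1).2 (Real.summable_pow_div_factorial ‖-(η * z)‖)
    refine Summable.of_nonneg_of_le (fun k => mul_nonneg (norm_nonneg _) (hfac k).1)
      (fun k => ?_) (h1.mul_right (1 / (1 - a)))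
    rw [norm_div, norm_pow, Complex.norm_natCast]
    exact mul_le_mul_of_nonneg_left (hfac k).2 (by positivity)
  have hmain := hasSum_integral_of_summable_integral_norm hintC hsum
  have hpt : ∫ t in Ioc δ 1, ∑' k, F k t = ∫ t in Ioc δ 1,
      (1 - Complex.exp (-(η * t * z))) * ((t ^ (-1 - a) : ℝ) : ℂ) := by
    apply setIntegral_congr_fun measurableSet_Ioc
    intro t ht
    have ht0 : 0 < t := hδ.trans_lt ht.1
    have h1 : HasSum (fun k : ℕ => (-(η * t * z)) ^ k / (Nat.factorial k : ℂ))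
        (Complex.exp (-(η * t * z))) := by
      rw [Complex.exp_eq_exp_ℂ]
      exact NormedSpace.expSeries_div_hasSum_exp (-(η * t * z) : ℂ)
    have h2 := (hasSum_nat_add_iff' 1).2 h1
    simp only [Finset.sum_range_one, pow_zero, Nat.factorial_zero, Nat.cast_one, div_one] at h2
    have h3 := (h2.neg).mul_right ((t ^ (-1 - a) : ℝ) : ℂ)
    have h4 : (fun k : ℕ => -((-(η * t * z)) ^ (k + 1) / (Nat.factorial (k + 1) : ℂ)) *
        ((t ^ (-1 - a) : ℝ) : ℂ)) = fun k => F k t := by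
      funext k
      simp only [hF]
      rw [← mul_rpow_neg ht0 k]
      push_cast
      ring
    rw [h4] at h3
    simp only
    rw [h3.tsum_eq]
    ring
  rw [hpt] at hmain
  -- assemble
  have hadd := (hmain.mul_left ((η⁻¹ : ℝ) : ℂ)).add
    (hasSum_ite_eq (0 : ℕ) ((δ ^ (1 - a) / (1 - a) : ℝ) * z : ℂ))
  have hterm : (fun k : ℕ => ((η⁻¹ : ℝ) : ℂ) * (∫ t in Ioc δ 1, F k t) +
      if k = 0 then ((δ ^ (1 - a) / (1 - a) : ℝ) * z : ℂ) else 0) =
      fun k => (cL a η δ (k + 1) : ℂ) * z ^ (k + 1) / (Nat.factorial (k + 1) : ℂ) := by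
    funext k
    rw [hvalC k]
    have hηC : (η : ℂ) ≠ 0 := by exact_mod_cast hη.ne'
    by_cases h0 : k = 0
    · subst h0
      have h1aC : (1 - a : ℂ) ≠ 0 := by exact_mod_cast h1a.ne'
      simp only [cL, zero_add, pow_one, Nat.factorial_one, Nat.cast_one, div_one, if_true,
        one_ne_zero, if_false, Nat.cast_zero]
      push_cast
      field_simp
      ring
    · have hk1 : k + 1 ≠ 0 := by omega
      have hk2 : k + 1 ≠ 1 := by omega
      have hk4 : k + 1 - 1 = k := by omega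
      have hkaC : ((k : ℂ) + 1 - a) ≠ 0 := by
        have hk : (0 : ℝ) ≤ k := by positivity
        have : (k : ℝ) + 1 - a ≠ 0 := by linarith
        exact_mod_cast this
      have hfacC : ((Nat.factorial (k + 1) : ℕ) : ℂ) ≠ 0 := by
        exact_mod_cast (Nat.factorial_pos _).ne'
      simp only [cL, if_neg hk1, if_neg hk2, if_neg h0, hk4, add_zero]
      push_cast
      rw [neg_pow, mul_pow]
      field_simp
      ring
  rw [hterm] at hadd
  have hz0 : (cL a η δ 0 : ℂ) * z ^ 0 / (Nat.factorial 0 : ℂ) = 0 := by simp [cL]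
  have hfin : HasSum (fun k : ℕ => (cL a η δ k : ℂ) * z ^ k / (Nat.factorial k : ℂ))
      (((η⁻¹ : ℝ) : ℂ) * (∫ t in Ioc δ 1, (1 - Complex.exp (-(η * t * z))) *
        ((t ^ (-1 - a) : ℝ) : ℂ)) + (δ ^ (1 - a) / (1 - a) : ℝ) * z) := by
    rw [← hasSum_nat_add_iff' 1, Finset.sum_range_one, hz0, sub_zero]
    exact hadd
  rw [sc, hfin.tsum_eq, add_comm]

theorem sc_lower {a : ℝ} (ha0 : 0 < a) (ha1 : a < 1) : ∃ c > 0, ∃ C : ℝ, ∀ η ∈ Icc (0 : ℝ) 1,
    ∀ δ ∈ Icc (0 : ℝ) 1, ∀ (z : ℂ) (h : ℝ), 0 ≤ h → h - 1 ≤ z.re →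
      c * h ^ a - C ≤ (sc (cL a η δ) z).re := by
  have h1a : 0 < 1 - a := by linarith
  refine ⟨1 / (2 * (1 - a)), by positivity, 4 / (1 - a), ?_⟩
  intro η hη δ hδ z h hh hz
  rcases hη.1.eq_or_lt with h0 | hη0
  · rw [← h0, sc_cL_zero, Complex.div_ofReal_re]
    have h2 : h ^ a ≤ 1 + h := by
      rcases le_total h 1 with h3 | h3
      · have := Real.rpow_le_one hh h3 ha0.le
        linarith
      · have := Real.rpow_le_rpow_of_exponent_le h3 ha1.le
        rw [Real.rpow_one] at this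
        linarith
    rw [div_mul_eq_mul_div, one_mul, ← sub_nonneg]
    have h3 : z.re / (1 - a) - (h ^ a / (2 * (1 - a)) - 4 / (1 - a)) =
        (2 * z.re - h ^ a + 8) / (2 * (1 - a)) := by
      field_simp
      ring
    rw [h3]
    apply div_nonneg _ (by positivity)
    linarith
  · obtain ⟨hint, hsc⟩ := sc_cL (δ := δ) ha0 ha1 hη0 hη.2 hδ.1 hδ.2 z
    have hintδ : IntegrableOn (fL a η z) (Ioc δ 1) := hint.mono_set (Ioc_subset_Ioc_left hδ.1)
    have hre : (sc (cL a η δ) z).re = δ ^ (1 - a) / (1 - a) * z.re +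
        η⁻¹ * ∫ t in Ioc δ 1, (fL a η z t).re := by
      rw [hsc, Complex.add_re, Complex.re_ofReal_mul, Complex.re_ofReal_mul]
      congr 2
      exact (integral_re hintδ).symm
    have hlow : ∀ t ∈ Ioc (0 : ℝ) 1, (1 - Real.exp (-(η * t * h))) * t ^ (-1 - a) -
        2 * η * t ^ (-a) ≤ (fL a η z t).re := by
      intro t ht
      have ht0 : 0 < t := ht.1
      have h2 : (fL a η z t).re = (1 - (Complex.exp (-(η * t * z))).re) * t ^ (-1 - a) := by
        rw [fL, Complex.re_mul_ofReal, Complex.sub_re, Complex.one_re]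
      have h3 : (Complex.exp (-(η * t * z))).re ≤ Real.exp (-(η * t * z.re)) := by
        refine (Complex.re_le_norm _).trans (le_of_eq ?_)
        rw [Complex.norm_exp]
        congr 1
        rw [Complex.neg_re]
        congr 1
        rw [← Complex.ofReal_mul, Complex.re_ofReal_mul]
      have h4 : Real.exp (-(η * t * z.re)) ≤ Real.exp (-(η * t * h)) + 2 * (η * t) := by
        have h5 : Real.exp (-(η * t * z.re)) ≤ Real.exp (-(η * t * h) + η * t) := by
          apply Real.exp_le_exp.2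
          have : 0 < η * t := by positivity
          nlinarith
        have hηt0 : 0 ≤ η * t := by positivity
        have hηt1 : η * t ≤ 1 := by
          calc η * t ≤ 1 * 1 := mul_le_mul hη.2 ht.2 ht0.le zero_le_one
            _ = 1 := one_mul 1
        have h6 : Real.exp (η * t) - 1 ≤ 2 * (η * t) := by
          have h7 := Real.abs_exp_sub_one_le (x := η * t) (by rwa [abs_of_nonneg hηt0])
          rw [abs_of_nonneg hηt0] at h7
          exact (le_abs_self _).trans h7
        have h7 : Real.exp (-(η * t * h)) ≤ 1 := Real.exp_le_one_iff.2 (by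
          have : 0 ≤ η * t * h := by positivity
          linarith)
        have h8 : 0 < Real.exp (-(η * t * h)) := Real.exp_pos _
        rw [Real.exp_add] at h5
        nlinarith
      have h5 : 0 ≤ t ^ (-1 - a) := Real.rpow_nonneg ht0.le _
      have h6 : t * t ^ (-1 - a) = t ^ (-a) := by
        have := mul_rpow_neg (a := a) ht0 0
        simpa using this
      rw [h2]
      calc (1 - Real.exp (-(η * t * h))) * t ^ (-1 - a) - 2 * η * t ^ (-a)
          = (1 - (Real.exp (-(η * t * h)) + 2 * (η * t))) * t ^ (-1 - a) := by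
            rw [← h6]; ring
        _ ≤ (1 - (Complex.exp (-(η * t * z))).re) * t ^ (-1 - a) :=
            mul_le_mul_of_nonneg_right (by linarith) h5
    have hIδ := integrableOn_rpow_neg (a := a) ha1 hδ.2
    have hg : IntegrableOn (fun t => (fL a η z t).re + 2 * η * t ^ (-a)) (Ioc δ 1) :=
      hintδ.re.add (hIδ.1.const_mul _)
    have hgnn : ∀ t ∈ Ioc δ 1, 0 ≤ (fL a η z t).re + 2 * η * t ^ (-a) := by
      intro t ht
      have ht0 : 0 < t := hδ.1.trans_lt ht.1
      have h2 := hlow t ⟨ht0, ht.2⟩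
      have h3 : 0 ≤ (1 - Real.exp (-(η * t * h))) * t ^ (-1 - a) := by
        apply mul_nonneg _ (Real.rpow_nonneg ht0.le _)
        have : Real.exp (-(η * t * h)) ≤ 1 := Real.exp_le_one_iff.2 (by
          have : 0 ≤ η * t * h := by positivity
          linarith)
        linarith
      linarith
    have hsplit : ∫ t in Ioc δ 1, (fL a η z t).re =
        (∫ t in Ioc δ 1, ((fL a η z t).re + 2 * η * t ^ (-a))) -
          2 * η * ((1 - δ ^ (1 - a)) / (1 - a)) := by
      have h1 : ∫ t in Ioc δ 1, ((fL a η z t).re + 2 * η * t ^ (-a)) =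
          (∫ t in Ioc δ 1, (fL a η z t).re) + ∫ t in Ioc δ 1, 2 * η * t ^ (-a) :=
        integral_add hintδ.re (hIδ.1.const_mul (2 * η))
      rw [h1, integral_const_mul, hIδ.2, Real.one_rpow]
      ring
    have hδp : 0 ≤ δ ^ (1 - a) := Real.rpow_nonneg hδ.1 _
    have hδp1 : δ ^ (1 - a) ≤ 1 := Real.rpow_le_one hδ.1 hδ.2 h1a.le
    -- the first part
    have hA : δ ^ (1 - a) / (1 - a) * (h - 1) ≤ δ ^ (1 - a) / (1 - a) * z.re :=
      mul_le_mul_of_nonneg_left hz (by positivity)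
    have hI0 : 0 ≤ ∫ t in Ioc δ 1, ((fL a η z t).re + 2 * η * t ^ (-a)) :=
      setIntegral_nonneg measurableSet_Ioc hgnn
    have hB : η⁻¹ * ∫ t in Ioc δ 1, (fL a η z t).re =
        η⁻¹ * (∫ t in Ioc δ 1, ((fL a η z t).re + 2 * η * t ^ (-a))) -
          2 * ((1 - δ ^ (1 - a)) / (1 - a)) := by
      rw [hsplit]
      field_simp
    have hηinv : 0 < η⁻¹ := inv_pos.2 hη0
    by_cases hcase : h ≤ 1 ∨ 1 ≤ δ * h
    · -- no gain from the integral is needed
      have h2 : 0 ≤ η⁻¹ * ∫ t in Ioc δ 1, ((fL a η z t).re + 2 * η * t ^ (-a)) := by positivity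
      have h3 : δ ^ (1 - a) / (1 - a) * (h - 1) - 2 * ((1 - δ ^ (1 - a)) / (1 - a)) ≤
          (sc (cL a η δ) z).re := by
        rw [hre, hB]
        linarith
      refine le_trans ?_ h3
      rw [← sub_nonneg]
      have h4 : δ ^ (1 - a) / (1 - a) * (h - 1) - 2 * ((1 - δ ^ (1 - a)) / (1 - a)) -
          (1 / (2 * (1 - a)) * h ^ a - 4 / (1 - a)) =
          (2 * δ ^ (1 - a) * h + 2 * δ ^ (1 - a) - h ^ a + 4) / (2 * (1 - a)) := by
        field_simp
        ring
      rw [h4]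
      apply div_nonneg _ (by positivity)
      rcases hcase with h5 | h5
      · have := Real.rpow_le_one hh h5 ha0.le
        have : 0 ≤ 2 * δ ^ (1 - a) * h := by positivity
        linarith
      · have hh0 : 0 < h := by
          rcases hh.eq_or_lt with h6 | h6
          · rw [← h6, mul_zero] at h5; linarith
          · exact h6
        have h6 : h ^ a ≤ δ ^ (1 - a) * h := by
          have h7 : 1 ≤ (δ * h) ^ (1 - a) := Real.one_le_rpow h5 h1a.le
          rw [Real.mul_rpow hδ.1 hh] at h7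
          have h8 : h ^ (1 - a) * h ^ a = h := by
            rw [← Real.rpow_add hh0]
            have : 1 - a + a = 1 := by ring
            rw [this, Real.rpow_one]
          have h9 : 0 < h ^ a := Real.rpow_pos_of_pos hh0 _
          calc h ^ a = 1 * h ^ a := (one_mul _).symm
            _ ≤ δ ^ (1 - a) * h ^ (1 - a) * h ^ a := mul_le_mul_of_nonneg_right h7 h9.le
            _ = δ ^ (1 - a) * h := by rw [mul_assoc, h8]
        have : 0 ≤ δ ^ (1 - a) * h := by positivity
        linarith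
    · push Not at hcase
      obtain ⟨hh1, hδh⟩ := hcase
      have hh0 : 0 < h := by linarith
      have hδ1h : δ ≤ 1 / h := by
        rw [le_div_iff₀ hh0]; exact hδh.le
      have h1h1 : 1 / h ≤ 1 := by
        rw [div_le_one hh0]; exact hh1.le
      have hIh := integrableOn_rpow_neg (a := a) ha1 hδ1h
      have h2 : ∫ t in Ioc δ (1 / h), η * h / 2 * t ^ (-a) ≤
          ∫ t in Ioc δ 1, ((fL a η z t).re + 2 * η * t ^ (-a)) := by
        have h3 : ∫ t in Ioc δ (1 / h), η * h / 2 * t ^ (-a) ≤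
            ∫ t in Ioc δ (1 / h), ((fL a η z t).re + 2 * η * t ^ (-a)) := by
          apply setIntegral_mono_on (hIh.1.const_mul _)
            (hg.mono_set (Ioc_subset_Ioc_right h1h1)) measurableSet_Ioc
          intro t ht
          have ht0 : 0 < t := hδ.1.trans_lt ht.1
          have ht1 : t ≤ 1 := ht.2.trans h1h1
          have h4 := hlow t ⟨ht0, ht1⟩
          have h5 : t * h ≤ 1 := by
            have := ht.2
            rwa [le_div_iff₀ hh0] at this
          have h6 : η * t * h ≤ 1 := by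
            calc η * t * h = η * (t * h) := by ring
              _ ≤ 1 * 1 := mul_le_mul hη.2 h5 (by positivity) zero_le_one
              _ = 1 := one_mul 1
          have h7 : η * t * h / 2 ≤ 1 - Real.exp (-(η * t * h)) := by
            have h8 : 0 ≤ η * t * h := by positivity
            have h9 := Real.add_one_le_exp (η * t * h)
            have h10 : Real.exp (-(η * t * h)) * Real.exp (η * t * h) = 1 := by
              rw [← Real.exp_add]; simp
            have h11 : 0 < Real.exp (-(η * t * h)) := Real.exp_pos _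
            have h12 : Real.exp (-(η * t * h)) * (η * t * h + 1) ≤ 1 :=
              (mul_le_mul_of_nonneg_left h9 h11.le).trans h10.le
            have h13 : 1 ≤ (1 - η * t * h / 2) * (η * t * h + 1) := by nlinarith
            have h14 : Real.exp (-(η * t * h)) ≤ 1 - η * t * h / 2 :=
              le_of_mul_le_mul_right (h12.trans h13) (by linarith)
            linarith
          have h8 : t * t ^ (-1 - a) = t ^ (-a) := by
            have := mul_rpow_neg (a := a) ht0 0
            simpa using this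
          have h9 : 0 ≤ t ^ (-1 - a) := Real.rpow_nonneg ht0.le _
          have h10 : η * h / 2 * t ^ (-a) ≤ (1 - Real.exp (-(η * t * h))) * t ^ (-1 - a) := by
            calc η * h / 2 * t ^ (-a) = η * t * h / 2 * t ^ (-1 - a) := by rw [← h8]; ring
              _ ≤ _ := mul_le_mul_of_nonneg_right h7 h9
          show η * h / 2 * t ^ (-a) ≤ (fL a η z t).re + 2 * η * t ^ (-a)
          linarith
        refine h3.trans (setIntegral_mono_set hg ?_ ?_)
        · filter_upwards [ae_restrict_mem measurableSet_Ioc] with t ht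
          exact hgnn t ht
        · exact (Ioc_subset_Ioc_right h1h1).eventuallyLE
      rw [integral_const_mul, hIh.2] at h2
      have h3 : (1 / h) ^ (1 - a) * h = h ^ a := by
        rw [Real.div_rpow zero_le_one hh, Real.one_rpow]
        have h8 : h ^ (1 - a) * h ^ a = h := by
          rw [← Real.rpow_add hh0]
          have : 1 - a + a = 1 := by ring
          rw [this, Real.rpow_one]
        have h9 : 0 < h ^ (1 - a) := Real.rpow_pos_of_pos hh0 _
        rw [div_mul_eq_mul_div, one_mul, div_eq_iff h9.ne', mul_comm]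
        exact h8.symm
      have h4 : (h ^ a - δ ^ (1 - a) * h) / (2 * (1 - a)) ≤
          η⁻¹ * ∫ t in Ioc δ 1, ((fL a η z t).re + 2 * η * t ^ (-a)) := by
        have h5 := mul_le_mul_of_nonneg_left h2 hηinv.le
        refine le_trans (le_of_eq ?_) h5
        rw [← h3]
        field_simp
      have h5 : δ ^ (1 - a) / (1 - a) * (h - 1) - 2 * ((1 - δ ^ (1 - a)) / (1 - a)) +
          (h ^ a - δ ^ (1 - a) * h) / (2 * (1 - a)) ≤ (sc (cL a η δ) z).re := by
        rw [hre, hB]
        linarith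
      refine le_trans ?_ h5
      rw [← sub_nonneg]
      have h6 : δ ^ (1 - a) / (1 - a) * (h - 1) - 2 * ((1 - δ ^ (1 - a)) / (1 - a)) +
          (h ^ a - δ ^ (1 - a) * h) / (2 * (1 - a)) -
          (1 / (2 * (1 - a)) * h ^ a - 4 / (1 - a)) =
          (δ ^ (1 - a) * h + 2 * δ ^ (1 - a) + 4) / (2 * (1 - a)) := by
        field_simp
        ring
      rw [h6]
      positivity

end Pool.Agent.S91X
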