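import Pool.Agent.S91X.Base

open MeasureTheory Metric Set Filter Topology Module

namespace Pool.Agent.S91X

open Pool.Agent.S50X

variable {ι : Type} [Fintype ι]

/-- The functional `Lam` commutes with mixtures. -/
theorem Lam_mix {Ω : Type*} [MeasurableSpace Ω] (μ : Measure Ω) [IsProbabilityMeasure μ] {p : ℝ}
    (f : Ω → EC ι → ℝ) (x : EC ι)
    (hm : Measurable fun z : Ω × ℝ => f z.1 (Real.sqrt z.2 • x))
    (h0 : ∀ᵐ ω ∂μ, f ω 0 = 1) (h01 : ∀ᵐ ω ∂μ, ∀ y, 0 ≤ f ω y ∧ f ω y ≤ 1)
    {F : EC ι → ℝ} (hF : ∀ y, F y = ∫ ω, f ω y ∂μ) (_hp : 0 < p) (_hp2 : p < 2)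
    (hint : IntegrableOn (fun l : ℝ => (F 0 - F (Real.sqrt l • x)) * l ^ (-1 - p / 2)) (Ioi 0)) :
    Integrable (fun ω => Lam p (f ω) x) μ ∧ Lam p F x = ∫ ω, Lam p (f ω) x ∂μ := by
  have hF0 : F 0 = 1 := by
    rw [hF, integral_congr_ae h0]
    simp
  have hm0 : Measurable fun ω => f ω 0 := by
    have h1 := hm.comp (measurable_id.prodMk (measurable_const (a := (0 : ℝ))))
    simpa [Function.comp_def] using h1
  set H : Ω × ℝ → ℝ := fun z =>
    (f z.1 0 - f z.1 (Real.sqrt z.2 • x)) * z.2 ^ (-1 - p / 2) with hH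
  have hHm : Measurable H :=
    ((hm0.comp measurable_fst).sub hm).mul (measurable_snd.pow_const _)
  have hml : ∀ l : ℝ, Measurable fun ω => f ω (Real.sqrt l • x) := fun l =>
    hm.comp (measurable_id.prodMk measurable_const)
  have hil : ∀ l : ℝ, Integrable (fun ω => f ω (Real.sqrt l • x)) μ := by
    intro l
    refine Integrable.of_bound (hml l).aestronglyMeasurable 1 ?_
    filter_upwards [h01] with ω hω
    rw [Real.norm_eq_abs, abs_of_nonneg (hω _).1]
    exact (hω _).2
  have hi0 : Integrable (fun ω => f ω 0) μ := by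
    have := hil 0
    simpa using this
  have hHi : ∀ l : ℝ, Integrable (fun ω => H (ω, l)) μ := fun l =>
    (hi0.sub (hil l)).mul_const (l ^ (-1 - p / 2))
  have hval : ∀ l : ℝ, ∫ ω, H (ω, l) ∂μ = (F 0 - F (Real.sqrt l • x)) * l ^ (-1 - p / 2) := by
    intro l
    rw [hF 0, hF (Real.sqrt l • x), ← integral_sub hi0 (hil l), ← integral_mul_const]
  have hnorm : ∀ l ∈ Ioi (0 : ℝ), ∫ ω, ‖H (ω, l)‖ ∂μ =
      (F 0 - F (Real.sqrt l • x)) * l ^ (-1 - p / 2) := by
    intro l hl
    rw [← hval]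
    refine integral_congr_ae ?_
    filter_upwards [h0, h01] with ω h1 h2
    rw [Real.norm_eq_abs, abs_of_nonneg]
    refine mul_nonneg ?_ (Real.rpow_nonneg (le_of_lt hl) _)
    show 0 ≤ f ω 0 - f ω (Real.sqrt l • x)
    rw [h1]
    linarith [(h2 (Real.sqrt l • x)).2]
  have hprod : Integrable H (μ.prod (volume.restrict (Ioi 0))) := by
    rw [integrable_prod_iff' hHm.aestronglyMeasurable]
    refine ⟨Eventually.of_forall hHi, ?_⟩
    refine hint.congr ?_
    refine (ae_restrict_iff' measurableSet_Ioi).2 (ae_of_all _ fun l hl => ?_)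
    exact (hnorm l hl).symm
  constructor
  · unfold Lam
    exact (hprod.integral_prod_left).const_mul _
  · unfold Lam
    rw [integral_const_mul]
    congr 1
    have h1 := integral_integral_swap (f := fun ω l => H (ω, l)) hprod
    have h2 : ∫ ω, (∫ l in Ioi (0 : ℝ), (f ω 0 - f ω (Real.sqrt l • x)) * l ^ (-1 - p / 2)) ∂μ =
        ∫ l in Ioi (0 : ℝ), (∫ ω, H (ω, l) ∂μ) := h1
    rw [h2]
    exact setIntegral_congr_fun measurableSet_Ioi fun l _ => (hval l).symm

/-! ### Measurability on disjoint unions -/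

instance opensMeasurableSpace_sigma {α : Type*} {β : α → Type*} [∀ a, TopologicalSpace (β a)]
    [∀ a, MeasurableSpace (β a)] [∀ a, OpensMeasurableSpace (β a)] :
    OpensMeasurableSpace (Σ a, β a) := by
  constructor
  refine MeasurableSpace.generateFrom_le fun s hs => ?_
  have hs' : IsOpen s := hs
  refine MeasurableSpace.measurableSet_iInf.2 fun a => ?_
  rw [MeasurableSpace.map_def]
  exact (isOpen_sigma_iff.1 hs' a).measurableSet

/-- A function on `Cfg × ℝ` is measurable if all its components are continuous. -/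
theorem measurable_cfg_prod {Y : Type*} [TopologicalSpace Y] [SecondCountableTopology Y]
    [MeasurableSpace Y] [OpensMeasurableSpace Y] {Z : Type*} [TopologicalSpace Z]
    [MeasurableSpace Z] [BorelSpace Z] (f : (Σ K : ℕ, (Fin K → ℝ)) × Y → Z)
    (h : ∀ K, Continuous fun z : (Fin K → ℝ) × Y => f (⟨K, z.1⟩, z.2)) : Measurable f := by
  have h1 : Continuous f := by
    rw [← (Homeomorph.sigmaProdDistrib (ι := ℕ) (X := fun K => (Fin K → ℝ))
      (Y := Y)).symm.comp_continuous_iff']
    rw [continuous_sigma_iff]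
    exact h
  exact h1.measurable

/-- The version for functions on `Cfg`. -/
theorem measurable_cfg_cont {Z : Type*} [TopologicalSpace Z]
    [MeasurableSpace Z] [BorelSpace Z] (f : (Σ K : ℕ, (Fin K → ℝ)) → Z)
    (h : ∀ K, Continuous fun t : Fin K → ℝ => f ⟨K, t⟩) : Measurable f :=
  (continuous_sigma_iff.2 h).measurable

theorem isOpen_cfg_pos : IsOpen {w : Σ K : ℕ, (Fin K → ℝ) | ∀ k, 0 < w.2 k} := by
  rw [isOpen_sigma_iff]
  intro K
  have h1 : (Sigma.mk K ⁻¹' {w : Σ K : ℕ, (Fin K → ℝ) | ∀ k, 0 < w.2 k}) =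
      ⋂ k : Fin K, {t : Fin K → ℝ | 0 < t k} := by
    ext t
    simp
  rw [h1]
  exact isOpen_iInter_of_finite fun k => isOpen_lt continuous_const (continuous_apply k)

open Classical in
/-- A family of continuous functions indexed by configurations that is continuous on the positive
configurations of each size, cut off outside of them, is strongly measurable. -/
theorem stronglyMeasurable_cfg {E : Type*} [TopologicalSpace E] [TopologicalSpace.PseudoMetrizableSpace E]
    [SecondCountableTopology E] (g : (Σ K : ℕ, (Fin K → ℝ)) → E) (e : E)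
    (h : ∀ K, ContinuousOn (fun t : Fin K → ℝ => g ⟨K, t⟩) {t | ∀ k, 0 < t k}) :
    StronglyMeasurable fun w : Σ K : ℕ, (Fin K → ℝ) => if ∀ k, 0 < w.2 k then g w else e := by
  let _ : MeasurableSpace E := borel E
  have _ : BorelSpace E := ⟨rfl⟩
  have hU := isOpen_cfg_pos
  have hg : ContinuousOn g {w : Σ K : ℕ, (Fin K → ℝ) | ∀ k, 0 < w.2 k} := by
    intro w hw
    refine ContinuousAt.continuousWithinAt ?_
    obtain ⟨K, t⟩ := w
    have h2 : ContinuousAt (fun t : Fin K → ℝ => g ⟨K, t⟩) t := by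
      refine (h K).continuousAt ?_
      have h3 := isOpen_sigma_iff.1 hU K
      exact h3.mem_nhds hw
    have h4 : 𝓝 (⟨K, t⟩ : Σ K : ℕ, (Fin K → ℝ)) = Filter.map (Sigma.mk K) (𝓝 t) := by
      rw [Sigma.nhds_mk]
    rw [ContinuousAt, h4, tendsto_map'_iff]
    exact h2
  have h5 := ContinuousOn.measurable_piecewise hg (continuousOn_const (c := e)) hU.measurableSet
  have h6 : (fun w : Σ K : ℕ, (Fin K → ℝ) => if ∀ k, 0 < w.2 k then g w else e) =
      ({w : Σ K : ℕ, (Fin K → ℝ) | ∀ k, 0 < w.2 k}).piecewise g (fun _ => e) := by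
    funext w
    simp only [Set.piecewise, Set.mem_ofPred_eq]
  rw [h6]
  exact h5.stronglyMeasurable

/-- A family of continuous functions indexed by configurations that is continuous on the positive
configurations of each size is almost everywhere strongly measurable if almost all
configurations are positive. -/
theorem aestronglyMeasurable_cfg {E : Type*} [TopologicalSpace E]
    [TopologicalSpace.PseudoMetrizableSpace E] [SecondCountableTopology E]
    (μ : Measure (Σ K : ℕ, (Fin K → ℝ))) (g : (Σ K : ℕ, (Fin K → ℝ)) → E)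
    (h : ∀ K, ContinuousOn (fun t : Fin K → ℝ => g ⟨K, t⟩) {t | ∀ k, 0 < t k})
    (hμ : ∀ᵐ w ∂μ, ∀ k, 0 < w.2 k) : AEStronglyMeasurable g μ := by
  rcases isEmpty_or_nonempty E with hE | ⟨⟨e⟩⟩
  · exact (hE.false (g ⟨0, fun _ => 0⟩)).elim
  · refine ⟨_, stronglyMeasurable_cfg g e h, ?_⟩
    filter_upwards [hμ] with w hw
    rw [if_pos hw]

end Pool.Agent.S91X
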