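import Pool.Agent.S91X.Tlemma
import Pool.Agent.S91X.Fam
import Pool.Agent.S91X.Lexp
import Pool.Agent.S91X.Schur
import Pool.Agent.S91X.Trs
import Pool.Agent.S91X.Mix
import Pool.Agent.S91X.Exact
import Pool.Agent.S91X.App
import Pool.Agent.S91X.BlockN

open MeasureTheory Metric Set Filter Topology Module
open scoped Matrix

namespace Pool.Agent.S91X

open Pool.Agent.S50X

variable {n : ℕ}

/-- The coefficients of `m z`. -/
noncomputable def cM (m : ℝ) (k : ℕ) : ℝ := if k = 1 then m else 0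

theorem cM_bound (m : ℝ) (k : ℕ) : |cM m k| ≤ |m| * 1 ^ k := by
  unfold cM
  split_ifs <;> simp

theorem sc_cM (m : ℝ) (z : ℂ) : sc (cM m) z = m * z := by
  unfold sc
  rw [tsum_eq_single 1]
  · simp [cM]
  · intro k hk
    simp [cM, hk]

theorem rpow_le_add_one {a h : ℝ} (ha0 : 0 < a) (ha1 : a < 1) (hh : 0 ≤ h) : h ^ a ≤ h + 1 := by
  rcases le_total h 1 with h1 | h1
  · have := Real.rpow_le_one hh h1 ha0.le
    linarith
  · have := Real.rpow_le_rpow_of_exponent_le h1 ha1.le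
    rw [Real.rpow_one] at this
    linarith

theorem cM_low {a m : ℝ} (ha0 : 0 < a) (ha1 : a < 1) (hm : 0 < m) (z : ℂ) (h : ℝ) (hh : 0 ≤ h)
    (hz : h - 1 ≤ z.re) : m * h ^ a - 2 * m ≤ (sc (cM m) z).re := by
  rw [sc_cM, Complex.re_ofReal_mul]
  have := rpow_le_add_one ha0 ha1 hh
  nlinarith

theorem phi_cM (m : ℝ) {κ : Type} [Fintype κ] (s : κ → ℝ) (x : VN n) :
    phi (cM m) s x = Real.exp (-(m / n * ‖x‖ ^ 2)) * ∏ k, tau (s k) (eig x) := by
  unfold phi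
  congr 2
  have h := (spec_real x).2.2
  simp only [sc_cM, ← Complex.ofReal_mul, Complex.ofReal_re]
  rw [← Finset.mul_sum, h]
  ring

theorem continuous_tau {X : Type*} [TopologicalSpace X] {s : X → ℝ} (hs : Continuous s)
    (y : Fin n → ℝ) : Continuous fun x => tau (s x) y := by
  unfold tau
  fun_prop

theorem tau_zero_right (hn : 0 < n) (s : ℝ) : tau s (eig (0 : VN n)) = 1 := by
  unfold tau
  have hn' : (n : ℝ) ≠ 0 := by exact_mod_cast hn.ne'
  simp [eig_zero, hn']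

/-- Joint continuity of the densities. -/
theorem continuous_Tdens_phi (hn : 0 < n) {p : ℝ} (hp : 0 < p) {Ω : Type*}
    [TopologicalSpace Ω] [FirstCountableTopology Ω] {κ : Type} [Fintype κ] (c : Ω → ℕ → ℝ)
    (s : Ω → κ → ℝ) (hs : Continuous s) (hs0 : ∀ ω k, 0 ≤ s ω k)
    (hc : ∀ z, Continuous fun ω => sc (c ω) z) {M ρ : ℝ} (hb : ∀ ω k, |c ω k| ≤ M * ρ ^ k)
    {a c₀ C₀ : ℝ} (ha0 : 0 < a) (ha1 : a < 1) (hc₀ : 0 < c₀)
    (hlow : ∀ ω (z : ℂ) (h : ℝ), 0 ≤ h → h - 1 ≤ z.re → c₀ * h ^ a - C₀ ≤ (sc (c ω) z).re) :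
    Continuous fun ω => Tdens p (phi (n := n) (c ω) (s ω)) := by
  have : Nonempty (Fin n) := ⟨⟨0, hn⟩⟩
  refine Tdens_continuous hp _ (fun x => ?_) fun ω₀ => ?_
  · unfold phi
    refine Continuous.mul ?_ ?_
    · refine Real.continuous_exp.comp (Continuous.neg (Continuous.div_const ?_ _))
      refine continuous_finsetSum _ fun i _ => ?_
      exact Complex.continuous_re.comp (hc _)
    · refine continuous_finsetProd _ fun k _ => ?_
      exact continuous_tau ((continuous_apply k).comp hs) _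
  · refine ⟨GG (n := n) a c₀ (C₀ + (∑ k, s ω₀ k + 1)), ?_⟩
    have h1 : Continuous fun ω => ∑ k, s ω k :=
      continuous_finsetSum _ fun k _ => (continuous_apply k).comp hs
    have h2 : ∀ᶠ ω in 𝓝 ω₀, ∑ k, s ω k < ∑ k, s ω₀ k + 1 :=
      h1.continuousAt.eventually (gt_mem_nhds (by linarith))
    filter_upwards [h2] with ω hω
    exact ⟨_, tube_phi hn ha0 ha1 hc₀ (hb ω) (hlow ω) (s ω) (hs0 ω) hω.le⟩

theorem sum_eig_ray (x : VN n) (l : ℝ) (f : ℝ → ℝ) :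
    ∑ i, f (eig (√l • x) i) = ∑ i, f (max l 0 * eig x i) := by
  rcases le_total 0 l with h | h
  · rw [max_eq_left h]
    exact eig_smul_sum x h f
  · rw [max_eq_right h, Real.sqrt_eq_zero_of_nonpos h]
    have := eig_smul_sum x le_rfl f
    simpa using this

theorem phi_ray (c : ℕ → ℝ) {κ : Type} [Fintype κ] (s : κ → ℝ) (x : VN n) (l : ℝ) :
    phi c s (√l • x) = Real.exp (-((∑ i, (sc c ((max l 0 * eig x i : ℝ) : ℂ)).re) / n)) *
      ∏ k, tau (s k) (fun i => max l 0 * eig x i) := by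
  unfold phi tau
  rw [sum_eig_ray x l (fun v => (sc c (v : ℂ)).re)]
  congr 1
  refine Finset.prod_congr rfl fun k _ => ?_
  rw [sum_eig_ray x l (fun v => Real.exp (-(s k * v)))]

variable [NeZero n]

theorem phi_zero {c : ℕ → ℝ} (hc : sc c 0 = 0) {κ : Type} [Fintype κ] (s : κ → ℝ) :
    phi c s (0 : VN n) = 1 := by
  unfold phi
  simp [eig_zero, hc, tau_zero_right (NeZero.pos n)]

omit [NeZero n] in
theorem block_nonneg {m : ℝ} {κ : Type} [Fintype κ] (s : κ → ℝ) (x : VN n) :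
    0 ≤ phi (cM m) s x := by
  unfold phi
  exact mul_nonneg (Real.exp_pos _).le (Finset.prod_nonneg fun k _ => tau_nonneg _ _)

theorem block_le_one {m : ℝ} (hm : 0 ≤ m) {κ : Type} [Fintype κ] {s : κ → ℝ}
    (hs : ∀ k, 0 ≤ s k) (x : VN n) : phi (cM m) s x ≤ 1 := by
  rw [phi_cM]
  refine mul_le_one₀ ?_ (Finset.prod_nonneg fun k _ => tau_nonneg _ _)
    (Finset.prod_le_one (fun k _ => tau_nonneg _ _)
      fun k _ => tau_le_one (hs k) (spec_real x).2.1)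
  rw [Real.exp_le_one_iff]
  have : 0 ≤ m / n * ‖x‖ ^ 2 := by positivity
  linarith

theorem tube_block {m : ℝ} (hm : 0 < m) {κ : Type} [Fintype κ] {s : κ → ℝ}
    (hs : ∀ k, 0 ≤ s k) : Tube (phi (n := n) (cM m) s) (Phi (cM m) s)
      (GG (n := n) (1 / 2) m (2 * m + ∑ k, s k)) :=
  tube_phi (NeZero.pos n) (by norm_num) (by norm_num) hm (cM_bound m)
    (cM_low (by norm_num) (by norm_num) hm) s hs le_rfl

theorem tube_cL {a η δ : ℝ} (ha0 : 0 < a) (ha1 : a < 1) (hη : η ∈ Icc (0 : ℝ) 1)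
    (hδ : δ ∈ Icc (0 : ℝ) 1) {κ : Type} [Fintype κ] (t : κ → ℝ) (ht : ∀ k, 0 ≤ t k) :
    ∃ G : VN n → ℝ, Tube (phi (n := n) (cL a η δ) t) (Phi (cL a η δ) t) G := by
  obtain ⟨c₀, hc₀, C₀, hlow⟩ := sc_lower ha0 ha1
  exact ⟨_, tube_phi (NeZero.pos n) ha0 ha1 hc₀ (cL_bound ha0 ha1 hη hδ)
    (hlow η hη δ hδ) t ht le_rfl⟩

/-- The truncated functions are mixtures of blocks. -/
theorem app_trunc {p a η δ : ℝ} (hp0 : 0 < p) (hp2 : p < 2) (ha0 : 0 < a) (ha1 : a < 1)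
    (hη : 0 < η) (hη1 : η ≤ 1) (hδ : 0 < δ) (hδ1 : δ ≤ 1) {κ : Type} [Fintype κ] (t : κ → ℝ)
    (ht : ∀ k, 0 ≤ t k) : App p (Rep p) (Lam p (phi (n := n) (cL a η δ) t)) := by
  classical
  have : Nonempty (Fin n) := ⟨⟨0, NeZero.pos n⟩⟩
  have hn : (0 : ℝ) < n := by exact_mod_cast NeZero.pos n
  have hn0 : (n : ℝ) ≠ 0 := hn.ne'
  set m : ℝ := δ ^ (1 - a) / (1 - a) with hm
  have hm0 : 0 < m := by
    have : 0 < 1 - a := by linarith
    positivity
  have hfin : IsFiniteMeasure (jmp η a (Ioc δ 1)) := isFiniteMeasure_jmp ha0 hδ Ioc_subset_Ioi_self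
  set μ : Measure Cfg := poi (jmp η a (Ioc δ 1)) with hμ
  let S : (w : Cfg) → (Fin w.1 ⊕ κ) → ℝ := fun w => Sum.elim (fun j => η * w.2 j) t
  let f : Cfg → VN n → ℝ := fun w => phi (cM m) (S w)
  have hae : ∀ᵐ w ∂μ, ∀ k, 0 < w.2 k := by
    filter_upwards [ae_poi (ae_jmp (η := η) (a := a) measurableSet_Ioc)] with w hw k
    exact hδ.trans (hw k).1
  have hS : ∀ w : Cfg, (∀ k, 0 < w.2 k) → ∀ q, 0 ≤ S w q := by
    rintro w hw (j | k)
    · exact mul_nonneg hη.le (hw j).le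
    · exact ht k
  have hF : ∀ y : VN n, phi (cL a η δ) t y = ∫ w, f w y ∂μ := by
    intro y
    have e1 := exp_of_sc (a := a) (η := η) (n := n) hδ.le
      (fun z => sc_cL ha0 ha1 hη hη1 hδ.le hδ1 z) (eig y)
    have e2 := psi_trunc (m := m / n) ha0 hη hδ (spec_real y).2.1
    unfold phi
    rw [e1]
    have e3 : -(η⁻¹ * (∫ t in Ioc δ 1, (1 - tau (η * t) (eig y)) * t ^ (-1 - a)) +
        δ ^ (1 - a) / (1 - a) / n * ∑ i, eig y i) =
        -(η⁻¹ * ∫ t in Ioc δ 1, (1 - tau (η * t) (eig y)) * t ^ (-1 - a)) -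
          m / n * ∑ i, eig y i := by
      rw [hm]
      ring
    rw [e3, e2, ← integral_mul_const]
    refine integral_congr_ae (Eventually.of_forall fun w => ?_)
    simp only [f, S]
    rw [phi_cM, Fintype.prod_sum_type, (spec_real y).2.2]
    simp only [Sum.elim_inl, Sum.elim_inr]
    ring
  obtain ⟨G, hT⟩ := tube_cL (n := n) ha0 ha1 ⟨hη.le, hη1⟩ ⟨hδ.le, hδ1⟩ t ht
  have hmix : ∀ x : VN n, Integrable (fun w => Lam p (f w) x) μ ∧
      Lam p (phi (cL a η δ) t) x = ∫ w, Lam p (f w) x ∂μ := by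
    intro x
    refine Lam_mix μ f x ?_ ?_ ?_ hF hp0 hp2 ?_
    · refine measurable_cfg_prod _ fun K => ?_
      show Continuous fun z : (Fin K → ℝ) × ℝ =>
        phi (cM m) (Sum.elim (fun j => η * z.1 j) t) (√z.2 • x)
      simp only [phi_ray]
      refine Continuous.mul ?_ (continuous_finsetProd _ fun q _ => ?_)
      · simp only [sc_cM]
        fun_prop
      · unfold tau
        rcases q with j | k
        · simp only [Sum.elim_inl]
          fun_prop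
        · simp only [Sum.elim_inr]
          fun_prop
    · exact Eventually.of_forall fun w => phi_zero (by simp [sc_cM]) _
    · filter_upwards [hae] with w hw y
      exact ⟨block_nonneg _ _, block_le_one hm0.le (hS w hw) y⟩
    · exact (Tdens_spec hp0 hp2 hT x).1
  have hmain := App.integral (𝒞 := Rep p) hp0 (cone_rep hp0) μ (fun w => Lam p (f w))
    (fun w => Tdens p (f w)) ?_ ?_ ?_ ?_ (fun x => (hmix x).1)
  · exact App.congr hmain fun x => (hmix x).2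
  · -- measurability
    have h1 := stronglyMeasurable_cfg (fun w => Tdens p (f w)) 0 (fun K => ?_)
    · refine h1.aestronglyMeasurable.congr ?_
      filter_upwards [hae] with w hw
      rw [if_pos hw]
    · rw [continuousOn_iff_continuous_domRestrict]
      have h2 := continuous_Tdens_phi (n := n) (NeZero.pos n) hp0
        (Ω := {t : Fin K → ℝ | ∀ k, 0 < t k}) (κ := Fin K ⊕ κ) (fun _ => cM m)
        (fun ω => Sum.elim (fun j => η * ω.1 j) t) ?_ ?_ (fun z => continuous_const)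
        (fun _ => cM_bound m) (a := 1 / 2) (by norm_num) (by norm_num) hm0
        (fun _ => cM_low (by norm_num) (by norm_num) hm0)
      · exact h2
      · refine continuous_pi fun q => ?_
        rcases q with j | k
        · simp only [Sum.elim_inl]
          exact continuous_const.mul ((continuous_apply j).comp continuous_subtype_val)
        · simp only [Sum.elim_inr]
          fun_prop
      · intro ω q
        exact hS ⟨K, ω.1⟩ ω.2 q
  · filter_upwards [hae] with w hw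
    exact Tdens_cinv hp0 (tube_block hm0 (hS w hw))
  · filter_upwards [hae] with w hw x
    exact (Tdens_spec hp0 hp2 (tube_block hm0 (hS w hw)) x).2
  · filter_upwards [hae] with w hw
    refine App.of_mem ?_
    have h1 := block_rep (NeZero.pos n) hp0 hp2 (div_pos hm0 hn) (S w) (hS w hw)
    have h2 : f w = fun x : VN n => Real.exp (-(m / n * ‖x‖ ^ 2)) *
        ∏ k, tau (S w k) (eig x) := by
      funext x
      exact phi_cM _ _ _
    show Rep p (Lam p (f w))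
    rw [h2]
    exact h1.rep

theorem continuous_Tdens_cL {p a : ℝ} (hp0 : 0 < p) (ha0 : 0 < a) (ha1 : a < 1) {κ : Type}
    [Fintype κ] (t : κ → ℝ) (ht : ∀ k, 0 ≤ t k) :
    Continuous fun w : Icc (0 : ℝ) 1 × Icc (0 : ℝ) 1 =>
      Tdens p (phi (n := n) (cL a w.1 w.2) t) := by
  obtain ⟨c₀, hc₀, C₀, hlow⟩ := sc_lower ha0 ha1
  have h0 : ∀ z : ℂ, Continuous fun w : Icc (0 : ℝ) 1 × Icc (0 : ℝ) 1 =>
      sc (cL a w.1 w.2) z := by
    intro z
    have h1 := continuous_sc_cL ha0 ha1 z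
    have h2 : Continuous fun w : Icc (0 : ℝ) 1 × Icc (0 : ℝ) 1 => ((w.1 : ℝ), (w.2 : ℝ)) :=
      (continuous_subtype_val.comp continuous_fst).prodMk
        (continuous_subtype_val.comp continuous_snd)
    have h3 : ∀ w : Icc (0 : ℝ) 1 × Icc (0 : ℝ) 1, ((w.1 : ℝ), (w.2 : ℝ)) ∈
        Icc (0 : ℝ) 1 ×ˢ Icc (0 : ℝ) 1 := fun w => Set.mk_mem_prod w.1.2 w.2.2
    have h4 := h1.comp_continuous h2 h3
    exact h4
  have h3 : ∀ (w : Icc (0 : ℝ) 1 × Icc (0 : ℝ) 1) (k : ℕ),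
      |cL a w.1 w.2 k| ≤ 1 / (1 - a) * 1 ^ k := fun w k => cL_bound ha0 ha1 w.1.2 w.2.2 k
  have h4 : ∀ (w : Icc (0 : ℝ) 1 × Icc (0 : ℝ) 1) (z : ℂ) (h : ℝ), 0 ≤ h → h - 1 ≤ z.re →
      c₀ * h ^ a - C₀ ≤ (sc (cL a w.1 w.2) z).re := fun w => hlow _ w.1.2 _ w.2.2
  exact continuous_Tdens_phi (n := n) (NeZero.pos n) hp0
    (fun w : Icc (0 : ℝ) 1 × Icc (0 : ℝ) 1 => cL a w.1 w.2) (fun _ => t) continuous_const
    (fun _ k => ht k) h0 h3 ha0 ha1 hc₀ h4

theorem exists_delta : ∃ δ : ℕ → Icc (0 : ℝ) 1, (∀ j, (0 : ℝ) < δ j) ∧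
    Tendsto δ atTop (𝓝 ⟨0, le_rfl, zero_le_one⟩) := by
  refine ⟨fun j => ⟨1 / ((j : ℝ) + 1), by positivity, ?_⟩, fun j => ?_, ?_⟩
  · rw [div_le_one (by positivity)]
    have : (0 : ℝ) ≤ j := Nat.cast_nonneg j
    linarith
  · show (0 : ℝ) < 1 / ((j : ℝ) + 1)
    positivity
  · rw [tendsto_subtype_rng]
    exact tendsto_one_div_add_atTop_nhds_zero_nat

/-- The functions of the configurations of large jumps. -/
theorem app_conf {p a η : ℝ} (hp0 : 0 < p) (hp2 : p < 2) (ha0 : 0 < a) (ha1 : a < 1)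
    (hη : 0 < η) (hη1 : η ≤ 1) {κ : Type} [Fintype κ] (t : κ → ℝ) (ht : ∀ k, 0 ≤ t k) :
    App p (Rep p) (Lam p (phi (n := n) (cL a η 0) t)) := by
  have hne : Nonempty (Fin n) := ⟨⟨0, NeZero.pos n⟩⟩
  have hη' : η ∈ Icc (0 : ℝ) 1 := ⟨hη.le, hη1⟩
  obtain ⟨δ, hδ0, hδt⟩ := exists_delta
  have h01 : (0 : ℝ) ∈ Icc (0 : ℝ) 1 := ⟨le_rfl, zero_le_one⟩
  obtain ⟨G, hG⟩ := tube_cL (n := n) ha0 ha1 hη' h01 t ht
  have hT : ∀ j, ∃ G : VN n → ℝ,
      Tube (phi (n := n) (cL a η (δ j)) t) (Phi (cL a η (δ j)) t) G := fun j =>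
    tube_cL ha0 ha1 hη' (δ j).2 t ht
  obtain ⟨D, hD⟩ : ∃ D : Icc (0 : ℝ) 1 × Icc (0 : ℝ) 1 → C(Sph (Fin n × Fin n), ℝ),
      D = fun w => Tdens p (phi (n := n) (cL a w.1 w.2) t) := ⟨_, rfl⟩
  have hDc : Continuous D := by
    rw [hD]
    exact continuous_Tdens_cL (n := n) hp0 ha0 ha1 t ht
  have hD1 : ∀ d : Icc (0 : ℝ) 1, Tdens p (phi (n := n) (cL a η d) t) = D (⟨η, hη'⟩, d) := by
    intro d
    rw [hD]
  have hD0 : Tdens p (phi (n := n) (cL a η 0) t) = D (⟨η, hη'⟩, ⟨0, h01⟩) := by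
    rw [hD]
  have hlim : Tendsto (fun j => D (⟨η, hη'⟩, δ j)) atTop (𝓝 (D (⟨η, hη'⟩, ⟨0, h01⟩))) := by
    have h1 : Continuous fun d : Icc (0 : ℝ) 1 => D (⟨η, hη'⟩, d) :=
      hDc.comp (continuous_const.prodMk continuous_id)
    exact (h1.tendsto ⟨0, h01⟩).comp hδt
  have hc0 : CInv (D (⟨η, hη'⟩, ⟨0, h01⟩)) := by
    rw [← hD0]
    exact Tdens_cinv hp0 hG
  have hcj : ∀ j, CInv (D (⟨η, hη'⟩, δ j)) := by
    intro j
    obtain ⟨G', hG'⟩ := hT j
    rw [← hD1]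
    exact Tdens_cinv hp0 hG'
  refine App.limit hp0 _ (fun j => Lam p (phi (n := n) (cL a η (δ j)) t))
    (fun j => D (⟨η, hη'⟩, ⟨0, h01⟩) - D (⟨η, hη'⟩, δ j))
    (fun j => hc0.sub (hcj j)) ?_ (fun j x => ?_) (fun j => ?_)
  · have h2 := (tendsto_const_nhds (x := D (⟨η, hη'⟩, ⟨0, h01⟩))).sub hlim
    rwa [sub_self] at h2
  · obtain ⟨G', hG'⟩ := hT j
    rw [ker_sub hp0, (Tdens_spec hp0 hp2 hG' x).2, (Tdens_spec hp0 hp2 hG x).2, hD1, hD0]
    ring
  · exact app_trunc hp0 hp2 ha0 ha1 hη hη1 (hδ0 j) (δ j).2.2 t ht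

end Pool.Agent.S91X
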