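import Pool.Agent.S50X.Assembly
import Pool.Agent.S50X.Ker

open MeasureTheory Metric Set Filter Topology Module

namespace Pool.Agent.S91X

open Pool.Agent.S50X

variable {ι : Type} [Fintype ι]

/-- A class of functions that is closed under countable nonnegative combinations. -/
structure CountCone (C : Set (EC ι → ℝ)) : Prop where
  zero : (fun _ => 0) ∈ C
  hasSum : ∀ (c : ℕ → ℝ) (G : ℕ → EC ι → ℝ) (F : EC ι → ℝ), (∀ i, 0 ≤ c i) → (∀ i, G i ∈ C) →
    (∀ x, HasSum (fun i => c i * G i x) (F x)) → F ∈ C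

theorem CountCone.add {C : Set (EC ι → ℝ)} (h : CountCone C) {F G : EC ι → ℝ}
    (hF : F ∈ C) (hG : G ∈ C) : (fun x => F x + G x) ∈ C := by
  refine h.hasSum (fun i => if i < 2 then 1 else 0) (fun i => if i = 0 then F else G) _
    (fun i => ?_) (fun i => ?_) fun x => ?_
  · split_ifs <;> simp
  · split_ifs
    · exact hF
    · exact hG
  · have h1 : HasSum (fun i : ℕ => (if i < 2 then (1 : ℝ) else 0) * (if i = 0 then F else G) x)
        (∑ i ∈ Finset.range 2, (if i < 2 then (1 : ℝ) else 0) * (if i = 0 then F else G) x) :=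
      hasSum_sum_of_ne_finset_zero (fun i hi => by
        have : ¬ i < 2 := by simpa using hi
        simp [this])
    simpa [Finset.sum_range_succ] using h1

theorem CountCone.smul {C : Set (EC ι → ℝ)} (h : CountCone C) {c : ℝ} (hc : 0 ≤ c)
    {F : EC ι → ℝ} (hF : F ∈ C) : (fun x => c * F x) ∈ C := by
  refine h.hasSum (fun i => if i = 0 then c else 0) (fun _ => F) _ (fun i => ?_) (fun _ => hF)
    fun x => ?_
  · split_ifs <;> simp [hc]
  · have h1 : HasSum (fun i : ℕ => (if i = 0 then c else (0 : ℝ)) * F x)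
        (∑ i ∈ Finset.range 1, (if i = 0 then c else (0 : ℝ)) * F x) :=
      hasSum_sum_of_ne_finset_zero (fun i hi => by
        have : i ≠ 0 := by simpa using hi
        simp [this])
    simpa using h1

/-- The functions that lie in the class up to an arbitrarily small kernel. -/
def App (C : Set (EC ι → ℝ)) (p : ℝ) : Set (EC ι → ℝ) :=
  {F | ∀ ε : ℝ, 0 < ε → ∃ G ∈ C, ∃ e : C(Sph ι, ℝ), CInv e ∧ ‖e‖ ≤ ε ∧
    ∀ x, F x = G x + ker p e x}

theorem mem_App_of_mem {C : Set (EC ι → ℝ)} {p : ℝ} {F : EC ι → ℝ} (hF : F ∈ C) :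
    F ∈ App C p := by
  intro ε hε
  refine ⟨F, hF, 0, fun c u v _ _ => rfl, by simpa using hε.le, fun x => ?_⟩
  simp [Pool.Agent.S50X.ker]

theorem CInv.add' {f g : C(Sph ι, ℝ)} (hf : CInv f) (hg : CInv g) : CInv (f + g) := by
  intro c u v hc hv
  simp [hf c u v hc hv, hg c u v hc hv]

/-- Closure of `App` under small perturbations by kernels. -/
theorem app_of_approx {C : Set (EC ι → ℝ)} {p : ℝ} (hp : 0 < p) {F : EC ι → ℝ}
    (h : ∀ ε : ℝ, 0 < ε → ∃ F' ∈ App C p, ∃ e : C(Sph ι, ℝ), CInv e ∧ ‖e‖ ≤ ε ∧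
      ∀ x, F x = F' x + ker p e x) : F ∈ App C p := by
  intro ε hε
  obtain ⟨F', hF', e, he, hen, hFe⟩ := h (ε / 2) (by positivity)
  obtain ⟨G, hG, e', he', hen', hFe'⟩ := hF' (ε / 2) (by positivity)
  refine ⟨G, hG, e' + e, CInv.add' he' he, ?_, fun x => ?_⟩
  · refine (norm_add_le _ _).trans ?_
    linarith
  · rw [hFe, hFe', ker_add hp]
    ring

theorem app_add {C : Set (EC ι → ℝ)} (hC : CountCone C) {p : ℝ} (hp : 0 < p)
    {F F' : EC ι → ℝ} (hF : F ∈ App C p) (hF' : F' ∈ App C p) :
    (fun x => F x + F' x) ∈ App C p := by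
  intro ε hε
  obtain ⟨G, hG, e, he, hen, hFe⟩ := hF (ε / 2) (by positivity)
  obtain ⟨G', hG', e', he', hen', hFe'⟩ := hF' (ε / 2) (by positivity)
  refine ⟨_, hC.add hG hG', e + e', CInv.add' he he', ?_, fun x => ?_⟩
  · refine (norm_add_le _ _).trans ?_
    linarith
  · show F x + F' x = _
    rw [hFe, hFe', ker_add hp]
    ring

theorem app_smul {C : Set (EC ι → ℝ)} (hC : CountCone C) {p : ℝ} {c : ℝ} (hc : 0 ≤ c)
    {F : EC ι → ℝ} (hF : F ∈ App C p) : (fun x => c * F x) ∈ App C p := by
  intro ε hε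
  obtain ⟨G, hG, e, he, hen, hFe⟩ := hF (ε / (c + 1)) (by positivity)
  refine ⟨_, hC.smul hc hG, c • e, he.smul c, ?_, fun x => ?_⟩
  · rw [norm_smul, Real.norm_eq_abs, abs_of_nonneg hc]
    calc c * ‖e‖ ≤ c * (ε / (c + 1)) := by gcongr
      _ = (c / (c + 1)) * ε := by ring
      _ ≤ 1 * ε := by
        gcongr
        rw [div_le_one (by linarith)]
        linarith
      _ = ε := one_mul ε
  · show c * F x = _
    rw [hFe, ker_smul]
    ring

/-- The discretisation lemma: integrals of members of `App` with strongly measurable continuous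
densities are again members of `App`. -/
theorem app_integral {C : Set (EC ι → ℝ)} (hC : CountCone C) {p : ℝ} (hp : 0 < p)
    {Ω : Type*} [MeasurableSpace Ω] (μ : Measure Ω) [IsFiniteMeasure μ]
    (g : Ω → C(Sph ι, ℝ)) (hg : StronglyMeasurable g) (hinv : ∀ ω, CInv (g ω))
    (hF : ∀ ω, (fun x => ker p (g ω) x) ∈ App C p)
    (hint : ∀ x, Integrable (fun ω => ker p (g ω) x) μ) :
    (fun x => ∫ ω, ker p (g ω) x ∂μ) ∈ App C p := by
  classical
  rcases isEmpty_or_nonempty Ω with hΩ | hΩ
  · have : (fun x => ∫ ω, ker p (g ω) x ∂μ) = fun _ : EC ι => (0 : ℝ) := by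
      funext x
      rw [Measure.eq_zero_of_isEmpty μ, integral_zero_measure]
    rw [this]
    exact mem_App_of_mem hC.zero
  intro ε hε
  set δ : ℝ := ε / (2 * (μ.real univ + 1)) with hδ
  have hu0 : (0 : ℝ) ≤ μ.real univ := measureReal_nonneg
  have hδ0 : 0 < δ := by positivity
  -- a dense sequence of values
  have hne : Nonempty (range g) := ⟨⟨g hΩ.some, mem_range_self _⟩⟩
  let d : ℕ → range g := TopologicalSpace.denseSeq (range g)
  choose w hw using fun i : ℕ => (d i).2
  have hcov : ∀ ω, ∃ i, ‖g ω - g (w i)‖ < δ := by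
    intro ω
    have hopen : IsOpen {y : range g | ‖g ω - (y : C(Sph ι, ℝ))‖ < δ} :=
      isOpen_lt (continuous_const.sub continuous_subtype_val).norm continuous_const
    obtain ⟨i, hi⟩ := (TopologicalSpace.denseRange_denseSeq (range g)).exists_mem_open hopen
      ⟨⟨g ω, mem_range_self _⟩, by simpa using hδ0⟩
    refine ⟨i, ?_⟩
    rw [hw]
    exact hi
  let s : Ω → ℕ := fun ω => Nat.find (hcov ω)
  have hs : ∀ ω, ‖g ω - g (w (s ω))‖ < δ := fun ω => Nat.find_spec (hcov ω)
  have hsmeas : Measurable s := by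
    refine measurable_find hcov fun i => ?_
    exact measurableSet_lt (hg.sub stronglyMeasurable_const).norm.measurable measurable_const
  have hgw : StronglyMeasurable (fun ω => g (w (s ω))) := by
    have h1 : StronglyMeasurable (fun i : ℕ => g (w i)) := StronglyMeasurable.of_discrete
    exact h1.comp_measurable hsmeas
  choose G hG e he hen hFe using fun i : ℕ => hF (w i) δ hδ0
  have hem : StronglyMeasurable (fun ω => e (s ω)) := by
    have h1 : StronglyMeasurable (fun i : ℕ => e i) := StronglyMeasurable.of_discrete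
    exact h1.comp_measurable hsmeas
  have hi : Integrable (fun ω => g ω - g (w (s ω)) + e (s ω)) μ := by
    refine Integrable.of_bound ((hg.sub hgw).add hem).aestronglyMeasurable (2 * δ) ?_
    refine Eventually.of_forall fun ω => (norm_add_le _ _).trans ?_
    have h1 := (hs ω).le
    have h2 := hen (s ω)
    linarith
  have hker : ∀ ω x, ker p (g ω) x =
      kerL hp x (g ω - g (w (s ω)) + e (s ω)) + G (s ω) x := by
    intro ω x
    have h1 : Pool.Agent.S50X.ker p (g (w (s ω))) x =
        G (s ω) x + Pool.Agent.S50X.ker p (e (s ω)) x := hFe (s ω) x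
    rw [kerL_apply, ker_add hp, ker_sub hp, h1]
    ring
  have hi2 : ∀ x, Integrable (fun ω => G (s ω) x) μ := by
    intro x
    have h1 : Integrable (fun ω => kerL hp x (g ω - g (w (s ω)) + e (s ω))) μ :=
      (kerL hp x).integrable_comp hi
    refine ((hint x).sub h1).congr (Eventually.of_forall fun ω => ?_)
    simp only [Pi.sub_apply]
    rw [hker]
    ring
  refine ⟨fun x => ∫ ω, G (s ω) x ∂μ, ?_, ∫ ω, (g ω - g (w (s ω)) + e (s ω)) ∂μ, ?_, ?_, ?_⟩
  · refine hC.hasSum (fun i => μ.real (s ⁻¹' {i})) G _ (fun i => measureReal_nonneg) hG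
      fun x => ?_
    have hun : (⋃ i, s ⁻¹' {i}) = univ := by
      ext ω
      simp
    have hsumm := hasSum_integral_iUnion (μ := μ) (f := fun ω => G (s ω) x)
      (s := fun i => s ⁻¹' {i})
      (fun i => hsmeas (measurableSet_singleton i))
      (fun i j hij => by
        refine Set.disjoint_left.mpr fun ω h1 h2 => hij ?_
        have h3 : s ω = i := h1
        have h4 : s ω = j := h2
        rw [← h3, ← h4])
      (by rw [hun]; exact (hi2 x).integrableOn)
    rw [hun, Measure.restrict_univ] at hsumm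
    have hfun : (fun i => μ.real (s ⁻¹' {i}) * G i x) =
        fun n => ∫ ω in s ⁻¹' {n}, G (s ω) x ∂μ := by
      funext i
      have h1 : ∀ ω ∈ s ⁻¹' {i}, G (s ω) x = G i x := by
        intro ω hω
        have h3 : s ω = i := hω
        rw [h3]
      rw [setIntegral_congr_fun (hsmeas (measurableSet_singleton i)) h1,
        setIntegral_const, smul_eq_mul]
    rw [hfun]
    exact hsumm
  · intro c u v hc huv
    have h1 := (ContinuousMap.evalCLM ℝ u).integral_comp_comm hi
    have h2 := (ContinuousMap.evalCLM ℝ v).integral_comp_comm hi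
    change ∫ ω, (g ω - g (w (s ω)) + e (s ω)) u ∂μ = (∫ ω, (g ω - g (w (s ω)) + e (s ω)) ∂μ) u
      at h1
    change ∫ ω, (g ω - g (w (s ω)) + e (s ω)) v ∂μ = (∫ ω, (g ω - g (w (s ω)) + e (s ω)) ∂μ) v
      at h2
    rw [← h1, ← h2]
    refine integral_congr_ae (Eventually.of_forall fun ω => ?_)
    exact CInv.add' ((hinv ω).sub (hinv (w (s ω)))) (he (s ω)) c u v hc huv
  · have h1 : ‖∫ ω, (g ω - g (w (s ω)) + e (s ω)) ∂μ‖ ≤ 2 * δ * μ.real univ := by
      refine norm_integral_le_of_norm_le_const (Eventually.of_forall fun ω => ?_)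
      refine (norm_add_le _ _).trans ?_
      have h1 := (hs ω).le
      have h2 := hen (s ω)
      linarith
    refine h1.trans ?_
    rw [hδ]
    calc 2 * (ε / (2 * (μ.real univ + 1))) * μ.real univ
        = ε * (μ.real univ / (μ.real univ + 1)) := by field_simp
      _ ≤ ε * 1 := by
        gcongr
        rw [div_le_one (by linarith)]
        linarith
      _ = ε := mul_one ε
  · intro x
    have h1 : Integrable (fun ω => kerL hp x (g ω - g (w (s ω)) + e (s ω))) μ :=
      (kerL hp x).integrable_comp hi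
    simp only [hker]
    rw [integral_add h1 (hi2 x), (kerL hp x).integral_comp_comm hi, kerL_apply, add_comm]

/-- The end of the argument: a positive continuous density absorbs the error. -/
theorem app_final {C : Set (EC ι → ℝ)} {p : ℝ} (hp : 0 < p) {F : EC ι → ℝ}
    (hF : F ∈ App C p) (f : C(Sph ι, ℝ)) (hf : ∀ u, 0 < f u) (hinv : CInv f) :
    ∃ G ∈ C, ∃ f' : C(Sph ι, ℝ), (∀ u, 0 < f' u) ∧ CInv f' ∧
      ∀ x, ker p f x + F x = G x + ker p f' x := by
  obtain ⟨m, hm0, hm⟩ : ∃ m : ℝ, 0 < m ∧ ∀ u, m ≤ f u := by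
    by_cases hne : Nonempty (Sph ι)
    · obtain ⟨u0, -, hu0⟩ := isCompact_univ.exists_isMinOn (univ_nonempty (α := Sph ι))
        f.continuous.continuousOn
      exact ⟨_, hf u0, fun u => hu0 (mem_univ u)⟩
    · exact ⟨1, one_pos, fun u => absurd ⟨u⟩ hne⟩
  obtain ⟨G, hG, e, he, hen, hFe⟩ := hF (m / 2) (by positivity)
  refine ⟨G, hG, f + e, fun u => ?_, CInv.add' hinv he, fun x => ?_⟩
  · have h1 := (e.norm_coe_le_norm u).trans hen
    rw [Real.norm_eq_abs, abs_le] at h1
    have h2 := hm u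
    simp only [ContinuousMap.add_apply]
    linarith [h1.1]
  · rw [hFe, ker_add hp]
    ring

end Pool.Agent.S91X
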