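import Pool.Agent.S50X.Setup

open MeasureTheory Metric Set Filter Topology Module

namespace Pool.Agent.S91X

open Pool.Agent.S50X

variable {ι : Type} [Fintype ι]

/-- The cosine transform. -/
noncomputable def kap (φ : EC ι → ℝ) (ξ : EC ι) : ℝ :=
  ∫ x, φ x * Real.cos (2 * Real.pi * inner ℝ x ξ)

/-- Joint continuity of cosine transforms. -/
theorem continuous_kap {P : Type*} [TopologicalSpace P] [FirstCountableTopology P]
    (φ : P → EC ι → ℝ) (hφ : ∀ x, Continuous fun q => φ q x)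
    (hm : ∀ q, AEStronglyMeasurable (φ q) volume)
    (hdom : ∀ q₀, ∃ U ∈ 𝓝 q₀, ∃ G : EC ι → ℝ, Integrable G ∧ ∀ q ∈ U, ∀ x, |φ q x| ≤ G x) :
    Continuous fun z : P × EC ι => kap (φ z.1) z.2 := by
  rw [continuous_iff_continuousAt]
  intro z
  obtain ⟨U, hU, G, hG, hb⟩ := hdom z.1
  unfold kap
  refine tendsto_integral_filter_of_dominated_convergence G ?_ ?_ hG ?_
  · refine Eventually.of_forall fun y => (hm y.1).mul ?_
    exact (by fun_prop : Continuous fun x : EC ι =>
      Real.cos (2 * Real.pi * inner ℝ x y.2)).aestronglyMeasurable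
  · have h1 : ∀ᶠ y : P × EC ι in 𝓝 z, y.1 ∈ U := continuous_fst.continuousAt hU
    filter_upwards [h1] with y hy
    refine Eventually.of_forall fun x => ?_
    rw [Real.norm_eq_abs, abs_mul]
    calc |φ y.1 x| * |Real.cos (2 * Real.pi * inner ℝ x y.2)| ≤ |φ y.1 x| * 1 := by
          gcongr
          exact Real.abs_cos_le_one _
      _ ≤ G x := by
          rw [mul_one]
          exact hb y.1 hy x
  · refine Eventually.of_forall fun x => ?_
    have h1 : Continuous fun y : P × EC ι => φ y.1 x * Real.cos (2 * Real.pi * inner ℝ x y.2) :=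
      ((hφ x).comp continuous_fst).mul (by fun_prop)
    exact h1.continuousAt

/-- The radial moment of order `d` of a function in the direction `u`. -/
noncomputable def rad (d : ℝ) (κ : EC ι → ℝ) (u : Sph ι) : ℝ :=
  ∫ r in Ioi (0 : ℝ), r ^ d * κ (r • (u : EC ι))

theorem integrableOn_exp_moment {d s : ℝ} (hd : 0 ≤ d) (hs : 0 < s) (K : ℝ) :
    IntegrableOn (fun r : ℝ => K * (r ^ d * Real.exp (-(s * r)))) (Ioi 0) := by
  refine Integrable.const_mul ?_ K
  have h := integrableOn_rpow_mul_exp_neg_mul_rpow (p := 1) (s := d) (b := s) (by linarith)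
    zero_lt_one hs
  refine h.congr_fun (fun r _ => ?_) measurableSet_Ioi
  simp only [Real.rpow_one, neg_mul]

/-- Joint continuity of the radial moments. -/
theorem continuous_rad {P : Type*} [TopologicalSpace P] [FirstCountableTopology P] {d : ℝ}
    (hd : 0 ≤ d) (κ : P → EC ι → ℝ) (hκ : Continuous fun z : P × EC ι => κ z.1 z.2)
    (hdom : ∀ q₀, ∃ U ∈ 𝓝 q₀, ∃ K s : ℝ, 0 < s ∧ ∀ q ∈ U, ∀ ξ,
      |κ q ξ| ≤ K * Real.exp (-(s * ‖ξ‖))) :
    Continuous fun z : P × Sph ι => rad d (κ z.1) z.2 := by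
  rw [continuous_iff_continuousAt]
  intro z
  obtain ⟨U, hU, K, s, hs, hb⟩ := hdom z.1
  unfold rad
  refine tendsto_integral_filter_of_dominated_convergence
    (fun r : ℝ => K * (r ^ d * Real.exp (-(s * r)))) ?_ ?_ (integrableOn_exp_moment hd hs K) ?_
  · refine Eventually.of_forall fun y => ?_
    have h1 : Continuous fun r : ℝ => κ y.1 (r • (y.2 : EC ι)) :=
      hκ.comp (f := fun r : ℝ => (y.1, r • (y.2 : EC ι))) (by fun_prop)
    have h2 : Continuous fun r : ℝ => r ^ d := Real.continuous_rpow_const hd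
    exact (h2.mul h1).aestronglyMeasurable
  · have h1 : ∀ᶠ y : P × Sph ι in 𝓝 z, y.1 ∈ U := continuous_fst.continuousAt hU
    filter_upwards [h1] with y hy
    refine (ae_restrict_iff' measurableSet_Ioi).2 (ae_of_all _ fun r hr => ?_)
    have hr0 : (0 : ℝ) < r := hr
    have h2 := hb y.1 hy (r • (y.2 : EC ι))
    rw [norm_smul, norm_eq_of_mem_sphere, mul_one, Real.norm_eq_abs, abs_of_pos hr0] at h2
    rw [Real.norm_eq_abs, abs_mul, abs_of_nonneg (Real.rpow_nonneg hr0.le d)]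
    calc r ^ d * |κ y.1 (r • (y.2 : EC ι))| ≤ r ^ d * (K * Real.exp (-(s * r))) := by
          gcongr
      _ = K * (r ^ d * Real.exp (-(s * r))) := by ring
  · refine ae_of_all _ fun r => ?_
    have h1 : Continuous fun y : P × Sph ι => r ^ d * κ y.1 (r • (y.2 : EC ι)) := by
      refine continuous_const.mul ?_
      exact hκ.comp (f := fun y : P × Sph ι => (y.1, r • (y.2 : EC ι))) (by fun_prop)
    exact h1.continuousAt

/-- The radial moments as a continuous map into the continuous functions on the sphere. -/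
noncomputable def radC {P : Type*} [TopologicalSpace P] [FirstCountableTopology P] {d : ℝ}
    (hd : 0 ≤ d) (κ : P → EC ι → ℝ) (hκ : Continuous fun z : P × EC ι => κ z.1 z.2)
    (hdom : ∀ q₀, ∃ U ∈ 𝓝 q₀, ∃ K s : ℝ, 0 < s ∧ ∀ q ∈ U, ∀ ξ,
      |κ q ξ| ≤ K * Real.exp (-(s * ‖ξ‖))) : C(P, C(Sph ι, ℝ)) :=
  ContinuousMap.curry ⟨fun z : P × Sph ι => rad d (κ z.1) z.2, continuous_rad hd κ hκ hdom⟩

theorem radC_apply {P : Type*} [TopologicalSpace P] [FirstCountableTopology P] {d : ℝ}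
    (hd : 0 ≤ d) (κ : P → EC ι → ℝ) (hκ : Continuous fun z : P × EC ι => κ z.1 z.2)
    (hdom : ∀ q₀, ∃ U ∈ 𝓝 q₀, ∃ K s : ℝ, 0 < s ∧ ∀ q ∈ U, ∀ ξ,
      |κ q ξ| ≤ K * Real.exp (-(s * ‖ξ‖))) (q : P) (u : Sph ι) :
    radC hd κ hκ hdom q u = rad d (κ q) u := rfl

end Pool.Agent.S91X
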