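import Pool.Agent.S91X.Base
import Pool.Agent.S50X.Approxnum

open MeasureTheory Metric Set Filter Topology Module
open scoped Matrix

namespace Pool.Agent.S91X

open Pool.Agent.S50X

variable {n : ℕ} {E : Type*} [NormedAddCommGroup E] [InnerProductSpace ℂ E]

/-- The coordinates of an operator in an orthonormal basis. -/
noncomputable def cm (b : OrthonormalBasis (Fin n) ℂ E) : (E →L[ℂ] E) →ₗ[ℂ] VN n where
  toFun x := WithLp.toLp 2 fun ij => inner ℂ (b ij.1) (x (b ij.2))
  map_add' x y := by
    ext ij
    simp
  map_smul' r x := by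
    ext ij
    simp

theorem mt_cm (b : OrthonormalBasis (Fin n) ℂ E) (x : E →L[ℂ] E) (i j : Fin n) :
    mt (cm b x) i j = inner ℂ (b i) (x (b j)) := rfl

/-- The operator acts on coordinates by its matrix. -/
theorem apply_repr_symm (b : OrthonormalBasis (Fin n) ℂ E) (x : E →L[ℂ] E) (e : EC (Fin n)) :
    x (b.repr.symm e) = b.repr.symm (Matrix.toEuclideanLin (mt (cm b x)) e) := by
  apply b.repr.injective
  rw [LinearIsometryEquiv.apply_symm_apply]
  ext i
  rw [b.repr_apply_apply, ← b.sum_repr_symm e, map_sum, inner_sum]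
  simp only [map_smul, inner_smul_right]
  have : (Matrix.toEuclideanLin (mt (cm b x)) e) i = ∑ j, mt (cm b x) i j * e j := rfl
  rw [this]
  exact Finset.sum_congr rfl fun j _ => by rw [mt_cm]; ring

/-- The right singular vectors of a matrix. -/
theorem inner_eigenvector (x : VN n) (i j : Fin n) :
    inner ℂ (Matrix.toEuclideanLin (mt x)
        ((Matrix.isHermitian_conjTranspose_mul_self (mt x)).eigenvectorBasis i))
      (Matrix.toEuclideanLin (mt x)
        ((Matrix.isHermitian_conjTranspose_mul_self (mt x)).eigenvectorBasis j)) =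
      if i = j then ((eig x j : ℝ) : ℂ) else 0 := by
  unfold eig
  set hx := Matrix.isHermitian_conjTranspose_mul_self (mt x) with hhx
  set v := hx.eigenvectorBasis with hv
  rw [← LinearMap.adjoint_inner_right, ← Matrix.toEuclideanLin_conjTranspose_eq_adjoint]
  have h2 : (Matrix.toEuclideanLin (mt x)ᴴ) (Matrix.toEuclideanLin (mt x) (v j)) =
      ((hx.eigenvalues j : ℝ) : ℂ) • v j := by
    have h3 := hx.mulVec_eigenvectorBasis j
    ext k
    have h5 := congrFun h3 k
    rw [← hv, ← Matrix.mulVec_mulVec] at h5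
    have h6 : ((Matrix.toEuclideanLin (mt x)ᴴ) (Matrix.toEuclideanLin (mt x) (v j))) k =
        ((mt x)ᴴ *ᵥ (mt x *ᵥ (v j : Fin n → ℂ))) k := rfl
    rw [h6]
    refine h5.trans ?_
    simp
  rw [h2, inner_smul_right, orthonormal_iff_ite.1 v.orthonormal i j]
  split_ifs <;> simp

theorem norm_eigenvector (x : VN n) (j : Fin n) :
    ‖Matrix.toEuclideanLin (mt x)
        ((Matrix.isHermitian_conjTranspose_mul_self (mt x)).eigenvectorBasis j)‖ ^ 2 =
      eig x j := by
  have h := inner_eigenvector x j j
  rw [inner_self_eq_norm_sq_to_K] at h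
  simp only [if_true] at h
  exact Complex.ofReal_injective (by simpa using h)

/-- The singular values of an operator are the square roots of the eigenvalues of `x* x`. -/
theorem hasSum_cm {q : ℝ} (hq : 0 < q) (b : OrthonormalBasis (Fin n) ℂ E) (x : E →L[ℂ] E) :
    HasSum (fun k : ℕ => approxNum x k ^ q) (∑ i, eig (cm b x) i ^ (q / 2)) := by
  set v := (Matrix.isHermitian_conjTranspose_mul_self (mt (cm b x))).eigenvectorBasis with hv
  set w : OrthonormalBasis (Fin n) ℂ E := v.map b.repr.symm with hw
  have : FiniteDimensional ℂ E := w.toBasis.finiteDimensional_of_finite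
  have : CompleteSpace E := FiniteDimensional.complete ℂ E
  have hxw : ∀ i, x (w.toHilbertBasis i) =
      b.repr.symm (Matrix.toEuclideanLin (mt (cm b x)) (v i)) := fun i => by
    rw [← apply_repr_symm b x (v i)]
    simp [hw]
  refine hasSum_approxNum hq x w.toHilbertBasis ?_ ?_
  · intro i j hij
    rw [hxw, hxw, LinearIsometryEquiv.inner_map_map]
    have := inner_eigenvector (cm b x) i j
    rwa [if_neg hij] at this
  · have h1 : ∀ j, ‖x (w.toHilbertBasis j)‖ ^ q = eig (cm b x) j ^ (q / 2) := by
      intro j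
      rw [hxw, LinearIsometryEquiv.norm_map, ← norm_eigenvector (cm b x) j,
        ← Real.rpow_natCast, ← Real.rpow_mul (norm_nonneg _)]
      congr 1
      push_cast
      ring
    have h2 := hasSum_fintype (fun j => ‖x (w.toHilbertBasis j)‖ ^ q)
    simp only [h1] at h2 ⊢
    exact h2

end Pool.Agent.S91X
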