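import Pool.Agent.S91X.Base
import Pool.Agent.S50X.Spectral

open MeasureTheory Metric Set Filter Topology Module
open scoped Pointwise ENNReal NNReal FourierTransform

namespace Pool.Agent.S91X

open Pool.Agent.S50X

variable {ι : Type} [Fintype ι]

theorem integrable_shift {g : EC ι → ℂ} (hc : Continuous g) (hi : Integrable g) (u : EC ι) :
    Integrable (fun q : EC ι × ℝ => g (q.1 + q.2 • u))
      ((volume : Measure (EC ι)).prod (volume.restrict (Ioc (0 : ℝ) 1))) := by
  have hm : Continuous fun q : EC ι × ℝ => g (q.1 + q.2 • u) := by fun_prop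
  refine (integrable_prod_iff' hm.aestronglyMeasurable).2 ⟨?_, ?_⟩
  · exact Eventually.of_forall fun s => hi.comp_add_right (s • u)
  · have : (fun s : ℝ => ∫ x, ‖g (x + s • u)‖) = fun _ => ∫ x, ‖g x‖ := by
      funext s
      exact integral_add_right_eq_self (fun x => ‖g x‖) (s • u)
    simp only [this]
    exact integrable_const _

theorem integral_shift {g : EC ι → ℂ} (hc : Continuous g) (hi : Integrable g) (u : EC ι) :
    Integrable (fun x => ∫ s in (0 : ℝ)..1, g (x + s • u)) ∧
      ∫ x, (∫ s in (0 : ℝ)..1, g (x + s • u)) = ∫ x, g x := by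
  have h := integrable_shift hc hi u
  simp only [intervalIntegral.integral_of_le zero_le_one]
  refine ⟨h.integral_prod_left, ?_⟩
  rw [integral_integral_swap h]
  have : (fun s : ℝ => ∫ x, g (x + s • u)) = fun _ => ∫ x, g x := by
    funext s
    exact integral_add_right_eq_self g (s • u)
  simp only [this]
  simp

theorem integral_vert {g : ℝ → EC ι → ℂ} (hc : Continuous (Function.uncurry g)) {G : EC ι → ℝ}
    (hG : Integrable G) (hb : ∀ t ∈ Icc (-1 : ℝ) 0, ∀ x, ‖g t x‖ ≤ G x) (u : EC ι) :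
    Integrable (fun x => ∫ t in (0 : ℝ)..-1, g t x) ∧
      Integrable (fun x => ∫ t in (0 : ℝ)..-1, g t (x + u)) ∧
      ∫ x, (∫ t in (0 : ℝ)..-1, g t (x + u)) = ∫ x, (∫ t in (0 : ℝ)..-1, g t x) := by
  have h1 : Integrable (fun x => ∫ t in (0 : ℝ)..-1, g t x) := by
    refine hG.mono' ?_ (Eventually.of_forall fun x => ?_)
    · refine Continuous.aestronglyMeasurable ?_
      refine intervalIntegral.continuous_parametric_intervalIntegral_of_continuous' ?_ _ _
      exact hc.comp continuous_swap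
    · have := intervalIntegral.norm_integral_le_of_norm_le_const (a := (0 : ℝ)) (b := -1)
        (f := fun t => g t x) (C := G x) (fun t ht => by
          rw [uIoc_of_ge (by norm_num)] at ht
          exact hb t ⟨ht.1.le, ht.2⟩ x)
      simpa using this
  refine ⟨h1, ?_, ?_⟩
  · exact h1.comp_add_right u
  · exact integral_add_right_eq_self (fun x => ∫ t in (0 : ℝ)..-1, g t x) u

theorem integral_comb {A B C D : EC ι → ℂ} (hA : Integrable A) (hB : Integrable B)
    (hC : Integrable C) (hD : Integrable D) :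
    ∫ x, (A x - B x + Complex.I • C x - Complex.I • D x) =
      (∫ x, A x) - (∫ x, B x) + Complex.I • (∫ x, C x) - Complex.I • ∫ x, D x := by
  have e1 : Integrable (fun x => A x - B x) := hA.sub hB
  have e2 : Integrable (fun x => Complex.I • C x) := hC.smul Complex.I
  have e3 : Integrable (fun x => Complex.I • D x) := hD.smul Complex.I
  have e4 : Integrable (fun x => A x - B x + Complex.I • C x) := e1.add e2
  rw [integral_sub e4 e3, integral_add e1 e2, integral_sub hA hB, integral_smul, integral_smul]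

/-- The integrand of the shifted Fourier integral. -/
noncomputable def gk (Φ : EC ι → EC ι → ℂ) (u ξ : EC ι) (t : ℝ) (x : EC ι) : ℂ :=
  Φ x (t • u) * Complex.exp (-(2 * Real.pi * (inner ℝ x ξ + t * ‖ξ‖ * Complex.I)) * Complex.I)

theorem norm_gk (Φ : EC ι → EC ι → ℂ) (u ξ : EC ι) (t : ℝ) (x : EC ι) :
    ‖gk Φ u ξ t x‖ = ‖Φ x (t • u)‖ * Real.exp (2 * Real.pi * t * ‖ξ‖) := by
  unfold gk
  rw [norm_mul, Complex.norm_exp]
  congr 2
  simp
  ring

theorem Tube.rect {φ : EC ι → ℝ} {Φ : EC ι → EC ι → ℂ} {G : EC ι → ℝ} (h : Tube φ Φ G)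
    {ξ u : EC ι} (hu : ‖u‖ = 1) (huξ : inner ℝ u ξ = ‖ξ‖) :
    ∫ x, gk Φ u ξ 0 x = ∫ x, gk Φ u ξ (-1) x := by
  have hcont : Continuous (Function.uncurry (gk Φ u ξ)) := by
    unfold gk Function.uncurry
    have h1 : Continuous fun q : ℝ × EC ι => Φ q.2 (q.1 • u) :=
      h.cont.comp (by fun_prop : Continuous fun q : ℝ × EC ι => (q.2, q.1 • u))
    refine h1.mul ?_
    fun_prop
  have hct : ∀ t, Continuous (gk Φ u ξ t) := fun t =>
    hcont.comp (by fun_prop : Continuous fun x : EC ι => (t, x))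
  have hG0 : ∀ x, 0 ≤ G x := fun x => (norm_nonneg _).trans (h.bound x 0 (by simp))
  have hb : ∀ t ∈ Icc (-1 : ℝ) 0, ∀ x, ‖gk Φ u ξ t x‖ ≤ G x := by
    intro t ht x
    rw [norm_gk]
    have h1 : ‖Φ x (t • u)‖ ≤ G x := by
      refine h.bound x _ ?_
      rw [norm_smul, hu, mul_one, Real.norm_eq_abs, abs_le]
      exact ⟨ht.1, ht.2.trans zero_le_one⟩
    have h2 : Real.exp (2 * Real.pi * t * ‖ξ‖) ≤ 1 := by
      rw [Real.exp_le_one_iff]
      have : 0 ≤ 2 * Real.pi * ‖ξ‖ := by positivity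
      nlinarith [ht.2]
    calc ‖Φ x (t • u)‖ * Real.exp (2 * Real.pi * t * ‖ξ‖) ≤ G x * 1 :=
          mul_le_mul h1 h2 (Real.exp_pos _).le (hG0 x)
      _ = G x := mul_one _
  have hi : ∀ t ∈ Icc (-1 : ℝ) 0, Integrable (gk Φ u ξ t) := fun t ht =>
    h.int.mono' (hct t).aestronglyMeasurable (Eventually.of_forall (hb t ht))
  have hi0 := hi 0 (by norm_num)
  have hi1 := hi (-1) (by norm_num)
  obtain ⟨a1, a2⟩ := integral_shift (hct 0) hi0 u
  obtain ⟨b1, b2⟩ := integral_shift (hct (-1)) hi1 u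
  obtain ⟨c1, c2, c3⟩ := integral_vert hcont h.int hb u
  have key : ∀ x, (∫ s in (0 : ℝ)..1, gk Φ u ξ 0 (x + s • u)) -
      (∫ s in (0 : ℝ)..1, gk Φ u ξ (-1) (x + s • u)) +
      Complex.I • (∫ t in (0 : ℝ)..-1, gk Φ u ξ t (x + u)) -
      Complex.I • (∫ t in (0 : ℝ)..-1, gk Φ u ξ t x) = 0 := by
    intro x
    set F : ℂ → ℂ := fun ζ => Φ (x + ζ.re • u) (ζ.im • u) *
      Complex.exp (-(2 * Real.pi * (inner ℝ x ξ + ζ * ‖ξ‖)) * Complex.I) with hF
    have hFd : Differentiable ℂ F := by
      refine (h.hol x u).mul ?_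
      fun_prop
    have h1 := Complex.integral_boundary_rect_eq_zero_of_differentiableOn F 0 (1 - Complex.I)
      hFd.differentiableOn
    have hval : ∀ s t : ℝ, F (s + t * Complex.I) = gk Φ u ξ t (x + s • u) := by
      intro s t
      simp only [hF, gk, inner_add_left, inner_smul_left, huξ]
      simp only [Complex.add_re, Complex.ofReal_re, Complex.mul_re, Complex.I_re, mul_zero,
        Complex.ofReal_im, Complex.I_im, mul_one, sub_self, add_zero, Complex.add_im,
        Complex.mul_im, zero_add, Complex.ofReal_add, Complex.ofReal_mul]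
      congr 3
      simp
      ring
    simp only [Complex.zero_re, Complex.zero_im, Complex.sub_re, Complex.one_re, Complex.I_re,
      sub_zero, Complex.sub_im, Complex.one_im, Complex.I_im, zero_sub] at h1
    simp only [hval] at h1
    simpa using h1
  have hint : ∫ x, ((∫ s in (0 : ℝ)..1, gk Φ u ξ 0 (x + s • u)) -
      (∫ s in (0 : ℝ)..1, gk Φ u ξ (-1) (x + s • u)) +
      Complex.I • (∫ t in (0 : ℝ)..-1, gk Φ u ξ t (x + u)) -
      Complex.I • (∫ t in (0 : ℝ)..-1, gk Φ u ξ t x)) = 0 := by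
    simp only [key, integral_zero]
  rw [integral_comb a1 b1 c2 c1, c3, a2, b2, add_sub_cancel_right] at hint
  exact sub_eq_zero.1 hint

/-- The cosine transform. -/
noncomputable def cosT (φ : EC ι → ℝ) (ξ : EC ι) : ℝ :=
  ∫ x, φ x * Real.cos (2 * Real.pi * inner ℝ x ξ)

theorem Tube.continuous {φ : EC ι → ℝ} {Φ : EC ι → EC ι → ℂ} {G : EC ι → ℝ} (h : Tube φ Φ G) :
    Continuous φ := by
  have h1 : Continuous fun x => Φ x 0 :=
    h.cont.comp (by fun_prop : Continuous fun x : EC ι => (x, (0 : EC ι)))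
  simp only [h.zero] at h1
  have h2 : Continuous fun x => ((φ x : ℂ)).re := Complex.continuous_re.comp h1
  simpa using h2

theorem Tube.abs_le {φ : EC ι → ℝ} {Φ : EC ι → EC ι → ℂ} {G : EC ι → ℝ} (h : Tube φ Φ G)
    (x : EC ι) : |φ x| ≤ G x := by
  have := h.bound x 0 (by simp)
  rw [h.zero] at this
  simpa using this

theorem Tube.integrable {φ : EC ι → ℝ} {Φ : EC ι → EC ι → ℂ} {G : EC ι → ℝ} (h : Tube φ Φ G) :
    Integrable φ :=
  h.int.mono' h.continuous.aestronglyMeasurable (Eventually.of_forall h.abs_le)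

theorem Tube.even {φ : EC ι → ℝ} {Φ : EC ι → EC ι → ℂ} {G : EC ι → ℝ} (h : Tube φ Φ G)
    (x : EC ι) : φ (-x) = φ x := by
  have := h.phase (-1) x (by simp)
  simpa using this

/-- The Fourier transform is real. -/
theorem Tube.fourier {φ : EC ι → ℝ} {Φ : EC ι → EC ι → ℂ} {G : EC ι → ℝ} (h : Tube φ Φ G)
    (ξ : EC ι) :
    ∫ x, (φ x : ℂ) * Complex.exp (-(2 * Real.pi * inner ℝ x ξ : ℝ) * Complex.I) = (cosT φ ξ : ℂ) := by
  set f : EC ι → ℂ := fun x => (φ x : ℂ) *
    Complex.exp (-(2 * Real.pi * inner ℝ x ξ : ℝ) * Complex.I) with hf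
  have hfc : Continuous f := by
    have := h.continuous
    fun_prop
  have hfn : ∀ x, ‖f x‖ = |φ x| := by
    intro x
    simp only [hf, norm_mul, Complex.norm_real, Real.norm_eq_abs]
    rw [Complex.norm_exp]
    simp
  have hfi : Integrable f := h.int.mono' hfc.aestronglyMeasurable
    (Eventually.of_forall fun x => by rw [hfn]; exact h.abs_le x)
  have hre : ∀ x, (f x).re = φ x * Real.cos (2 * Real.pi * inner ℝ x ξ) := by
    intro x
    simp only [hf]
    rw [Complex.re_ofReal_mul, ← Complex.ofReal_neg, Complex.exp_ofReal_mul_I_re, Real.cos_neg]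
  have him : ∀ x, (f x).im = -(φ x * Real.sin (2 * Real.pi * inner ℝ x ξ)) := by
    intro x
    simp only [hf]
    rw [Complex.im_ofReal_mul, ← Complex.ofReal_neg, Complex.exp_ofReal_mul_I_im, Real.sin_neg]
    ring
  apply Complex.ext
  · have := integral_re hfi
    simp only [RCLike.re_to_complex] at this
    rw [← this, Complex.ofReal_re]
    unfold cosT
    exact integral_congr_ae (Eventually.of_forall hre)
  · have := integral_im hfi
    simp only [RCLike.im_to_complex] at this
    rw [← this, Complex.ofReal_im]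
    have h1 : ∫ x, (f x).im = ∫ x, (f (-x)).im := (integral_neg_eq_self (fun x => (f x).im) _).symm
    have h2 : ∀ x, (f (-x)).im = -(f x).im := by
      intro x
      rw [him, him, h.even]
      simp
    simp only [h2, integral_neg] at h1
    linarith

theorem Tube.kap_le {φ : EC ι → ℝ} {Φ : EC ι → EC ι → ℂ} {G : EC ι → ℝ} (h : Tube φ Φ G)
    (ξ : EC ι) : |cosT φ ξ| ≤ Real.exp (-(2 * Real.pi * ‖ξ‖)) * ∫ x, G x := by
  by_cases hξ : ξ = 0
  · subst hξ
    simp only [cosT, inner_zero_right, mul_zero, Real.cos_zero, mul_one, norm_zero, neg_zero,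
      Real.exp_zero, one_mul]
    refine (norm_integral_le_integral_norm φ).trans ?_
    exact integral_mono h.integrable.norm h.int fun x => by simpa using h.abs_le x
  · have hn : ‖ξ‖ ≠ 0 := norm_ne_zero_iff.2 hξ
    have hn0 : 0 < ‖ξ‖ := norm_pos_iff.2 hξ
    set u : EC ι := ‖ξ‖⁻¹ • ξ with hu
    have hu1 : ‖u‖ = 1 := by
      rw [hu, norm_smul, norm_inv, norm_norm, inv_mul_cancel₀ hn]
    have hu2 : inner ℝ u ξ = ‖ξ‖ := by
      rw [hu, inner_smul_left, real_inner_self_eq_norm_sq]
      simp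
      field_simp
    have h1 := h.rect hu1 hu2
    have h2 : ∫ x, gk Φ u ξ 0 x = (cosT φ ξ : ℂ) := by
      rw [← h.fourier]
      refine integral_congr_ae (Eventually.of_forall fun x => ?_)
      simp only [gk, zero_smul, h.zero]
      simp
    rw [h2] at h1
    have h3 : |cosT φ ξ| = ‖(cosT φ ξ : ℂ)‖ := by simp
    rw [h3, h1]
    refine (norm_integral_le_integral_norm _).trans ?_
    rw [← integral_const_mul]
    refine integral_mono_of_nonneg (Eventually.of_forall fun x => norm_nonneg _)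
      (h.int.const_mul _) (Eventually.of_forall fun x => ?_)
    simp only [norm_gk]
    have h4 : ‖Φ x ((-1 : ℝ) • u)‖ ≤ G x := h.bound x _ (by rw [norm_smul, hu1]; simp)
    have h5 : 2 * Real.pi * (-1) * ‖ξ‖ = -(2 * Real.pi * ‖ξ‖) := by ring
    rw [h5, mul_comm]
    exact mul_le_mul_of_nonneg_left h4 (Real.exp_pos _).le

end Pool.Agent.S91X
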