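import Pool.Agent.S91X.TubeA

open MeasureTheory Metric Set Filter Topology Module
open scoped Pointwise ENNReal NNReal FourierTransform

namespace Pool.Agent.S91X

open Pool.Agent.S50X

variable {ι : Type} [Fintype ι]

theorem integrable_norm_exp [Nonempty ι] {s : ℝ} (hs : 0 ≤ s) :
    Integrable (fun ξ : EC ι => ‖ξ‖ ^ s * Real.exp (-(2 * Real.pi * ‖ξ‖))) := by
  have h1 : IntegrableOn (fun r : ℝ => r ^ (((finrank ℝ (EC ι) - 1 : ℕ) : ℝ) + s) *
      Real.exp (-(2 * Real.pi) * r ^ (1 : ℝ))) (Ioi 0) := by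
    refine integrableOn_rpow_mul_exp_neg_mul_rpow ?_ one_pos (by positivity)
    have : (0 : ℝ) ≤ ((finrank ℝ (EC ι) - 1 : ℕ) : ℝ) := Nat.cast_nonneg _
    linarith
  refine (integrable_fun_norm_addHaar (volume : Measure (EC ι))
    (f := fun y => y ^ s * Real.exp (-(2 * Real.pi * y)))).2 ?_
  refine h1.congr_fun (fun r hr => ?_) measurableSet_Ioi
  have hr0 : (0 : ℝ) < r := hr
  simp only [smul_eq_mul]
  rw [Real.rpow_add hr0, Real.rpow_natCast, Real.rpow_one]
  rw [neg_mul, mul_assoc]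

theorem integrableOn_radial {s : ℝ} (hs : 0 ≤ s) :
    IntegrableOn (fun r : ℝ => r ^ (finrank ℝ (EC ι) - 1) *
      (r ^ s * Real.exp (-(2 * Real.pi * r)))) (Ioi 0) := by
  have h1 : IntegrableOn (fun r : ℝ => r ^ (((finrank ℝ (EC ι) - 1 : ℕ) : ℝ) + s) *
      Real.exp (-(2 * Real.pi) * r ^ (1 : ℝ))) (Ioi 0) := by
    refine integrableOn_rpow_mul_exp_neg_mul_rpow ?_ one_pos (by positivity)
    have : (0 : ℝ) ≤ ((finrank ℝ (EC ι) - 1 : ℕ) : ℝ) := Nat.cast_nonneg _
    linarith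
  refine h1.congr_fun (fun r hr => ?_) measurableSet_Ioi
  have hr0 : (0 : ℝ) < r := hr
  simp only
  rw [Real.rpow_add hr0, Real.rpow_natCast, Real.rpow_one]
  rw [neg_mul, mul_assoc]

theorem continuousAt_cosT {Ω : Type*} [TopologicalSpace Ω] [FirstCountableTopology Ω]
    {φ : Ω → EC ι → ℝ} {ω₀ : Ω} {G : EC ι → ℝ} (hc : ∀ x, ContinuousAt (fun ω => φ ω x) ω₀)
    (hT : ∀ᶠ ω in 𝓝 ω₀, ∃ Φ, Tube (φ ω) Φ G) (ξ₀ : EC ι) :
    ContinuousAt (fun q : Ω × EC ι => cosT (φ q.1) q.2) (ω₀, ξ₀) := by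
  have hT' : ∀ᶠ q : Ω × EC ι in 𝓝 (ω₀, ξ₀), ∃ Φ, Tube (φ q.1) Φ G := hT.prod_inl_nhds _
  obtain ⟨Φ₀, h₀⟩ := hT.self_of_nhds
  unfold cosT
  refine continuousAt_of_dominated (bound := G) ?_ ?_ h₀.int ?_
  · filter_upwards [hT'] with q hq
    obtain ⟨Φ, h⟩ := hq
    have := h.continuous
    exact Continuous.aestronglyMeasurable (by fun_prop)
  · filter_upwards [hT'] with q hq
    obtain ⟨Φ, h⟩ := hq
    refine Eventually.of_forall fun x => ?_
    rw [norm_mul, Real.norm_eq_abs, Real.norm_eq_abs]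
    calc |φ q.1 x| * |Real.cos (2 * Real.pi * inner ℝ x q.2)| ≤ |φ q.1 x| * 1 :=
          mul_le_mul_of_nonneg_left (Real.abs_cos_le_one _) (abs_nonneg _)
      _ ≤ G x := by rw [mul_one]; exact h.abs_le x
  · refine Eventually.of_forall fun x => ?_
    refine ContinuousAt.mul ?_ ?_
    · exact ContinuousAt.comp (f := fun q : Ω × EC ι => q.1) (x := (ω₀, ξ₀)) (hc x)
        continuousAt_fst
    · have : Continuous fun q : Ω × EC ι => Real.cos (2 * Real.pi * inner ℝ x q.2) := by fun_prop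
      exact this.continuousAt

section one

variable {φ : EC ι → ℝ} {Φ : EC ι → EC ι → ℂ} {G : EC ι → ℝ}

theorem Tube.continuous_kap (h : Tube φ Φ G) : Continuous (cosT φ) := by
  rw [continuous_iff_continuousAt]
  intro ξ
  have h1 := continuousAt_cosT (Ω := Unit) (φ := fun _ => φ) (ω₀ := ()) (G := G)
    (fun x => continuousAt_const) (Eventually.of_forall fun _ => ⟨Φ, h⟩) ξ
  exact ContinuousAt.comp (g := fun q : Unit × EC ι => cosT φ q.2) (f := fun ξ : EC ι => ((), ξ))
    (x := ξ) h1 (by fun_prop)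

/-- The constant of the decay of the transform. -/
theorem Tube.int_nonneg (h : Tube φ Φ G) : 0 ≤ ∫ x, G x :=
  integral_nonneg fun x => (abs_nonneg _).trans (h.abs_le x)

theorem Tube.integrable_kap_rpow [Nonempty ι] (h : Tube φ Φ G) {s : ℝ} (hs : 0 ≤ s) :
    Integrable (fun ξ => cosT φ ξ * ‖ξ‖ ^ s) := by
  refine ((integrable_norm_exp (ι := ι) hs).const_mul (∫ x, G x)).mono' ?_ ?_
  · have h1 : Continuous fun ξ : EC ι => ‖ξ‖ ^ s := continuous_norm.rpow_const fun _ => Or.inr hs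
    exact (h.continuous_kap.mul h1).aestronglyMeasurable
  · refine Eventually.of_forall fun ξ => ?_
    rw [norm_mul, Real.norm_eq_abs, Real.norm_of_nonneg (by positivity : 0 ≤ ‖ξ‖ ^ s)]
    calc |cosT φ ξ| * ‖ξ‖ ^ s ≤ (Real.exp (-(2 * Real.pi * ‖ξ‖)) * ∫ x, G x) * ‖ξ‖ ^ s :=
          mul_le_mul_of_nonneg_right (h.kap_le ξ) (by positivity)
      _ = _ := by ring

theorem Tube.integrable_kap [Nonempty ι] (h : Tube φ Φ G) : Integrable (cosT φ) := by
  simpa using h.integrable_kap_rpow le_rfl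

/-- Fourier inversion. -/
theorem Tube.inv [Nonempty ι] (h : Tube φ Φ G) (x : EC ι) :
    φ x = ∫ ξ, cosT φ ξ * Real.cos (2 * Real.pi * inner ℝ x ξ) := by
  set f : EC ι → ℂ := fun x => (φ x : ℂ) with hf
  have hfc : Continuous f := by
    have := h.continuous
    fun_prop
  have hfi : Integrable f := h.integrable.ofReal
  have h1 : 𝓕 f = fun ξ => (cosT φ ξ : ℂ) := by
    funext ξ
    rw [Real.fourier_eq', ← h.fourier ξ]
    refine integral_congr_ae (Eventually.of_forall fun v => ?_)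
    simp only [hf, smul_eq_mul]
    rw [mul_comm]
    congr 2
    push_cast
    ring
  have h2 : Integrable (𝓕 f) := by
    rw [h1]
    exact h.integrable_kap.ofReal
  have h3 := congrFun (hfc.fourierInv_fourier_eq hfi h2) x
  rw [h1, Real.fourierInv_eq'] at h3
  have hci : Integrable (fun v : EC ι =>
      Complex.exp (((2 * Real.pi * inner ℝ v x : ℝ) : ℂ) * Complex.I) • (cosT φ v : ℂ)) := by
    refine (h.integrable_kap.ofReal (𝕜 := ℂ)).norm.mono' ?_ ?_
    · have := h.continuous_kap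
      exact Continuous.aestronglyMeasurable (by fun_prop)
    · refine Eventually.of_forall fun v => ?_
      rw [norm_smul, Complex.norm_exp_ofReal_mul_I, one_mul]
      simp
  have h4 := integral_re hci
  simp only [RCLike.re_to_complex] at h4
  rw [h3] at h4
  simp only [hf, Complex.ofReal_re] at h4
  rw [← h4]
  refine integral_congr_ae (Eventually.of_forall fun v => ?_)
  simp only [smul_eq_mul]
  rw [Complex.re_mul_ofReal, Complex.exp_ofReal_mul_I_re, mul_comm, real_inner_comm]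

/-- Multiplication by a unit scalar. -/
noncomputable def rot (ι : Type) [Fintype ι] (c : ℂ) (hc : ‖c‖ = 1) : EC ι ≃ₗᵢ[ℂ] EC ι where
  toLinearEquiv := LinearEquiv.smulOfNeZero ℂ (EC ι) c (by
    intro h
    rw [h, norm_zero] at hc
    exact zero_ne_one hc)
  norm_map' := fun x => by
    simp [norm_smul, hc]

theorem rot_apply (c : ℂ) (hc : ‖c‖ = 1) (x : EC ι) : rot ι c hc x = c • x := rfl

theorem integral_rot (c : ℂ) (hc : ‖c‖ = 1) (F : EC ι → ℝ) :
    ∫ x, F (c • x) = ∫ x, F x :=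
  (measurePreserving_unitary (rot ι c hc)).integral_comp
    (rot ι c hc).toHomeomorph.measurableEmbedding F

theorem inner_rot (c : ℂ) (hc : ‖c‖ = 1) (x ξ : EC ι) :
    inner ℝ (c • x) (c • ξ) = (inner ℝ x ξ : ℝ) :=
  (realIso (rot ι c hc)).inner_map_map x ξ

theorem inner_re (x ξ : EC ι) : (inner ℝ x ξ : ℝ) = (inner ℂ x ξ : ℂ).re := by
  simp [PiLp.inner_apply, Complex.inner]

theorem Tube.kap_phase (h : Tube φ Φ G) (c : ℂ) (hc : ‖c‖ = 1) (ξ : EC ι) :
    cosT φ (c • ξ) = cosT φ ξ := by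
  unfold cosT
  rw [← integral_rot c hc]
  refine integral_congr_ae (Eventually.of_forall fun x => ?_)
  simp only [h.phase c x hc, inner_rot c hc]

end one

/-! ### The constant of the Levy integral -/

/-- The Levy integral of `1 - cos`. -/
noncomputable def Cb (p : ℝ) : ℝ :=
  ∫ l in Ioi (0 : ℝ), (1 - Real.cos (2 * Real.pi * Real.sqrt l)) * l ^ (-1 - p / 2)

theorem measurable_levy (p t : ℝ) :
    Measurable fun l : ℝ => (1 - Real.cos (2 * Real.pi * (Real.sqrt l * t))) * l ^ (-1 - p / 2) := by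
  fun_prop

theorem integrableOn_Cb {p : ℝ} (hp : 0 < p) (hp2 : p < 2) :
    IntegrableOn (fun l : ℝ => (1 - Real.cos (2 * Real.pi * Real.sqrt l)) * l ^ (-1 - p / 2))
      (Ioi 0) := by
  have hm : Measurable fun l : ℝ => (1 - Real.cos (2 * Real.pi * Real.sqrt l)) *
      l ^ (-1 - p / 2) := by
    fun_prop
  rw [← Ioc_union_Ioi_eq_Ioi zero_le_one]
  refine IntegrableOn.union ?_ ?_
  · have h1 : IntegrableOn (fun l : ℝ => 2 * Real.pi ^ 2 * l ^ (-(p / 2))) (Ioc 0 1) :=
      ((intervalIntegral.intervalIntegrable_rpow' (a := 0) (b := 1) (r := -(p / 2))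
        (by linarith)).1).const_mul _
    refine h1.mono' hm.aestronglyMeasurable ?_
    refine (ae_restrict_iff' measurableSet_Ioc).2 (Eventually.of_forall fun l hl => ?_)
    have hl0 : 0 < l := hl.1
    have h2 := Real.one_sub_sq_div_two_le_cos (x := 2 * Real.pi * Real.sqrt l)
    have h3 := Real.cos_le_one (2 * Real.pi * Real.sqrt l)
    have h4 : (2 * Real.pi * Real.sqrt l) ^ 2 = 4 * Real.pi ^ 2 * l := by
      rw [mul_pow, Real.sq_sqrt hl0.le]
      ring
    rw [Real.norm_of_nonneg (mul_nonneg (by linarith) (by positivity))]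
    have h5 : l ^ (-(p / 2)) = l * l ^ (-1 - p / 2) := by
      nth_rw 2 [← Real.rpow_one l]
      rw [← Real.rpow_add hl0]
      congr 1
      ring
    rw [h5, ← mul_assoc]
    refine mul_le_mul_of_nonneg_right ?_ (by positivity)
    nlinarith
  · have h1 : IntegrableOn (fun l : ℝ => 2 * l ^ (-1 - p / 2)) (Ioi 1) :=
      (integrableOn_Ioi_rpow_of_lt (by linarith) one_pos).const_mul _
    refine h1.mono' hm.aestronglyMeasurable ?_
    refine (ae_restrict_iff' measurableSet_Ioi).2 (Eventually.of_forall fun l hl => ?_)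
    have hl0 : 0 < l := zero_lt_one.trans hl
    have h2 := Real.neg_one_le_cos (2 * Real.pi * Real.sqrt l)
    have h3 := Real.cos_le_one (2 * Real.pi * Real.sqrt l)
    rw [Real.norm_of_nonneg (mul_nonneg (by linarith) (by positivity))]
    exact mul_le_mul_of_nonneg_right (by linarith) (by positivity)

theorem Cb_pos {p : ℝ} (hp : 0 < p) (hp2 : p < 2) : 0 < Cb p := by
  unfold Cb
  have hnn : ∀ l ∈ Ioi (0 : ℝ), 0 ≤ (1 - Real.cos (2 * Real.pi * Real.sqrt l)) *
      l ^ (-1 - p / 2) := by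
    intro l hl
    have hl0 : 0 < l := hl
    have h3 := Real.cos_le_one (2 * Real.pi * Real.sqrt l)
    exact mul_nonneg (by linarith) (by positivity)
  rw [setIntegral_pos_iff_support_of_nonneg_ae
    ((ae_restrict_iff' measurableSet_Ioi).2 (Eventually.of_forall hnn)) (integrableOn_Cb hp hp2)]
  have hsub : Ioo (0 : ℝ) 1 ⊆ (Function.support fun l : ℝ =>
      (1 - Real.cos (2 * Real.pi * Real.sqrt l)) * l ^ (-1 - p / 2)) ∩ Ioi 0 := by
    intro l hl
    refine ⟨?_, hl.1⟩
    have hl0 : 0 < l := hl.1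
    have hs0 : 0 < Real.sqrt l := Real.sqrt_pos.2 hl0
    have hs1 : Real.sqrt l < 1 := by
      rw [Real.sqrt_lt' one_pos]
      simpa using hl.2
    have h1 : Real.cos (2 * Real.pi * Real.sqrt l) ≠ 1 := by
      intro h
      rw [Real.cos_eq_one_iff_of_lt_of_lt] at h
      · have : 0 < 2 * Real.pi * Real.sqrt l := by positivity
        linarith
      · have : 0 < 2 * Real.pi * Real.sqrt l := by positivity
        linarith [Real.pi_pos]
      · nlinarith [Real.pi_pos]
    rw [Function.mem_support]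
    exact mul_ne_zero (sub_ne_zero.2 (Ne.symm h1)) (Real.rpow_pos_of_pos hl0 _).ne'
  refine lt_of_lt_of_le ?_ (measure_mono hsub)
  simp

theorem levy_scale {p : ℝ} (hp : 0 < p) (hp2 : p < 2) (t : ℝ) :
    IntegrableOn (fun l : ℝ => (1 - Real.cos (2 * Real.pi * (Real.sqrt l * t))) *
      l ^ (-1 - p / 2)) (Ioi 0) ∧
    ∫ l in Ioi (0 : ℝ), (1 - Real.cos (2 * Real.pi * (Real.sqrt l * t))) * l ^ (-1 - p / 2) =
      |t| ^ p * Cb p := by
  by_cases ht : t = 0
  · subst ht
    simp [Real.zero_rpow hp.ne']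
  · have ht2 : 0 < t ^ 2 := by positivity
    set F : ℝ → ℝ := fun l => (1 - Real.cos (2 * Real.pi * Real.sqrt l)) * l ^ (-1 - p / 2) with hF
    have hEq : ∀ l ∈ Ioi (0 : ℝ), (1 - Real.cos (2 * Real.pi * (Real.sqrt l * t))) *
        l ^ (-1 - p / 2) = (t ^ 2) ^ (1 + p / 2) * F (l * t ^ 2) := by
      intro l hl
      have hl0 : 0 < l := hl
      simp only [hF]
      have h1 : Real.sqrt (l * t ^ 2) = |Real.sqrt l * t| := by
        rw [Real.sqrt_mul hl0.le, Real.sqrt_sq_eq_abs, abs_mul, abs_of_nonneg (Real.sqrt_nonneg l)]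
      have h2 : Real.cos (2 * Real.pi * Real.sqrt (l * t ^ 2)) =
          Real.cos (2 * Real.pi * (Real.sqrt l * t)) := by
        rw [h1, ← Real.cos_abs (2 * Real.pi * (Real.sqrt l * t)), abs_mul (2 * Real.pi),
          abs_of_pos (by positivity : (0 : ℝ) < 2 * Real.pi)]
      rw [h2, Real.mul_rpow hl0.le ht2.le]
      have h3 : (t ^ 2) ^ (1 + p / 2) * (t ^ 2) ^ (-1 - p / 2) = 1 := by
        rw [← Real.rpow_add ht2]
        rw [show (1 + p / 2) + (-1 - p / 2) = 0 by ring, Real.rpow_zero]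
      calc (1 - Real.cos (2 * Real.pi * (Real.sqrt l * t))) * l ^ (-1 - p / 2)
          = (1 - Real.cos (2 * Real.pi * (Real.sqrt l * t))) * l ^ (-1 - p / 2) *
            ((t ^ 2) ^ (1 + p / 2) * (t ^ 2) ^ (-1 - p / 2)) := by rw [h3, mul_one]
        _ = _ := by ring
    have hi : IntegrableOn (fun l => F (l * t ^ 2)) (Ioi 0) := by
      rw [integrableOn_Ioi_comp_mul_right_iff F 0 ht2, zero_mul]
      exact integrableOn_Cb hp hp2
    refine ⟨?_, ?_⟩
    · have h5 : IntegrableOn (fun l => (t ^ 2) ^ (1 + p / 2) * F (l * t ^ 2)) (Ioi 0) :=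
        hi.const_mul _
      exact h5.congr_fun (fun l hl => (hEq l hl).symm) measurableSet_Ioi
    · rw [setIntegral_congr_fun measurableSet_Ioi hEq, integral_const_mul,
        integral_comp_mul_right_Ioi F 0 ht2, zero_mul, smul_eq_mul]
      unfold Cb
      rw [← mul_assoc]
      congr 1
      rw [← Real.rpow_neg_one (t ^ 2), ← Real.rpow_add ht2,
        show (1 + p / 2) + -1 = p / 2 by ring, ← sq_abs, ← Real.rpow_natCast, ← Real.rpow_mul
        (abs_nonneg _)]
      congr 1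
      push_cast
      ring

section two

variable {φ : EC ι → ℝ} {Φ : EC ι → EC ι → ℂ} {G : EC ι → ℝ}

theorem abs_inner_rpow_le {p : ℝ} (hp : 0 < p) (x ξ : EC ι) :
    |(inner ℝ x ξ : ℝ)| ^ p ≤ ‖x‖ ^ p * ‖ξ‖ ^ p := by
  rw [← Real.mul_rpow (norm_nonneg _) (norm_nonneg _)]
  exact Real.rpow_le_rpow (abs_nonneg _) (abs_real_inner_le_norm x ξ) hp.le

theorem Tube.integrable_kap_inner [Nonempty ι] (h : Tube φ Φ G) {p : ℝ} (hp : 0 < p) (x : EC ι) :
    Integrable (fun ξ => cosT φ ξ * |(inner ℝ x ξ : ℝ)| ^ p) := by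
  refine (((h.integrable_kap_rpow hp.le).norm).const_mul (‖x‖ ^ p)).mono' ?_ ?_
  · have h1 : Continuous fun ξ : EC ι => |(inner ℝ x ξ : ℝ)| := by fun_prop
    exact (h.continuous_kap.mul (h1.rpow_const fun _ => Or.inr hp.le)).aestronglyMeasurable
  · refine Eventually.of_forall fun ξ => ?_
    rw [norm_mul, norm_mul, Real.norm_of_nonneg (by positivity : 0 ≤ |(inner ℝ x ξ : ℝ)| ^ p),
      Real.norm_of_nonneg (by positivity : 0 ≤ ‖ξ‖ ^ p)]
    calc ‖cosT φ ξ‖ * |(inner ℝ x ξ : ℝ)| ^ p ≤ ‖cosT φ ξ‖ * (‖x‖ ^ p * ‖ξ‖ ^ p) :=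
          mul_le_mul_of_nonneg_left (abs_inner_rpow_le hp x ξ) (norm_nonneg _)
      _ = _ := by ring

theorem Tube.levy [Nonempty ι] (h : Tube φ Φ G) {p : ℝ} (hp : 0 < p) (hp2 : p < 2) (x : EC ι) :
    IntegrableOn (fun l => (φ 0 - φ (Real.sqrt l • x)) * l ^ (-1 - p / 2)) (Ioi 0) ∧
    ∫ l in Ioi (0 : ℝ), (φ 0 - φ (Real.sqrt l • x)) * l ^ (-1 - p / 2) =
      Cb p * ∫ ξ, cosT φ ξ * |(inner ℝ x ξ : ℝ)| ^ p := by
  set K : ℝ × EC ι → ℝ := fun q => cosT φ q.2 *
    ((1 - Real.cos (2 * Real.pi * (Real.sqrt q.1 * inner ℝ x q.2))) * q.1 ^ (-1 - p / 2)) with hK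
  have hKm : Measurable K := by
    have := h.continuous_kap.measurable
    fun_prop
  have hnn : ∀ (l : ℝ), 0 < l → ∀ t : ℝ, 0 ≤ (1 - Real.cos (2 * Real.pi * (Real.sqrt l * t))) *
      l ^ (-1 - p / 2) := by
    intro l hl t
    have h3 := Real.cos_le_one (2 * Real.pi * (Real.sqrt l * t))
    exact mul_nonneg (by linarith) (by positivity)
  have hKi : Integrable K ((volume.restrict (Ioi (0 : ℝ))).prod (volume : Measure (EC ι))) := by
    refine (integrable_prod_iff' hKm.aestronglyMeasurable).2 ⟨?_, ?_⟩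
    · refine Eventually.of_forall fun ξ => ?_
      have h5 := ((levy_scale hp hp2 (inner ℝ x ξ : ℝ)).1).const_mul (cosT φ ξ)
      exact h5
    · have h1 : ∀ ξ : EC ι, ∫ l in Ioi (0 : ℝ), ‖K (l, ξ)‖ =
          ‖cosT φ ξ * |(inner ℝ x ξ : ℝ)| ^ p‖ * Cb p := by
        intro ξ
        rw [norm_mul, Real.norm_of_nonneg (by positivity : 0 ≤ |(inner ℝ x ξ : ℝ)| ^ p), mul_assoc,
          ← (levy_scale hp hp2 _).2, ← integral_const_mul]
        refine setIntegral_congr_fun measurableSet_Ioi fun l hl => ?_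
        simp only [hK]
        rw [norm_mul, Real.norm_of_nonneg (hnn l hl _)]
      simp only [h1]
      exact ((h.integrable_kap_inner hp x).norm).mul_const _
  have hval : ∀ l ∈ Ioi (0 : ℝ), (φ 0 - φ (Real.sqrt l • x)) * l ^ (-1 - p / 2) =
      ∫ ξ, K (l, ξ) := by
    intro l _
    rw [h.inv 0, h.inv (Real.sqrt l • x), ← integral_sub, ← integral_mul_const]
    · refine integral_congr_ae (Eventually.of_forall fun ξ => ?_)
      simp only [hK, inner_zero_left, mul_zero, Real.cos_zero, mul_one, inner_smul_left]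
      simp
      ring
    · simpa using h.integrable_kap
    · refine h.integrable_kap.norm.mono' ?_ (Eventually.of_forall fun ξ => ?_)
      · have := h.continuous_kap
        exact Continuous.aestronglyMeasurable (by fun_prop)
      · rw [norm_mul]
        exact (mul_le_mul_of_nonneg_left (Real.abs_cos_le_one _) (norm_nonneg _)).trans
          (mul_one _).le
  refine ⟨?_, ?_⟩
  · have h5 : IntegrableOn (fun l => ∫ ξ, K (l, ξ)) (Ioi 0) := hKi.integral_prod_left
    exact h5.congr_fun (fun l hl => (hval l hl).symm) measurableSet_Ioi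
  · rw [setIntegral_congr_fun measurableSet_Ioi hval, integral_integral_swap hKi,
      ← integral_const_mul]
    refine integral_congr_ae (Eventually.of_forall fun ξ => ?_)
    simp only [hK]
    rw [integral_const_mul, (levy_scale hp hp2 _).2]
    ring

end two

end Pool.Agent.S91X
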